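import Pool.Agent.R573.CL.Cmp
import Pool.Agent.R105.TP.Del2

/-! Copies of a vertex: the link of a vertex of large degree is near a link of Turán's construction,
for all classes of 3-graphs which are closed under the addition of copies of vertices and for which
stability holds. -/

set_option autoImplicit false
set_option linter.unusedVariables false
set_option linter.unusedSectionVars false
set_option maxRecDepth 100000

open Finset
open scoped Classical

namespace Pool.Agent.R573.CL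
open Pool.Agent.Y439.Loc hiding sum_nonneg'
open Pool.Agent.TH773
open Pool.Agent.Y439
open Pool.Agent.Y903.TX
open Pool.Agent.R105.TP

theorem card3_ne {α : Type} [DecidableEq α] {a b d : α} (h : ({a, b, d} : Finset α).card = 3) :
    a ≠ b ∧ b ≠ d ∧ a ≠ d := by
  refine ⟨?_, ?_, ?_⟩
  · rintro rfl
    have h1 := Finset.card_le_two (a := a) (b := d)
    rw [insert_eq_of_mem (by simp)] at h
    omega
  · rintro rfl
    have h1 := Finset.card_le_two (a := a) (b := b)
    rw [show ({a, b, b} : Finset α) = {a, b} by simp] at h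
    omega
  · rintro rfl
    have h1 := Finset.card_le_two (a := b) (b := a)
    rw [insert_eq_of_mem (by simp)] at h
    omega

section
variable {n : ℕ}

/-- the projection of `m` copies of `v` to `v` -/
def pr (v : Fin n) (m : ℕ) : Fin (n + m) → Fin n := Fin.append id fun _ => v

theorem pr_l (v : Fin n) (m : ℕ) (i : Fin n) : pr v m (Fin.castAdd m i) = i :=
  Fin.append_left _ _ _

theorem pr_r (v : Fin n) (m : ℕ) (j : Fin m) : pr v m (Fin.natAdd n j) = v :=
  Fin.append_right _ _ _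

theorem sum_pr (v : Fin n) (m : ℕ) (f : Fin n → ℝ) :
    ∑ x, f (pr v m x) = ∑ a, f a + m * f v := by
  rw [Fin.sum_univ_add]
  simp only [pr_l, pr_r, sum_const, card_univ, Fintype.card_fin, nsmul_eq_mul]

theorem sum_l {m : ℕ} {f : Fin (n + m) → ℝ} (hf : ∀ x, 0 ≤ f x) :
    ∑ a, f (Fin.castAdd m a) ≤ ∑ x, f x := by
  rw [Fin.sum_univ_add]
  have : 0 ≤ ∑ i, f (Fin.natAdd n i) := Finset.sum_nonneg fun i _ => hf _
  linarith

theorem sum_r {m : ℕ} {f : Fin (n + m) → ℝ} (hf : ∀ x, 0 ≤ f x) :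
    ∑ a, f (Fin.natAdd n a) ≤ ∑ x, f x := by
  rw [Fin.sum_univ_add]
  have : 0 ≤ ∑ i, f (Fin.castAdd m i) := Finset.sum_nonneg fun i _ => hf _
  linarith

/-- the 3-graph with `m` further copies of `v` -/
def cln (v : Fin n) (m : ℕ) (H : Finset (Finset (Fin n))) : Finset (Finset (Fin (n + m))) :=
  univ.filter fun e => e.card = 3 ∧ e.image (pr v m) ∈ H

variable {H : Finset (Finset (Fin n))}

theorem cln_unif (v : Fin n) (m : ℕ) : ∀ e ∈ cln v m H, e.card = 3 := fun e he =>
  (mem_filter.1 he).2.1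

theorem rel_cln (hH : ∀ e ∈ H, e.card = 3) (v : Fin n) (m : ℕ) (x y z : Fin (n + m)) :
    Loc.Rel (cln v m H) x y z ↔ Loc.Rel H (pr v m x) (pr v m y) (pr v m z) := by
  have hi : ({x, y, z} : Finset (Fin (n + m))).image (pr v m) =
      {pr v m x, pr v m y, pr v m z} := by
    rw [image_insert, image_insert, image_singleton]
  constructor
  · rintro ⟨h1, h2, h3, h4⟩
    have h5 := (mem_filter.1 h4).2.2
    rw [hi] at h5
    obtain ⟨g1, g2, g3⟩ := card3_ne (hH _ h5)
    exact ⟨g1, g2, g3, h5⟩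
  · rintro ⟨g1, g2, g3, h5⟩
    have h1 : x ≠ y := fun e => g1 (by rw [e])
    have h2 : y ≠ z := fun e => g2 (by rw [e])
    have h3 : x ≠ z := fun e => g3 (by rw [e])
    refine ⟨h1, h2, h3, mem_filter.2 ⟨mem_univ _, card_eq_three.2 ⟨x, y, z, h1, h3, h2, rfl⟩, ?_⟩⟩
    rw [hi]
    exact h5

theorem free_of_rel {k : ℕ} {K : Finset (Finset (Fin k))}
    (h : ∀ x y z w, Loc.Rel K x y z → Loc.Rel K x y w → Loc.Rel K x z w → Loc.Rel K y z w → False) :
    Turan34.K43Free K := by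
  intro S hS
  by_contra hcon
  push Not at hcon
  obtain ⟨a, T, ha, rfl, hT⟩ := card_eq_succ.1 hS
  obtain ⟨b, d, e, n1, n2, n3, rfl⟩ := card_eq_three.1 hT
  simp only [mem_insert, mem_singleton, not_or] at ha
  obtain ⟨a1, a2, a3⟩ := ha
  have key : ∀ x y z : Fin k, x ≠ y → y ≠ z → x ≠ z → ({x, y, z} : Finset (Fin k)) ⊆
      insert a {b, d, e} → Loc.Rel K x y z := fun x y z h1 h2 h3 hs =>
    ⟨h1, h2, h3, hcon _ hs (card_eq_three.2 ⟨x, y, z, h1, h3, h2, rfl⟩)⟩
  refine h a b d e (key _ _ _ a1 n1 a2 ?_) (key _ _ _ a1 n2 a3 ?_) (key _ _ _ a2 n3 a3 ?_)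
    (key _ _ _ n1 n3 n2 ?_)
  all_goals
    intro x hx
    simp only [mem_insert, mem_singleton] at hx ⊢
    tauto

theorem cln_free (hH : ∀ e ∈ H, e.card = 3) (hK : Turan34.K43Free H) (v : Fin n) (m : ℕ) :
    Turan34.K43Free (cln v m H) := by
  refine free_of_rel fun x y z w h1 h2 h3 h4 => ?_
  rw [rel_cln hH] at h1 h2 h3 h4
  exact (rel_sys (fun _ => 0) H hK).k4 _ _ _ _ h1 h2 h3 h4

theorem tot_cln (hH : ∀ e ∈ H, e.card = 3) (hK : Turan34.K43Free H) (v : Fin n) (m : ℕ) :
    tot (Loc.Rel H) + 3 * (m * deg (Loc.Rel H) v) ≤ tot (Loc.Rel (cln v m H)) := by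
  have S := rel_sys (fun _ => 0) H hK
  have e0 : tot (Loc.Rel (cln v m H)) = ∑ x, ∑ y, ∑ z,
      ind (Loc.Rel H (pr v m x) (pr v m y) (pr v m z)) :=
    sum_congr rfl fun x _ => sum_congr rfl fun y _ => sum_congr rfl fun z _ =>
      ind_congr (rel_cln hH v m x y z)
  have h1 : ∀ a b, ∑ z, ind (Loc.Rel H a b (pr v m z)) =
      ∑ z, ind (Loc.Rel H a b z) + m * ind (Loc.Rel H a b v) := fun a b =>
    sum_pr v m fun z => ind (Loc.Rel H a b z)
  have h2 : ∀ a, ∑ y, ∑ z, ind (Loc.Rel H a (pr v m y) (pr v m z)) =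
      ∑ b, (∑ z, ind (Loc.Rel H a b z) + m * ind (Loc.Rel H a b v)) +
      m * (∑ z, ind (Loc.Rel H a v z) + m * ind (Loc.Rel H a v v)) := fun a => by
    rw [← sum_pr v m fun b => ∑ z, ind (Loc.Rel H a b z) + m * ind (Loc.Rel H a b v)]
    exact sum_congr rfl fun y _ => h1 _ _
  have h3 : tot (Loc.Rel (cln v m H)) = ∑ a,
      (∑ b, (∑ z, ind (Loc.Rel H a b z) + m * ind (Loc.Rel H a b v)) +
        m * (∑ z, ind (Loc.Rel H a v z) + m * ind (Loc.Rel H a v v))) +
      m * (∑ b, (∑ z, ind (Loc.Rel H v b z) + m * ind (Loc.Rel H v b v)) +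
        m * (∑ z, ind (Loc.Rel H v v z) + m * ind (Loc.Rel H v v v))) := by
    rw [e0, ← sum_pr v m fun a => ∑ b, (∑ z, ind (Loc.Rel H a b z) + m * ind (Loc.Rel H a b v)) +
        m * (∑ z, ind (Loc.Rel H a v z) + m * ind (Loc.Rel H a v v))]
    exact sum_congr rfl fun x _ => h2 _
  rw [h3]
  simp only [sum_add_distrib, mul_add, ← mul_sum]
  have hm : (0 : ℝ) ≤ m := Nat.cast_nonneg m
  have t1 : ∑ a, ∑ b, ind (Loc.Rel H a b v) = deg (Loc.Rel H) v :=
    sum_congr rfl fun a _ => sum_congr rfl fun b _ => ind_congr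
      ⟨fun h => S.s3 h, fun h => S.s3 (S.s3 h)⟩
  have t2 : ∑ a, ∑ z, ind (Loc.Rel H a v z) = deg (Loc.Rel H) v :=
    sum_congr rfl fun a _ => sum_congr rfl fun b _ => ind_congr
      ⟨fun h => S.s1 _ _ _ h, fun h => S.s1 _ _ _ h⟩
  have t3 : ∑ b, ∑ z, ind (Loc.Rel H v b z) = deg (Loc.Rel H) v := rfl
  have t4 : 0 ≤ ∑ a, ind (Loc.Rel H a v v) := Finset.sum_nonneg fun _ _ => ind_nonneg _
  have t5 : 0 ≤ ∑ b, ind (Loc.Rel H v b v) := Finset.sum_nonneg fun _ _ => ind_nonneg _
  have t6 : 0 ≤ ∑ z, ind (Loc.Rel H v v z) := Finset.sum_nonneg fun _ _ => ind_nonneg _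
  have t7 := ind_nonneg (Loc.Rel H v v v)
  have e1 : tot (Loc.Rel H) = ∑ a, ∑ b, ∑ z, ind (Loc.Rel H a b z) := rfl
  rw [t1, t2, t3, e1]
  have p1 := mul_nonneg hm (mul_nonneg hm t4)
  have p2 := mul_nonneg hm (mul_nonneg hm t5)
  have p3 := mul_nonneg hm (mul_nonneg hm t6)
  have p4 := mul_nonneg hm (mul_nonneg hm (mul_nonneg hm t7))
  linarith

/-- the distance in terms of ordered triples -/
theorem WD_card {k : ℕ} {K : Finset (Finset (Fin k))} (hH : ∀ e ∈ K, e.card = 3)
    (g : Fin k → Fin 3) :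
    WD g (Loc.Rel K) = 6 * ((symmDiff K (Turan34.turan g)).card : ℝ) := by
  rw [turan_tgraph]
  have hD3 : ∀ e ∈ symmDiff K (tgraph g), e.card = 3 := by
    intro e he
    rw [mem_symmDiff] at he
    rcases he with he | he
    · exact hH e he.1
    · have := he.1
      unfold tgraph at this
      exact (mem_filter.mp this).2.1
  rw [WD_wr]
  have e1 : ∀ v, wr g (Loc.Rel K) v = ∑ y, ∑ z, ind (Loc.Rel (symmDiff K (tgraph g)) v y z) := by
    intro v
    rw [wr_count g K hH v, vertex_count _ hD3 v]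
  rw [sum_congr rfl fun v _ => e1 v]
  exact total_count _ hD3

theorem rot_fd : ∀ a b d s : Fin 3, fdB (a + s) (b + s) (d + s) false false false false false false =
    fdB a b d false false false false false false := by decide

/-- the wrong pairs at `v` in terms of those at a copy of `v` -/
theorem wr_cln (hH : ∀ e ∈ H, e.card = 3) (hK : Turan34.K43Free H) (v : Fin n) (m : ℕ)
    (g : Fin n → Fin 3) (g' : Fin (n + m) → Fin 3) (j : Fin m) (s : Fin 3) :
    wr (Function.update g v (g' (Fin.natAdd n j) - s)) (Loc.Rel H) v ≤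
      wr g' (Loc.Rel (cln v m H)) (Fin.natAdd n j) +
        2 * (n * ∑ x, ind (g' (Fin.castAdd m x) ≠ g x + s)) := by
  have S := rel_sys (fun _ => 0) H hK
  have hn : ∑ _x : Fin n, (1 : ℝ) = (n : ℝ) := by simp
  have h1 : ∀ y z, ind (¬ (Loc.Rel H v y z ↔
      Tu (Function.update g v (g' (Fin.natAdd n j) - s)) v y z)) ≤
      ind (¬ (Loc.Rel (cln v m H) (Fin.natAdd n j) (Fin.castAdd m y) (Fin.castAdd m z) ↔
        Tu g' (Fin.natAdd n j) (Fin.castAdd m y) (Fin.castAdd m z))) +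
      ind (g' (Fin.castAdd m y) ≠ g y + s) + ind (g' (Fin.castAdd m z) ≠ g z + s) := by
    intro y z
    refine ind_or3 fun h => ?_
    by_contra hcon
    push Not at hcon
    obtain ⟨h2, h3, h4⟩ := hcon
    rw [rel_cln hH, pr_r, pr_l, pr_l] at h2
    apply h
    by_cases g1 : v = y
    · exact ⟨fun h' => absurd g1 h'.1, fun h' => absurd g1 h'.1⟩
    by_cases g2 : y = z
    · exact ⟨fun h' => absurd g2 h'.2.1, fun h' => absurd g2 h'.2.1⟩
    by_cases g3 : v = z
    · exact ⟨fun h' => absurd g3 h'.2.2.1, fun h' => absurd g3 h'.2.2.1⟩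
    rw [h2, tu_tl g1 g2 g3, tu_tl (c := g')]
    · rw [Function.update_self, Function.update_of_ne (Ne.symm g1),
        Function.update_of_ne (Ne.symm g3), h3, h4]
      have e := rot_fd (g' (Fin.natAdd n j) - s) (g y) (g z) s
      rw [sub_add_cancel] at e
      unfold tl
      rw [e]
    · intro e
      have := congrArg Fin.val e
      simp only [Fin.val_natAdd, Fin.val_castAdd] at this
      omega
    · intro e
      exact g2 (Fin.castAdd_injective n m e)
    · intro e
      have := congrArg Fin.val e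
      simp only [Fin.val_natAdd, Fin.val_castAdd] at this
      omega
  have h2 : wr (Function.update g v (g' (Fin.natAdd n j) - s)) (Loc.Rel H) v ≤ _ :=
    sum_le_sum fun y (_ : y ∈ univ) => sum_le_sum fun z (_ : z ∈ univ) => h1 y z
  simp only [sum_add_distrib] at h2
  have e1 : ∑ y : Fin n, ∑ _z : Fin n, ind (g' (Fin.castAdd m y) ≠ g y + s) =
      n * ∑ x, ind (g' (Fin.castAdd m x) ≠ g x + s) := by
    simp only [csum hn, ← mul_sum]
  have e2 : ∑ _y : Fin n, ∑ z : Fin n, ind (g' (Fin.castAdd m z) ≠ g z + s) =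
      n * ∑ x, ind (g' (Fin.castAdd m x) ≠ g x + s) := by
    simp only [csum hn]
  rw [e1, e2] at h2
  have h3 : ∑ y, ∑ z, ind (¬ (Loc.Rel (cln v m H) (Fin.natAdd n j) (Fin.castAdd m y)
      (Fin.castAdd m z) ↔ Tu g' (Fin.natAdd n j) (Fin.castAdd m y) (Fin.castAdd m z))) ≤
      wr g' (Loc.Rel (cln v m H)) (Fin.natAdd n j) := by
    unfold wr
    refine le_trans (sum_le_sum fun y _ => sum_l (f := fun z => ind (¬ (Loc.Rel (cln v m H)
      (Fin.natAdd n j) (Fin.castAdd m y) z ↔ Tu g' (Fin.natAdd n j) (Fin.castAdd m y) z)))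
        fun z => ind_nonneg _) ?_
    exact sum_l (f := fun y => ∑ z, ind (¬ (Loc.Rel (cln v m H) (Fin.natAdd n j) y z ↔
      Tu g' (Fin.natAdd n j) y z))) fun y => Finset.sum_nonneg fun z _ => ind_nonneg _
  linarith

/-- the two divisions -/
theorem TD_cln (hH : ∀ e ∈ H, e.card = 3) (v : Fin n) (m : ℕ)
    (g : Fin n → Fin 3) (g' : Fin (n + m) → Fin 3) :
    TD g (fun x => g' (Fin.castAdd m x)) ≤ WD g (Loc.Rel H) + WD g' (Loc.Rel (cln v m H)) := by
  have h1 : ∀ x y z, ind (¬ (Tu g x y z ↔ Tu (fun x => g' (Fin.castAdd m x)) x y z)) ≤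
      ind (Df g (Loc.Rel H) x y z) + ind (Df g' (Loc.Rel (cln v m H)) (Fin.castAdd m x)
        (Fin.castAdd m y) (Fin.castAdd m z)) := by
    intro x y z
    refine ind_or fun h => ?_
    by_contra hcon
    push Not at hcon
    obtain ⟨h2, h3⟩ := hcon
    unfold Df at h2 h3
    push Not at h2 h3
    rw [rel_cln hH, pr_l, pr_l, pr_l] at h3
    apply h
    rw [← h2, h3]
    unfold Tu FD
    have inj : ∀ a b : Fin n, Fin.castAdd m a ≠ Fin.castAdd m b ↔ a ≠ b := fun a b =>
      ⟨fun h e => h (by rw [e]), fun h e => h (Fin.castAdd_injective n m e)⟩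
    rw [inj, inj, inj]
  unfold TD WD
  refine (sum_le_sum fun x _ => sum_le_sum fun y _ => sum_le_sum fun z _ => h1 x y z).trans ?_
  simp only [sum_add_distrib]
  refine add_le_add le_rfl ?_
  refine le_trans (sum_le_sum fun x _ => sum_le_sum fun y _ => sum_l fun z => ind_nonneg _) ?_
  refine le_trans (sum_le_sum fun x _ => sum_l (f := fun y => ∑ z, ind (Df g'
    (Loc.Rel (cln v m H)) (Fin.castAdd m x) y z)) fun y => Finset.sum_nonneg fun z _ =>
      ind_nonneg _) ?_
  exact sum_l (f := fun x => ∑ y, ∑ z, ind (Df g' (Loc.Rel (cln v m H)) x y z)) fun x =>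
    Finset.sum_nonneg fun y _ => Finset.sum_nonneg fun z _ => ind_nonneg _

end

end Pool.Agent.R573.CL
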