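import Pool.Agent.Y903.TX.Core

/-! Two divisions into three classes with similar Turán constructions differ by a rotation, except
for few vertices. -/

set_option autoImplicit false
set_option linter.unusedVariables false
set_option linter.unusedSectionVars false

open Finset
open scoped Classical

namespace Pool.Agent.R573.CL
open Pool.Agent.Y439.Loc hiding sum_nonneg'
open Pool.Agent.Y903.TX

section
variable {V : Type} [Fintype V] {c d : V → Fin 3} {n κ : ℝ}

/-- the vertices in class `i` of `c` and class `j` of `d` -/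
noncomputable def pp (c d : V → Fin 3) (i j : Fin 3) : ℝ := ∑ x, ind (c x = i ∧ d x = j)

/-- the differences of the two constructions -/
noncomputable def TD (c d : V → Fin 3) : ℝ := ∑ x, ∑ y, ∑ z, ind (¬ (Tu c x y z ↔ Tu d x y z))

theorem pp_nonneg (i j : Fin 3) : 0 ≤ pp c d i j := sum_nonneg' fun _ => ind_nonneg _

theorem pp_sum (i j : Fin 3) : sz c i = pp c d i j + pp c d i (j + 1) + pp c d i (j + 2) := by
  unfold sz pp
  rw [← sum_add_distrib, ← sum_add_distrib]
  refine sum_congr rfl fun x _ => ?_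
  have h3 : d x = j ∨ d x = j + 1 ∨ d x = j + 2 := by
    generalize d x = a
    revert a j; decide
  have n1 := fin3_ne1 j
  have n2 := fin3_ne2 j
  have n3 := fin3_ne12 j
  by_cases hc : c x = i
  · rcases h3 with h | h | h
    · rw [ind_t hc, ind_t ⟨hc, h⟩, ind_f fun h' => n1 (h.symm.trans h'.2),
        ind_f fun h' => n2 (h.symm.trans h'.2)]
      ring
    · rw [ind_t hc, ind_t (p := c x = i ∧ d x = j + 1) ⟨hc, h⟩,
        ind_f fun h' => n1 (h'.2.symm.trans h),
        ind_f fun h' => n3 (h.symm.trans h'.2)]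
      ring
    · rw [ind_t hc, ind_t (p := c x = i ∧ d x = j + 2) ⟨hc, h⟩,
        ind_f fun h' => n2 (h'.2.symm.trans h),
        ind_f fun h' => n3 (h'.2.symm.trans h)]
      ring
  · rw [ind_f hc, ind_f fun h => hc h.1, ind_f fun h => hc h.1, ind_f fun h => hc h.1]
    ring

/-- three sets such that all triples of different vertices are treated differently -/
theorem cube (hn : ∑ _x : V, (1 : ℝ) = n) {i j i' j' : Fin 3}
    (h : ∀ x y z : V, (c x = i ∧ d x = j) → (c y = i ∧ d y = j) → (c z = i' ∧ d z = j') →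
      x ≠ y → ¬ (Tu c x y z ↔ Tu d x y z)) :
    pp c d i j * (pp c d i j * pp c d i' j') ≤ TD c d + n * n := by
  unfold pp TD
  rw [sum_mul_sum, sum_mul]
  have h1 : ∀ x y z : V, ind (c x = i ∧ d x = j) * (ind (c y = i ∧ d y = j) *
      ind (c z = i' ∧ d z = j')) ≤ ind (¬ (Tu c x y z ↔ Tu d x y z)) + ind (x = y) := by
    intro x y z
    rw [ind_mul, ind_mul]
    refine ind_or fun h' => ?_
    by_cases hxy : x = y
    · exact Or.inr hxy
    · exact Or.inl (h x y z h'.1 h'.2.1 h'.2.2 hxy)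
  have e : n * n = ∑ x : V, ∑ y : V, ∑ _z : V, ind (x = y) := by
    simp only [csum hn, ← mul_sum, sum_ind_eq', mul_one]
  rw [e, ← sum_add_distrib]
  refine sum_le_sum fun x _ => ?_
  rw [mul_sum, ← sum_add_distrib]
  refine sum_le_sum fun y _ => ?_
  rw [mul_sum, ← sum_add_distrib]
  exact sum_le_sum fun z _ => h1 x y z

theorem cmp_mono (hn : ∑ _x : V, (1 : ℝ) = n) (i j : Fin 3) :
    pp c d i j * (pp c d i j * pp c d i (j + 1)) ≤ TD c d + n * n := by
  refine cube hn ?_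
  rintro x y z ⟨h1, h2⟩ ⟨h3, h4⟩ ⟨h5, h6⟩ hxy h
  have t1 : ¬ Tu c x y z := tu_mono (by rw [h3, h1]) (by rw [h5, h1])
  have t2 : Tu d x y z := tu_two (by rw [h4, h2]) (by rw [h6, h2]) hxy
  exact t1 (h.2 t2)

theorem cmp_next (hn : ∑ _x : V, (1 : ℝ) = n) (i j j' : Fin 3) (hj : j' ≠ j + 1) :
    pp c d i j * (pp c d i j * pp c d (i + 1) j') ≤ TD c d + n * n := by
  refine cube hn ?_
  rintro x y z ⟨h1, h2⟩ ⟨h3, h4⟩ ⟨h5, h6⟩ hxy h
  have t1 : Tu c x y z := tu_two (by rw [h3, h1]) (by rw [h5, h1]) hxy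
  have t2 : ¬ Tu d x y z := by
    have h7 : ∀ a b : Fin 3, b ≠ a + 1 → b = a ∨ b = a + 2 := by decide
    rcases h7 _ _ hj with h7 | h7
    · exact tu_mono (by rw [h4, h2]) (by rw [h6, h2, h7])
    · exact tu_not' (by rw [h4, h2]) (by rw [h6, h2, h7])
  exact t2 (h.1 t1)

/-- each class of `c` is almost contained in a class of `d` -/
theorem cmp_big (hn : ∑ _x : V, (1 : ℝ) = n) (hp : 0 < n) (hκ0 : 0 < κ) (hκ : κ ≤ 1 / 100)
    (hlo : ∀ k, n / 4 ≤ sz c k) (hT : TD c d + n * n ≤ κ ^ 3 * n ^ 3) (i : Fin 3) :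
    ∃ j, pp c d i (j + 1) ≤ κ * n ∧ pp c d i (j + 2) ≤ κ * n := by
  obtain ⟨j, hj⟩ : ∃ j, n / 12 ≤ pp c d i j := by
    by_contra hcon
    push Not at hcon
    have h := pp_sum (c := c) (d := d) i 0
    have := hlo i
    have := hcon 0
    have := hcon (0 + 1)
    have := hcon (0 + 2)
    linarith
  refine ⟨j, ?_, ?_⟩
  · have h1 := (cmp_mono (c := c) (d := d) hn i j).trans hT
    have h0 := pp_nonneg (c := c) (d := d) i (j + 1)
    have h2 : n / 12 * (n / 12 * pp c d i (j + 1)) ≤ κ ^ 3 * n ^ 3 :=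
      (mul_le_mul hj (mul_le_mul_of_nonneg_right hj h0) (by positivity)
        (pp_nonneg _ _)).trans h1
    have h3 : κ ^ 3 ≤ κ / 144 := by nlinarith [mul_pos hκ0 hκ0]
    have h4 : κ ^ 3 * n ^ 3 ≤ κ / 144 * n ^ 3 := mul_le_mul_of_nonneg_right h3 (by positivity)
    have h5 : n ^ 2 / 144 * pp c d i (j + 1) ≤ n ^ 2 / 144 * (κ * n) := by nlinarith
    exact le_of_mul_le_mul_left h5 (by positivity)
  · have h1 := (cmp_mono (c := c) (d := d) hn i (j + 2)).trans hT
    rw [fin3_21 j] at h1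
    have h0 := pp_nonneg (c := c) (d := d) i (j + 2)
    by_contra hcon
    push Not at hcon
    have h2 : κ * n * (κ * n * (n / 12)) ≤ κ ^ 3 * n ^ 3 :=
      (mul_le_mul hcon.le (mul_le_mul hcon.le hj (by positivity) h0) (by positivity)
        h0).trans h1
    have h3 : κ * n * (κ * n * (n / 12)) = κ ^ 2 / 12 * n ^ 3 := by ring
    rw [h3] at h2
    have h4 := le_of_mul_le_mul_right h2 (by positivity)
    nlinarith [mul_pos hκ0 hκ0]

/-- **The comparison.** -/
theorem cmp (hn : ∑ _x : V, (1 : ℝ) = n) (hp : 0 < n) (hκ0 : 0 < κ) (hκ : κ ≤ 1 / 100)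
    (hlo : ∀ k, n / 4 ≤ sz c k) (hT : TD c d + n * n ≤ κ ^ 3 * n ^ 3) :
    ∃ s : Fin 3, ∑ x, ind (d x ≠ c x + s) ≤ 6 * κ * n := by
  choose J hJ1 hJ2 using cmp_big hn hp hκ0 hκ hlo hT
  have hbig : ∀ i, n / 5 ≤ pp c d i (J i) := by
    intro i
    have h1 := pp_sum (c := c) (d := d) i (J i)
    have h2 := hJ1 i
    have h3 := hJ2 i
    have h4 := hlo i
    have h5 : κ * n ≤ 1 / 100 * n := mul_le_mul_of_nonneg_right hκ hp.le
    linarith
  have hnext : ∀ i, J (i + 1) = J i + 1 := by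
    intro i
    by_contra hcon
    have h1 := (cmp_next (c := c) (d := d) hn i (J i) (J (i + 1)) hcon).trans hT
    have h2 : n / 5 * (n / 5 * (n / 5)) ≤ κ ^ 3 * n ^ 3 :=
      (mul_le_mul (hbig i) (mul_le_mul (hbig i) (hbig (i + 1)) (by positivity)
        (pp_nonneg _ _)) (by positivity) (pp_nonneg _ _)).trans h1
    have h3 : n / 5 * (n / 5 * (n / 5)) = 1 / 125 * n ^ 3 := by ring
    rw [h3] at h2
    have h4 := le_of_mul_le_mul_right h2 (by positivity)
    have h5 : κ ^ 3 ≤ (1 / 100) ^ 3 := pow_le_pow_left₀ hκ0.le hκ 3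
    norm_num at h5
    linarith
  have hJ : ∀ i, J i = i + J 0 := by
    intro i
    have h0 := hnext 0
    have h1 := hnext 1
    fin_cases i
    · show J 0 = 0 + J 0
      rw [zero_add]
    · show J 1 = 1 + J 0
      rw [show (1 : Fin 3) = 0 + 1 from rfl, h0, add_comm]
      rfl
    · show J 2 = 2 + J 0
      rw [show (2 : Fin 3) = 1 + 1 from rfl, h1, show (1 : Fin 3) = 0 + 1 from rfl, h0]
      generalize J 0 = a
      revert a; decide
  refine ⟨J 0, ?_⟩
  have key : ∀ x : V, ind (d x ≠ c x + J 0) ≤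
      ∑ i : Fin 3, (ind (c x = i ∧ d x = J i + 1) + ind (c x = i ∧ d x = J i + 2)) := by
    intro x
    refine le_trans ?_ (single_le_sum (f := fun i : Fin 3 =>
      ind (c x = i ∧ d x = J i + 1) + ind (c x = i ∧ d x = J i + 2))
      (fun i _ => add_nonneg (ind_nonneg _) (ind_nonneg _)) (mem_univ (c x)))
    refine ind_or fun h => ?_
    rw [← hJ (c x)] at h
    have h7 : ∀ a b : Fin 3, a ≠ b → a = b + 1 ∨ a = b + 2 := by decide
    rcases h7 _ _ h with h | h
    · exact Or.inl ⟨rfl, h⟩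
    · exact Or.inr ⟨rfl, h⟩
  refine (sum_le_sum fun x _ => key x).trans ?_
  rw [sum_comm]
  have h8 : ∀ i : Fin 3, ∑ x, (ind (c x = i ∧ d x = J i + 1) + ind (c x = i ∧ d x = J i + 2)) ≤
      2 * κ * n := by
    intro i
    rw [sum_add_distrib]
    have h1 := hJ1 i
    have h2 := hJ2 i
    unfold pp at h1 h2
    linarith
  refine (sum_le_sum fun i _ => h8 i).trans (le_of_eq ?_)
  rw [Fin.sum_univ_three]
  ring

end

end Pool.Agent.R573.CL
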