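import Pool.Agent.Y903.TX.Core

/-! 3-graphs all of whose links are near those of Turán's construction, and which contain no induced
path on four vertices (no induced disjoint union of a triangle and an edge) in their links. -/

set_option autoImplicit false
set_option linter.unusedVariables false
set_option linter.unusedSectionVars false

open Finset
open scoped Classical

namespace Pool.Agent.R573.CL
open Pool.Agent.Y439.Loc hiding sum_nonneg'
open Pool.Agent.Y903.TX

/-- no induced path on four vertices in a link -/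
def NP4 {V : Type} (H : V → V → V → Prop) : Prop :=
  ∀ v a b d e, H v a b → H v b d → H v d e → ¬ H v a d → ¬ H v a e → ¬ H v b e → False

/-- no induced disjoint union of a triangle and an edge in a link -/
def NTE {V : Type} (H : V → V → V → Prop) : Prop :=
  ∀ v a b d e f, H v a b → H v a d → H v b d → H v e f → ¬ H v e a → ¬ H v e b → ¬ H v e d →
    ¬ H v f a → ¬ H v f b → ¬ H v f d → False

theorem ind_orL {p : Prop} : ∀ (L : List Prop), (p → ∃ q ∈ L, q) → ind p ≤ (L.map ind).sum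
  | [], h => by
    rw [ind_f fun hp => by obtain ⟨q, hq, -⟩ := h hp; simp at hq]
    simp
  | q :: L, h => by
    rw [List.map_cons, List.sum_cons]
    by_cases hq : q
    · have h0 : 0 ≤ (L.map ind).sum := List.sum_nonneg fun a ha => by
        obtain ⟨r, -, rfl⟩ := List.mem_map.1 ha
        exact ind_nonneg _
      rw [ind_t hq]
      linarith [ind_le_one p]
    · rw [ind_f hq, zero_add]
      refine ind_orL L fun hp => ?_
      obtain ⟨r, hr, hr'⟩ := h hp
      rcases List.mem_cons.1 hr with rfl | hr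
      · exact absurd hr' hq
      · exact ⟨r, hr, hr'⟩

variable {V : Type} [Fintype V] {c : V → Fin 3} {H : V → V → V → Prop} {n σ : ℝ}

theorem u12 (hn : ∑ _x : V, (1 : ℝ) = n) (F : V → V → ℝ) :
    ∑ a, ∑ b, ∑ _d : V, F a b = n * ∑ a, ∑ b, F a b := by
  simp only [csum hn, ← mul_sum]
theorem u13 (hn : ∑ _x : V, (1 : ℝ) = n) (F : V → V → ℝ) :
    ∑ a, ∑ _b : V, ∑ d, F a d = n * ∑ a, ∑ b, F a b := by
  simp only [csum hn, ← mul_sum]
theorem u23 (hn : ∑ _x : V, (1 : ℝ) = n) (F : V → V → ℝ) :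
    ∑ _a : V, ∑ b, ∑ d, F b d = n * ∑ a, ∑ b, F a b := by
  simp only [csum hn, ← mul_sum]

theorem cub (A : Vx c H n σ) : n * n ≤ σ ^ 2 * n ^ 3 := by
  have h := mul_le_mul_of_nonneg_left (small_n A) A.pos.le
  calc n * n ≤ n * (σ ^ 2 * n ^ 2) := h
    _ = σ ^ 2 * n ^ 3 := by ring

theorem wr3 (A : Vx c H n σ) (x : V) : n * wr c H x ≤ σ ^ 2 * n ^ 3 := by
  have h := mul_le_mul_of_nonneg_left (A.hw x) A.pos.le
  calc n * wr c H x ≤ n * (σ ^ 2 * n ^ 2) := h
    _ = σ ^ 2 * n ^ 3 := by ring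

theorem WD3 (A : Vx c H n σ) : WD c H ≤ σ ^ 2 * n ^ 3 := by
  have : WD c H ≤ ∑ _z : V, σ ^ 2 * n ^ 2 := sum_le_sum fun z _ => A.hw z
  rw [csum A.hn] at this
  calc WD c H ≤ n * (σ ^ 2 * n ^ 2) := this
    _ = σ ^ 2 * n ^ 3 := by ring

/-- small inner codegrees -/
theorem innerP (A : Vx c H n sig0) (hP : NP4 H) (x y : V) : io c H x y ≤ n / 3000 := by
  have hp := A.pos
  have S := A.S
  by_cases hxy : x = y
  · rw [← hxy, io_self A.S]; positivity
  by_cases hcy : c y = c x
  swap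
  · have : io c H x y = 0 := sum_eq_zero fun z _ => ind_f fun h => hcy h.1.1
    rw [this]; positivity
  have hio : 0 ≤ io c H x y := sum_nonneg' fun _ => ind_nonneg _
  have hs1 := size_prev A (show sig0 ≤ 1 / 100 by unfold sig0; norm_num) (c x + 1)
  have hs2 := size_prev A (show sig0 ≤ 1 / 100 by unfold sig0; norm_num) (c x + 2)
  have h0 : io c H x y * (n / 4 * (n / 4)) ≤ io c H x y * (sz c (c x + 1) * sz c (c x + 2)) :=
    mul_le_mul_of_nonneg_left (mul_le_mul hs1 hs2 (by positivity) (sz_nonneg _)) hio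
  have e0 : io c H x y * (sz c (c x + 1) * sz c (c x + 2)) =
      ∑ u, ∑ w, ∑ t, ind ((c y = c x ∧ c u = c x) ∧ H x y u) * (ind (c w = c x + 1) *
        ind (c t = c x + 2)) := by
    unfold io sz
    rw [sum_mul_sum, sum_mul]
    refine sum_congr rfl fun z _ => ?_
    rw [mul_sum]
    refine sum_congr rfl fun w _ => ?_
    rw [mul_sum]
  have h1 : ∀ u w t, ind ((c y = c x ∧ c u = c x) ∧ H x y u) * (ind (c w = c x + 1) *
        ind (c t = c x + 2)) ≤ ([Df c H x u w, Df c H y u w, Df c H x w t, Df c H x u t,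
          (c t = c x + 2 ∧ H x y t)].map ind).sum := by
    intro u w t
    rw [ind_mul, ind_mul]
    refine ind_orL _ ?_
    rintro ⟨⟨⟨-, hu⟩, hxyu⟩, hw, ht⟩
    by_contra hcon
    push Not at hcon
    have g1 : ¬ Df c H x u w := hcon _ (by simp)
    have g2 : ¬ Df c H y u w := hcon _ (by simp)
    have g3 : ¬ Df c H x w t := hcon _ (by simp)
    have g4 : ¬ Df c H x u t := hcon _ (by simp)
    have g5 : ¬ (c t = c x + 2 ∧ H x y t) := hcon _ (by simp)
    have k1 : H x u w := not_df_pos g1 (tu_two hu hw (S.ne13 hxyu))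
    have k2 : H y u w := not_df_pos g2 (tu_two (by rw [hu, hcy]) (by rw [hw, hcy]) (S.ne23 hxyu))
    have k3 : H x w t := not_df_pos g3 (tu_three hw ht)
    have k4 : ¬ H x u t := not_df_neg g4 (tu_not' hu ht)
    by_cases k5 : H x y w
    · exact S.k4 x y u w hxyu k5 k1 k2
    · exact hP x y u w t hxyu k1 k3 k5 (fun h => g5 ⟨ht, h⟩) k4
  have h2 := sum_le_sum fun u (_ : u ∈ (univ : Finset V)) =>
    sum_le_sum fun w (_ : w ∈ (univ : Finset V)) =>
      sum_le_sum fun t (_ : t ∈ (univ : Finset V)) => h1 u w t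
  rw [← e0] at h2
  simp only [List.map_cons, List.map_nil, List.sum_cons, List.sum_nil, add_zero,
    sum_add_distrib] at h2
  have e1 : ∑ u, ∑ w, ∑ _t : V, ind (Df c H x u w) = n * wr c H x := u12 A.hn _
  have e2 : ∑ u, ∑ w, ∑ _t : V, ind (Df c H y u w) = n * wr c H y := u12 A.hn _
  have e3 : ∑ _u : V, ∑ w, ∑ t, ind (Df c H x w t) = n * wr c H x := u23 A.hn _
  have e4 : ∑ u, ∑ _w : V, ∑ t, ind (Df c H x u t) = n * wr c H x := u13 A.hn _
  have e5 : ∑ _u : V, ∑ _w : V, ∑ t, ind (c t = c x + 2 ∧ H x y t) = n * (n * Mp c H x y) := by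
    rw [csum A.hn, csum A.hn]; rfl
  rw [e1, e2, e3, e4, e5] at h2
  have m1 := wr3 A x
  have m2 := wr3 A y
  have m3 : n * (n * Mp c H x y) ≤ n * (n * (2 * sig0 * n)) :=
    mul_le_mul_of_nonneg_left (mul_le_mul_of_nonneg_left
      (Mp_le A sig0_pos x y hcy) hp.le) hp.le
  have h3 : io c H x y * (n / 4 * (n / 4)) ≤ (4 * sig0 ^ 2 + 2 * sig0) * n ^ 3 := by
    have : n * (n * (2 * sig0 * n)) = 2 * sig0 * n ^ 3 := by ring
    linarith
  have h4 : (4 * sig0 ^ 2 + 2 * sig0) * n ^ 3 ≤ n / 3000 * (n / 4 * (n / 4)) := by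
    have : (4 * sig0 ^ 2 + 2 * sig0) ≤ 1 / 48000 := by unfold sig0; norm_num
    calc (4 * sig0 ^ 2 + 2 * sig0) * n ^ 3 ≤ 1 / 48000 * n ^ 3 :=
        mul_le_mul_of_nonneg_right this (by positivity)
      _ = n / 3000 * (n / 4 * (n / 4)) := by ring
  exact le_of_mul_le_mul_right (h3.trans h4) (by positivity)

/-- pairs in two classes: most vertices of the third class form an edge with them -/
theorem nuP (A : Vx c H n sig0) (hP : NP4 H) (x y : V) (hcy : c y = c x + 1) :
    nu c H x y ≤ n / 100 := by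
  have hp := A.pos
  have S := A.S
  have hnu : 0 ≤ nu c H x y := sum_nonneg' fun _ => ind_nonneg _
  have hs1 := size_prev A (show sig0 ≤ 1 / 100 by unfold sig0; norm_num) (c x)
  have hs2 := size_prev A (show sig0 ≤ 1 / 100 by unfold sig0; norm_num) (c x + 2)
  have h0 : nu c H x y * (n / 4 * (n / 4)) ≤ nu c H x y * (sz c (c x) * sz c (c x + 2)) :=
    mul_le_mul_of_nonneg_left (mul_le_mul hs1 hs2 (by positivity) (sz_nonneg _)) hnu
  have e0 : nu c H x y * (sz c (c x) * sz c (c x + 2)) =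
      ∑ w, ∑ u, ∑ t, ind (c w = c x + 2 ∧ ¬ H x y w) * (ind (c u = c x) *
        ind (c t = c x + 2)) := by
    unfold nu sz
    rw [sum_mul_sum, sum_mul]
    refine sum_congr rfl fun z _ => ?_
    rw [mul_sum]
    refine sum_congr rfl fun w _ => ?_
    rw [mul_sum]
  have h1 : ∀ w u t, ind (c w = c x + 2 ∧ ¬ H x y w) * (ind (c u = c x) *
        ind (c t = c x + 2)) ≤ ([Df c H y w u, Df c H w t u, w = t, Df c H x w t, Df c H y w t,
          Df c H x u w].map ind).sum := by
    intro w u t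
    rw [ind_mul, ind_mul]
    refine ind_orL _ ?_
    rintro ⟨⟨hw, hxyw⟩, hu, ht⟩
    by_contra hcon
    push Not at hcon
    have g1 : ¬ Df c H y w u := hcon _ (by simp)
    have g2 : ¬ Df c H w t u := hcon _ (by simp)
    have g3 : ¬ (w = t) := hcon _ (by simp)
    have g4 : ¬ Df c H x w t := hcon _ (by simp)
    have g5 : ¬ Df c H y w t := hcon _ (by simp)
    have g6 : ¬ Df c H x u w := hcon _ (by simp)
    have k1 : H y w u := not_df_pos g1 (tu_three (by rw [hw, hcy, fin3_11])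
      (by rw [hu, hcy, fin3_12]))
    have k2 : H w t u := not_df_pos g2 (tu_two (by rw [hw, ht]) (by rw [hw, hu, fin3_21]) g3)
    have k3 : H x w t := not_df_pos g4 (tu_pre hw ht g3)
    have k4 : ¬ H y w t := not_df_neg g5 (tu_not (by rw [hw, hcy, fin3_11])
      (by rw [ht, hcy, fin3_11]))
    have k5 : ¬ H x u w := not_df_neg g6 (tu_not' hu hw)
    -- the path `y u t x` in the link of `w`
    exact hP w y u t x (S.s1 _ _ _ k1) (S.s2 _ _ _ k2) (S.s2 _ _ _ (S.s1 _ _ _ k3))
      (fun h => k4 (S.s1 _ _ _ h)) (fun h => hxyw (S.s1 _ _ _ (S.s2 _ _ _ (S.s1 _ _ _ h))))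
      (fun h => k5 (S.s1 _ _ _ (S.s2 _ _ _ (S.s1 _ _ _ h))))
  have h2 := sum_le_sum fun u (_ : u ∈ (univ : Finset V)) =>
    sum_le_sum fun w (_ : w ∈ (univ : Finset V)) =>
      sum_le_sum fun t (_ : t ∈ (univ : Finset V)) => h1 u w t
  rw [← e0] at h2
  simp only [List.map_cons, List.map_nil, List.sum_cons, List.sum_nil, add_zero,
    sum_add_distrib] at h2
  have e1 : ∑ w, ∑ u, ∑ _t : V, ind (Df c H y w u) = n * wr c H y := u12 A.hn _
  have e2 : ∑ w, ∑ u, ∑ t, ind (Df c H w t u) = WD c H := by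
    unfold WD
    exact sum_congr rfl fun w _ => sum_comm
  have e3 : ∑ w : V, ∑ _u : V, ∑ t : V, ind (w = t) = n * n := by
    rw [u13 A.hn (fun w t => ind (w = t))]
    simp only [sum_ind_eq', A.hn]
  have e4 : ∑ w, ∑ _u : V, ∑ t, ind (Df c H x w t) = n * wr c H x := u13 A.hn _
  have e5 : ∑ w, ∑ _u : V, ∑ t, ind (Df c H y w t) = n * wr c H y := u13 A.hn _
  have e6 : ∑ w, ∑ u, ∑ _t : V, ind (Df c H x u w) = n * wr c H x := by
    rw [sum_comm]; exact u12 A.hn _
  rw [e1, e2, e3, e4, e5, e6] at h2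
  have m1 := wr3 A x
  have m2 := wr3 A y
  have m3 := WD3 A
  have m4 := cub A
  have h3 : nu c H x y * (n / 4 * (n / 4)) ≤ (6 * sig0 ^ 2) * n ^ 3 := by linarith
  have h4 : (6 * sig0 ^ 2) * n ^ 3 ≤ n / 100 * (n / 4 * (n / 4)) := by
    have : (6 * sig0 ^ 2) ≤ 1 / 1600 := by unfold sig0; norm_num
    calc (6 * sig0 ^ 2) * n ^ 3 ≤ 1 / 1600 * n ^ 3 :=
        mul_le_mul_of_nonneg_right this (by positivity)
      _ = n / 100 * (n / 4 * (n / 4)) := by ring
  exact le_of_mul_le_mul_right (h3.trans h4) (by positivity)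

/-- a triangle and an edge -/
theorem prodT (A : Vx c H n sig0) (hP : NTE H) (x y : V) :
    (∑ u, ind (c u = c x ∧ H x y u)) * (∑ t, ind (c t = c x + 2 ∧ ¬ H x y t)) ^ 3 ≤
      9 * sig0 ^ 2 * n ^ 4 := by
  have hp := A.pos
  have S := A.S
  have e0 : (∑ u, ind (c u = c x ∧ H x y u)) * (∑ t, ind (c t = c x + 2 ∧ ¬ H x y t)) ^ 3 =
      ∑ u, ∑ t, ∑ s, ∑ r, ind (c u = c x ∧ H x y u) * ind (c t = c x + 2 ∧ ¬ H x y t) *
        ind (c s = c x + 2 ∧ ¬ H x y s) * ind (c r = c x + 2 ∧ ¬ H x y r) := by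
    simp only [← mul_sum, ← sum_mul]
    ring
  have h1 : ∀ u t s r, ind (c u = c x ∧ H x y u) * ind (c t = c x + 2 ∧ ¬ H x y t) *
        ind (c s = c x + 2 ∧ ¬ H x y s) * ind (c r = c x + 2 ∧ ¬ H x y r) ≤
        ([Df c H x u t, Df c H x u s, Df c H x u r, t = s, t = r, s = r, Df c H x t s,
          Df c H x t r, Df c H x s r].map ind).sum := by
    intro u t s r
    rw [ind_mul, ind_mul, ind_mul]
    refine ind_orL _ ?_
    rintro ⟨⟨⟨⟨hu, hxyu⟩, ht, h1⟩, hs, h2⟩, hr, h3⟩
    by_contra hcon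
    push Not at hcon
    have g1 : ¬ Df c H x u t := hcon _ (by simp)
    have g2 : ¬ Df c H x u s := hcon _ (by simp)
    have g3 : ¬ Df c H x u r := hcon _ (by simp)
    have g4 : ¬ (t = s) := hcon _ (by simp)
    have g5 : ¬ (t = r) := hcon _ (by simp)
    have g6 : ¬ (s = r) := hcon _ (by simp)
    have g7 : ¬ Df c H x t s := hcon _ (by simp)
    have g8 : ¬ Df c H x t r := hcon _ (by simp)
    have g9 : ¬ Df c H x s r := hcon _ (by simp)
    exact hP x t s r y u (not_df_pos g7 (tu_pre ht hs g4)) (not_df_pos g8 (tu_pre ht hr g5))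
      (not_df_pos g9 (tu_pre hs hr g6)) hxyu h1 h2 h3 (not_df_neg g1 (tu_not' hu ht))
      (not_df_neg g2 (tu_not' hu hs)) (not_df_neg g3 (tu_not' hu hr))
  have h2 := sum_le_sum fun u (_ : u ∈ (univ : Finset V)) =>
    sum_le_sum fun w (_ : w ∈ (univ : Finset V)) =>
      sum_le_sum fun t (_ : t ∈ (univ : Finset V)) =>
        sum_le_sum fun s (_ : s ∈ (univ : Finset V)) => h1 u w t s
  rw [← e0] at h2
  simp only [List.map_cons, List.map_nil, List.sum_cons, List.sum_nil, add_zero,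
    sum_add_distrib] at h2
  rw [s12 A.hn (F := fun a b => ind (Df c H x a b)), s13 A.hn (F := fun a b => ind (Df c H x a b)),
    s14 A.hn (F := fun a b => ind (Df c H x a b)), s23 A.hn (F := fun a b => ind (a = b)),
    s24 A.hn (F := fun a b => ind (a = b)), s34 A.hn (F := fun a b => ind (a = b)),
    s23 A.hn (F := fun a b => ind (Df c H x a b)), s24 A.hn (F := fun a b => ind (Df c H x a b)),
    s34 A.hn (F := fun a b => ind (Df c H x a b))] at h2
  have e1 : ∑ a : V, ∑ b : V, ind (a = b) = n := by simp only [sum_ind_eq', A.hn]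
  have e2 : ∑ a, ∑ b, ind (Df c H x a b) = wr c H x := rfl
  rw [e1, e2] at h2
  have m1 : n ^ 2 * wr c H x ≤ n ^ 2 * (sig0 ^ 2 * n ^ 2) :=
    mul_le_mul_of_nonneg_left (A.hw x) (by positivity)
  have m2 : n ^ 2 * n ≤ n ^ 2 * (sig0 ^ 2 * n ^ 2) :=
    mul_le_mul_of_nonneg_left (small_n A) (by positivity)
  have r1 : n ^ 2 * (sig0 ^ 2 * n ^ 2) = sig0 ^ 2 * n ^ 4 := by ring
  rw [r1] at m1 m2
  linarith

theorem no_prod {a b : ℝ} (hp : 0 < n) (ha : n / 5 ≤ b) (hb : n / 3000 < a)
    (h : a * b ^ 3 ≤ 9 * sig0 ^ 2 * n ^ 4) : False := by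
  have h1 : n / 3000 * (n / 5) ^ 3 ≤ a * b ^ 3 :=
    mul_le_mul hb.le (pow_le_pow_left₀ (by positivity) ha 3) (by positivity)
      (by linarith [show 0 < n / 3000 by positivity])
  have h2 : n / 3000 * (n / 5) ^ 3 = 1 / 375000 * n ^ 4 := by ring
  have h3 : 9 * sig0 ^ 2 < 1 / 375000 := by unfold sig0; norm_num
  have h4 : 9 * sig0 ^ 2 * n ^ 4 < 1 / 375000 * n ^ 4 :=
    mul_lt_mul_of_pos_right h3 (by positivity)
  linarith

/-- small inner codegrees -/
theorem innerT (A : Vx c H n sig0) (hP : NTE H) (x y : V) : io c H x y ≤ n / 3000 := by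
  have hp := A.pos
  by_cases hcy : c y = c x
  swap
  · have : io c H x y = 0 := sum_eq_zero fun z _ => ind_f fun h => hcy h.1.1
    rw [this]; positivity
  by_contra hcon
  push Not at hcon
  have h1 := prodT A hP x y
  have h2 : io c H x y ≤ ∑ u, ind (c u = c x ∧ H x y u) :=
    sum_le_sum fun u _ => ind_mono fun h => ⟨h.1.2, h.2⟩
  have h3 : sz c (c x + 2) ≤ Mp c H x y + ∑ t, ind (c t = c x + 2 ∧ ¬ H x y t) := by
    unfold sz Mp
    rw [← sum_add_distrib]
    refine sum_le_sum fun t _ => ind_or fun h => ?_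
    by_cases h' : H x y t
    · exact Or.inl ⟨h, h'⟩
    · exact Or.inr ⟨h, h'⟩
  have h4 := Mp_le A sig0_pos x y hcy
  have hs2 := size_prev A (show sig0 ≤ 1 / 100 by unfold sig0; norm_num) (c x + 2)
  have h5 : 2 * sig0 * n ≤ 1 / 100 * n :=
    mul_le_mul_of_nonneg_right (by unfold sig0; norm_num) hp.le
  exact no_prod hp (by linarith) (lt_of_lt_of_le hcon h2) h1

theorem fd_in : ∀ (k : Fin 3) (r2 r3 r4 r5 : Bool),
    fdB k (k + 1) k true r2 r3 r4 r5 false = true := by decide

/-- no reversed arcs -/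
theorem uniq2 (A : Vx c H n sig0) {rev : V → V → Bool}
    (hF : ∀ x y z, H x y z ↔ FD c rev x y z)
    (hk : ∀ x y, c y = c x + 1 → n / 5 ≤ nu c H x y →
      n / 5 ≤ (∑ u, ind (c u = c x ∧ H x y u)) → n / 5 ≤ (∑ u, ind (c u = c y ∧ H x y u)) →
        False) (x y z : V) :
    H x y z ↔ Tu c x y z := by
  have hp := A.pos
  have hs0 : sig0 ≤ 1 / 100 := by unfold sig0; norm_num
  -- few vertices `w` with a reversed arc to `x`
  have h1 : ∀ x : V, ∑ w, ind (c x = c w + 1 ∧ rev w x = true) ≤ n / 100 := by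
    intro x
    have h2 : (∑ w, ind (c x = c w + 1 ∧ rev w x = true)) * (sz c (c x) - 1) ≤ wr c H x := by
      rw [sum_mul]
      unfold wr
      refine sum_le_sum fun w _ => ?_
      by_cases h : c x = c w + 1 ∧ rev w x = true
      · rw [ind_t h, one_mul]
        have h3 : sz c (c x) ≤ ∑ a, (ind (¬ (H x w a ↔ Tu c x w a)) + ind (a = x)) := by
          refine sum_le_sum fun a _ => ind_or fun ha => ?_
          by_cases hax : a = x
          · right; exact hax
          · left
            have h4 := revA A hF w x h.1 h.2 a ha hax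
            intro h5
            apply h4
            constructor
            · intro h6
              exact FD_s1 (h5.1 (A.S.s1 _ _ _ h6))
            · intro h6
              exact A.S.s1 _ _ _ (h5.2 (FD_s1 h6))
        rw [sum_add_distrib, sum_ind_eq] at h3
        linarith
      · rw [ind_f h, zero_mul]
        exact sum_nonneg' fun _ => ind_nonneg _
    have h3 := A.hw x
    have h4 := A.lo (c x)
    have h5 := A.big
    have hs1 : sig0 ^ 2 ≤ 1 / 100000 := by unfold sig0; norm_num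
    have h6 : 1 ≤ 1 / 100000 * n := h5.trans (mul_le_mul_of_nonneg_right hs1 hp.le)
    have h7 : sig0 * n ≤ 1 / 100 * n := mul_le_mul_of_nonneg_right hs0 hp.le
    have h8 : n / 4 ≤ sz c (c x) - 1 := by nlinarith
    have h9 : 0 ≤ ∑ w, ind (c x = c w + 1 ∧ rev w x = true) := sum_nonneg' fun _ => ind_nonneg _
    have h10 : (∑ w, ind (c x = c w + 1 ∧ rev w x = true)) * (n / 4) ≤ n / 100 * (n / 4) := by
      have e1 := mul_le_mul_of_nonneg_left h8 h9
      have e2 : sig0 ^ 2 * n ^ 2 ≤ 1 / 100000 * n ^ 2 :=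
        mul_le_mul_of_nonneg_right hs1 (by positivity)
      nlinarith
    exact le_of_mul_le_mul_right h10 (by positivity)
  -- there is no reversed arc
  have h2 : ∀ x y : V, c y = c x + 1 → rev x y = false := by
    intro x y hxy
    by_contra hr
    have hr' : rev x y = true := by simpa using hr
    have h4 : tt c H x y ≤ n / 100 := by
      refine le_trans ?_ (h1 x)
      unfold tt
      refine sum_le_sum fun w _ => ind_mono ?_
      rintro ⟨hw, hH⟩
      rw [hF] at hH
      obtain ⟨-, -, -, hfd⟩ := hH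
      rw [hxy, hw, hr'] at hfd
      refine ⟨?_, fd_rev1 _ _ _ _ _ _ hfd⟩
      rw [hw]; exact (fin3_21 (c x)).symm
    have h5 := tt_nu c H x y
    have h6 := size_prev A hs0 (c x + 2)
    have h7 := size_prev A hs0 (c x)
    have h7' := size_prev A hs0 (c y)
    have h5n : 1 ≤ 1 / 100 * n := A.big.trans
      (mul_le_mul_of_nonneg_right (by unfold sig0; norm_num) hp.le)
    refine hk x y hxy (by linarith) ?_ ?_
    swap
    · have h10 : sz c (c y) ≤ ∑ u, ind (c u = c y ∧ H x y u) + ∑ u, ind (u = y) := by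
        unfold sz
        rw [← sum_add_distrib]
        refine sum_le_sum fun u _ => ind_or fun hu => ?_
        by_cases huy : u = y
        · exact Or.inr huy
        · left
          refine ⟨hu, ?_⟩
          rw [hF]
          refine ⟨fun e => fin3_ne1 (c x) (by rw [← hxy, e]), fun e => huy e.symm,
            fun e => fin3_ne1 (c x) (by rw [← hxy, ← hu, e]), ?_⟩
          rw [hu, hxy, hr']
          exact fd_rev2 _ _ _ _ _ _
      rw [sum_ind_eq] at h10
      linarith
    have h8 : sz c (c x) ≤ ∑ u, ind (c u = c x ∧ H x y u) +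
        ∑ w, ind (c y = c w + 1 ∧ rev w y = true) := by
      unfold sz
      rw [← sum_add_distrib]
      refine sum_le_sum fun u _ => ind_or fun hu => ?_
      by_cases hru : rev u y = true
      · exact Or.inr ⟨by rw [hu, hxy], hru⟩
      · refine Or.inl ⟨hu, ?_⟩
        rw [hF]
        have hxu : x ≠ u := fun e => hru (by rw [← e]; exact hr')
        refine ⟨fun e => fin3_ne1 (c x) (by rw [← hxy, e]), fun e => ?_, hxu, ?_⟩
        · exact fin3_ne1 (c x) (by rw [← hxy, e, hu])
        · rw [hxy, hu, hr', show rev u y = false by simpa using hru]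
          exact fd_in _ _ _ _ _
    have h9 := h1 y
    linarith
  rw [hF]
  unfold Tu FD
  have key : ∀ (a b d : Fin 3) (r1 r2 r3 r4 r5 r6 : Bool),
      (b = a + 1 → r1 = false) → (a = b + 1 → r2 = false) → (d = a + 1 → r3 = false) →
      (a = d + 1 → r4 = false) → (d = b + 1 → r5 = false) → (b = d + 1 → r6 = false) →
      fdB a b d r1 r2 r3 r4 r5 r6 = fdB a b d false false false false false false := by
    decide +kernel
  rw [key _ _ _ _ _ _ _ _ _ (h2 x y) (h2 y x) (h2 x z) (h2 z x) (h2 y z) (h2 z y)]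

theorem uniq (A : Vx c H n sig0) {rev : V → V → Bool}
    (hF : ∀ x y z, H x y z ↔ FD c rev x y z)
    (hk : ∀ x y, c y = c x + 1 → n / 5 ≤ nu c H x y →
      n / 5 ≤ (∑ u, ind (c u = c x ∧ H x y u)) → False) (x y z : V) :
    H x y z ↔ Tu c x y z :=
  uniq2 A hF (fun x y h h1 h2 _ => hk x y h h1 h2) x y z

theorem uniqP (A : Vx c H n sig0) (hP : NP4 H) {rev : V → V → Bool}
    (hF : ∀ x y z, H x y z ↔ FD c rev x y z) (x y z : V) : H x y z ↔ Tu c x y z :=
  uniq A hF (fun x y hxy h _ => by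
    have h1 := nuP A hP x y hxy
    have := A.pos
    linarith) x y z

theorem uniqT (A : Vx c H n sig0) (hP : NTE H) {rev : V → V → Bool}
    (hF : ∀ x y z, H x y z ↔ FD c rev x y z) (x y z : V) : H x y z ↔ Tu c x y z :=
  uniq A hF (fun x y hxy h h' => by
    have hp := A.pos
    exact no_prod hp h (by linarith) (prodT A hP x y)) x y z

end Pool.Agent.R573.CL
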