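import Pool.Agent.R573.CL.Cop
import Pool.Agent.R573.CL.Loc

/-! Pairs of vertices with atypical codegrees lead to many induced copies of six-vertex 3-graphs. -/

set_option autoImplicit false
set_option linter.unusedVariables false
set_option linter.unusedSectionVars false
set_option maxRecDepth 100000

open Finset
open scoped Classical

namespace Pool.Agent.R573.CL
open Pool.Agent.Y439.Loc hiding sum_nonneg'
open Pool.Agent.TH773
open Pool.Agent.TH773.Turan34 (K43Free turan Induces copies fam)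
open Pool.Agent.Y439
open Pool.Agent.Y903.TX
open Pool.Agent.R105.TP

theorem forall_tri {P : Fin 6 → Fin 6 → Fin 6 → Prop} (h012 : P 0 1 2) (h013 : P 0 1 3)
    (h014 : P 0 1 4) (h015 : P 0 1 5) (h023 : P 0 2 3) (h024 : P 0 2 4) (h025 : P 0 2 5)
    (h034 : P 0 3 4) (h035 : P 0 3 5) (h045 : P 0 4 5) (h123 : P 1 2 3) (h124 : P 1 2 4)
    (h125 : P 1 2 5) (h134 : P 1 3 4) (h135 : P 1 3 5) (h145 : P 1 4 5) (h234 : P 2 3 4)
    (h235 : P 2 3 5) (h245 : P 2 4 5) (h345 : P 3 4 5) : ∀ i j l, i < j → j < l → P i j l := by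
  intro i j l
  fin_cases i <;> fin_cases j <;> fin_cases l <;>
    first
    | exact fun h _ => absurd h (by decide)
    | exact fun _ h => absurd h (by decide)
    | exact fun _ _ => by assumption

theorem forall_prs {P : Fin 6 → Fin 6 → Prop} (h01 : P 0 1) (h02 : P 0 2) (h03 : P 0 3)
    (h04 : P 0 4) (h05 : P 0 5) (h12 : P 1 2) (h13 : P 1 3) (h14 : P 1 4) (h15 : P 1 5)
    (h23 : P 2 3) (h24 : P 2 4) (h25 : P 2 5) (h34 : P 3 4) (h35 : P 3 5) (h45 : P 4 5) :
    ∀ i j, i < j → P i j := by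
  intro i j
  fin_cases i <;> fin_cases j <;>
    first
    | exact fun h => absurd h (by decide)
    | exact fun _ => by assumption

theorem inj_of_lt {α : Type} {w : Fin 6 → α} (h : ∀ i j, i < j → w i ≠ w j) :
    Function.Injective w := by
  intro i j hij
  rcases lt_trichotomy i j with h1 | h1 | h1
  · exact absurd hij (h i j h1)
  · exact h1
  · exact absurd hij.symm (h j i h1)

/-- the classes of the six vertices -/
def cls (d : Fin 3) (k : Fin 4 → Fin 3) : Fin 6 → Fin 3 := ![0, d, k 0, k 1, k 2, k 3]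

/-- the values at the first two vertices -/
def bvc (b : Fin 4 → Bool) : Fin 6 → Bool := ![false, false, b 0, b 1, b 2, b 3]

/-- the expected edges -/
def G6 (d : Fin 3) (k : Fin 4 → Fin 3) (b : Fin 4 → Bool) (i j l : Fin 6) : Bool :=
  if i = 0 ∧ j = 1 then bvc b l else tl (cls d k i) (cls d k j) (cls d k l)

/-- six vertices with the expected edges -/
def Gd {V : Type} (R : V → V → V → Prop) (d : Fin 3) (k : Fin 4 → Fin 3) (b : Fin 4 → Bool)
    (w : Fin 6 → V) : Prop :=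
  Function.Injective w ∧ ∀ i j l, i < j → j < l → (R (w i) (w j) (w l) ↔ G6 d k b i j l = true)

section
variable {V : Type} [Fintype V] {c : V → Fin 3} {R : V → V → V → Prop} {n σ : ℝ}

/-- the vertices of a class with a given value at a pair -/
noncomputable def NN (c : V → Fin 3) (R : V → V → V → Prop) (x y : V) (k : Fin 3) (b : Bool) : ℝ :=
  ∑ z, ind (c z = c x + k ∧ (R x y z ↔ b = true))

theorem NN_nonneg (x y : V) (k : Fin 3) (b : Bool) : 0 ≤ NN c R x y k b :=
  sum_nonneg' fun _ => ind_nonneg _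

theorem df_tl {w : Fin 6 → V} {d : Fin 3} {k : Fin 4 → Fin 3} {s : Fin 3}
    (hw : ∀ i, c (w i) = cls d k i + s) {i j l : Fin 6} (h1 : w i ≠ w j) (h2 : w j ≠ w l)
    (h3 : w i ≠ w l) (h : ¬ Df c R (w i) (w j) (w l)) :
    R (w i) (w j) (w l) ↔ tl (cls d k i) (cls d k j) (cls d k l) = true := by
  unfold Df at h
  push Not at h
  rw [h, tu_tl h1 h2 h3, hw, hw, hw]
  have := rot_fd (cls d k i) (cls d k j) (cls d k l) s
  unfold tl
  rw [this]

theorem cfg_pt (S : Sys c R) {x y p q r t : V} {d : Fin 3} {k : Fin 4 → Fin 3}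
    {b : Fin 4 → Bool} (hxy : x ≠ y) (hd : c y = c x + d)
    (hk : ∀ i, b i = true ∨ (k i ≠ 0 ∧ k i ≠ d))
    (hp : c p = c x + k 0 ∧ (R x y p ↔ b 0 = true)) (hq : c q = c x + k 1 ∧ (R x y q ↔ b 1 = true))
    (hr : c r = c x + k 2 ∧ (R x y r ↔ b 2 = true)) (ht : c t = c x + k 3 ∧ (R x y t ↔ b 3 = true))
    (e1 : p ≠ q) (e2 : p ≠ r) (e3 : p ≠ t) (e4 : q ≠ r) (e5 : q ≠ t) (e6 : r ≠ t)
    (x1 : ¬ Df c R x p q) (x2 : ¬ Df c R x p r) (x3 : ¬ Df c R x p t) (x4 : ¬ Df c R x q r)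
    (x5 : ¬ Df c R x q t) (x6 : ¬ Df c R x r t)
    (y1 : ¬ Df c R y p q) (y2 : ¬ Df c R y p r) (y3 : ¬ Df c R y p t) (y4 : ¬ Df c R y q r)
    (y5 : ¬ Df c R y q t) (y6 : ¬ Df c R y r t)
    (z1 : ¬ Df c R p q r) (z2 : ¬ Df c R p q t) (z3 : ¬ Df c R p r t) (z4 : ¬ Df c R q r t) :
    Gd R d k b ![x, y, p, q, r, t] := by
  have nex : ∀ (z : V) (i : Fin 4), (c z = c x + k i ∧ (R x y z ↔ b i = true)) →
      x ≠ z ∧ y ≠ z := by
    intro z i hz
    rcases hk i with h | h
    · have := hz.2.2 h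
      exact ⟨S.ne13 this, S.ne23 this⟩
    · refine ⟨fun e => h.1 ?_, fun e => h.2 ?_⟩
      · have h1 := hz.1
        rw [← e] at h1
        exact (left_eq_add.mp h1)
      · have h1 := hz.1
        rw [← e, hd] at h1
        exact (add_left_cancel h1).symm
  obtain ⟨a1, b1⟩ := nex p 0 hp
  obtain ⟨a2, b2⟩ := nex q 1 hq
  obtain ⟨a3, b3⟩ := nex r 2 hr
  obtain ⟨a4, b4⟩ := nex t 3 ht
  have hinj : Function.Injective ![x, y, p, q, r, t] :=
    inj_of_lt (forall_prs hxy a1 a2 a3 a4 b1 b2 b3 b4 e1 e2 e3 e4 e5 e6)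
  have hw : ∀ i, c (![x, y, p, q, r, t] i) = cls d k i + c x := by
    intro i
    fin_cases i
    · show c x = 0 + c x
      rw [zero_add]
    · show c y = d + c x
      rw [hd, add_comm]
    · show c p = k 0 + c x
      rw [hp.1, add_comm]
    · show c q = k 1 + c x
      rw [hq.1, add_comm]
    · show c r = k 2 + c x
      rw [hr.1, add_comm]
    · show c t = k 3 + c x
      rw [ht.1, add_comm]
  refine ⟨hinj, ?_⟩
  have key : ∀ i j l : Fin 6, i < j → j < l → ¬ (i = 0 ∧ j = 1) →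
      ¬ Df c R (![x, y, p, q, r, t] i) (![x, y, p, q, r, t] j) (![x, y, p, q, r, t] l) →
      (R (![x, y, p, q, r, t] i) (![x, y, p, q, r, t] j) (![x, y, p, q, r, t] l) ↔
        G6 d k b i j l = true) := by
    intro i j l hij hjl h0 h
    unfold G6
    rw [if_neg h0]
    exact df_tl hw (fun e => hij.ne (hinj e)) (fun e => hjl.ne (hinj e))
      (fun e => (hij.trans hjl).ne (hinj e)) h
  refine forall_tri hp.2 hq.2 hr.2 ht.2 ?_ ?_ ?_ ?_ ?_ ?_ ?_ ?_ ?_ ?_ ?_ ?_ ?_ ?_ ?_ ?_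
  · exact key 0 2 3 (by decide) (by decide) (by decide) x1
  · exact key 0 2 4 (by decide) (by decide) (by decide) x2
  · exact key 0 2 5 (by decide) (by decide) (by decide) x3
  · exact key 0 3 4 (by decide) (by decide) (by decide) x4
  · exact key 0 3 5 (by decide) (by decide) (by decide) x5
  · exact key 0 4 5 (by decide) (by decide) (by decide) x6
  · exact key 1 2 3 (by decide) (by decide) (by decide) y1
  · exact key 1 2 4 (by decide) (by decide) (by decide) y2
  · exact key 1 2 5 (by decide) (by decide) (by decide) y3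
  · exact key 1 3 4 (by decide) (by decide) (by decide) y4
  · exact key 1 3 5 (by decide) (by decide) (by decide) y5
  · exact key 1 4 5 (by decide) (by decide) (by decide) y6
  · exact key 2 3 4 (by decide) (by decide) (by decide) z1
  · exact key 2 3 5 (by decide) (by decide) (by decide) z2
  · exact key 2 4 5 (by decide) (by decide) (by decide) z3
  · exact key 3 4 5 (by decide) (by decide) (by decide) z4

/-- the labelled copies through a pair -/
noncomputable def LL (R : V → V → V → Prop) (d : Fin 3) (k : Fin 4 → Fin 3) (b : Fin 4 → Bool)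
    (x y : V) : ℝ :=
  ∑ p, ∑ q, ∑ r, ∑ t, ind (Gd R d k b ![x, y, p, q, r, t])

theorem cfg_sum (A : Vx c R n σ) {x y : V} {d : Fin 3} {k : Fin 4 → Fin 3}
    {b : Fin 4 → Bool} (hxy : x ≠ y) (hd : c y = c x + d)
    (hk : ∀ i, b i = true ∨ (k i ≠ 0 ∧ k i ≠ d)) :
    NN c R x y (k 0) (b 0) * NN c R x y (k 1) (b 1) * NN c R x y (k 2) (b 2) *
      NN c R x y (k 3) (b 3) ≤ LL R d k b x y + 22 * σ ^ 2 * n ^ 4 := by
  have hp := A.pos
  have S := A.S
  have e0 : NN c R x y (k 0) (b 0) * NN c R x y (k 1) (b 1) * NN c R x y (k 2) (b 2) *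
      NN c R x y (k 3) (b 3) = ∑ p, ∑ q, ∑ r, ∑ t,
        ind (c p = c x + k 0 ∧ (R x y p ↔ b 0 = true)) *
        ind (c q = c x + k 1 ∧ (R x y q ↔ b 1 = true)) *
        ind (c r = c x + k 2 ∧ (R x y r ↔ b 2 = true)) *
        ind (c t = c x + k 3 ∧ (R x y t ↔ b 3 = true)) := by
    simp only [← mul_sum, ← sum_mul]
    rfl
  rw [e0]
  have h1 : ∀ p q r t, ind (c p = c x + k 0 ∧ (R x y p ↔ b 0 = true)) *
        ind (c q = c x + k 1 ∧ (R x y q ↔ b 1 = true)) *
        ind (c r = c x + k 2 ∧ (R x y r ↔ b 2 = true)) *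
        ind (c t = c x + k 3 ∧ (R x y t ↔ b 3 = true)) ≤
      ([Gd R d k b ![x, y, p, q, r, t], p = q, p = r, p = t, q = r, q = t, r = t,
        Df c R x p q, Df c R x p r, Df c R x p t, Df c R x q r, Df c R x q t, Df c R x r t,
        Df c R y p q, Df c R y p r, Df c R y p t, Df c R y q r, Df c R y q t, Df c R y r t,
        Df c R p q r, Df c R p q t, Df c R p r t, Df c R q r t].map ind).sum := by
    intro p q r t
    rw [ind_mul, ind_mul, ind_mul]
    refine ind_orL _ ?_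
    rintro ⟨⟨⟨h1, h2⟩, h3⟩, h4⟩
    by_contra hcon
    push Not at hcon
    have g0 : ¬ Gd R d k b ![x, y, p, q, r, t] := hcon _ (by simp)
    refine g0 (cfg_pt S hxy hd hk h1 h2 h3 h4 ?_ ?_ ?_ ?_ ?_ ?_ ?_ ?_ ?_ ?_ ?_ ?_ ?_ ?_ ?_ ?_ ?_
      ?_ ?_ ?_ ?_ ?_)
    all_goals exact hcon _ (by simp)
  refine (sum_le_sum fun p _ => sum_le_sum fun q _ => sum_le_sum fun r _ =>
    sum_le_sum fun t _ => h1 p q r t).trans ?_
  simp only [List.map_cons, List.map_nil, List.sum_cons, List.sum_nil, add_zero,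
    sum_add_distrib]
  rw [s12 A.hn (F := fun a b => ind (a = b)), s13 A.hn (F := fun a b => ind (a = b)),
    s14 A.hn (F := fun a b => ind (a = b)), s23 A.hn (F := fun a b => ind (a = b)),
    s24 A.hn (F := fun a b => ind (a = b)), s34 A.hn (F := fun a b => ind (a = b)),
    s12 A.hn (F := fun a b => ind (Df c R x a b)), s13 A.hn (F := fun a b => ind (Df c R x a b)),
    s14 A.hn (F := fun a b => ind (Df c R x a b)), s23 A.hn (F := fun a b => ind (Df c R x a b)),
    s24 A.hn (F := fun a b => ind (Df c R x a b)), s34 A.hn (F := fun a b => ind (Df c R x a b)),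
    s12 A.hn (F := fun a b => ind (Df c R y a b)), s13 A.hn (F := fun a b => ind (Df c R y a b)),
    s14 A.hn (F := fun a b => ind (Df c R y a b)), s23 A.hn (F := fun a b => ind (Df c R y a b)),
    s24 A.hn (F := fun a b => ind (Df c R y a b)), s34 A.hn (F := fun a b => ind (Df c R y a b)),
    t123 A.hn (G := fun x y z => ind (Df c R x y z)), t124 A.hn (G := fun x y z => ind (Df c R x y z)),
    t134 A.hn (G := fun x y z => ind (Df c R x y z)), t234 A.hn (G := fun x y z => ind (Df c R x y z))]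
  have f1 : ∑ a : V, ∑ b : V, ind (a = b) = n := by simp only [sum_ind_eq', A.hn]
  have f2 : ∑ a, ∑ b, ind (Df c R x a b) = wr c R x := rfl
  have f3 : ∑ a, ∑ b, ind (Df c R y a b) = wr c R y := rfl
  have f4 : ∑ a, ∑ b, ∑ d, ind (Df c R a b d) = WD c R := rfl
  have f5 : ∑ p, ∑ q, ∑ r, ∑ t, ind (Gd R d k b ![x, y, p, q, r, t]) = LL R d k b x y := rfl
  rw [f1, f2, f3, f4, f5]
  have m1 : n ^ 2 * wr c R x ≤ n ^ 2 * (σ ^ 2 * n ^ 2) :=
    mul_le_mul_of_nonneg_left (A.hw x) (by positivity)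
  have m1' : n ^ 2 * wr c R y ≤ n ^ 2 * (σ ^ 2 * n ^ 2) :=
    mul_le_mul_of_nonneg_left (A.hw y) (by positivity)
  have m2 : n ^ 2 * n ≤ n ^ 2 * (σ ^ 2 * n ^ 2) :=
    mul_le_mul_of_nonneg_left (small_n A) (by positivity)
  have m3 : n * WD c R ≤ n * (σ ^ 2 * n ^ 3) := mul_le_mul_of_nonneg_left (WD3 A) hp.le
  have r1 : n ^ 2 * (σ ^ 2 * n ^ 2) = σ ^ 2 * n ^ 4 := by ring
  have r2 : n * (σ ^ 2 * n ^ 3) = σ ^ 2 * n ^ 4 := by ring
  have r4 : 22 * σ ^ 2 * n ^ 4 = 22 * (σ ^ 2 * n ^ 4) := by ring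
  rw [r1] at m1 m1' m2
  rw [r2] at m3
  rw [r4]
  linarith

end

end Pool.Agent.R573.CL
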