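import Pool.Agent.TH773.ST.Defs

/-! Every pair of vertices of the 3-graphs in the five lists is in an edge. -/

set_option autoImplicit false
set_option maxRecDepth 100000

open Finset

namespace Pool.Agent.R573.CL
open Pool.Agent.TH773.Turan34

/-- every pair of vertices is in an edge -/
def Cov2 (F : Finset (Finset (Fin 6))) : Prop :=
  ∀ p q : Fin 6, p ≠ q → ∃ t ∈ F, t.card = 3 ∧ p ∈ t ∧ q ∈ t

theorem cov_of {F : Finset (Finset (Fin 6))} (L : List (Fin 6 × Fin 6 × Fin 6))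
    (h1 : ∀ e ∈ L, ({e.1, e.2.1, e.2.2} : Finset (Fin 6)) ∈ F)
    (h2 : ∀ e ∈ L, e.1 ≠ e.2.1 ∧ e.1 ≠ e.2.2 ∧ e.2.1 ≠ e.2.2)
    (h3 : ∀ p q : Fin 6, p ≠ q → ∃ e ∈ L, (p = e.1 ∨ p = e.2.1 ∨ p = e.2.2) ∧
      (q = e.1 ∨ q = e.2.1 ∨ q = e.2.2)) : Cov2 F := by
  intro p q hpq
  obtain ⟨e, he, hp, hq⟩ := h3 p q hpq
  obtain ⟨n1, n2, n3⟩ := h2 e he
  refine ⟨_, h1 e he, card_eq_three.2 ⟨_, _, _, n1, n2, n3, rfl⟩, ?_, ?_⟩
  · simpa using hp
  · simpa using hq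

theorem covA : Cov2 XA :=
  cov_of [(0, 1, 2), (0, 1, 3), (0, 2, 4), (0, 2, 5), (0, 3, 4), (0, 3, 5), (0, 4, 5), (1, 2, 3), (1, 2, 4), (1, 2, 5), (1, 3, 4), (1, 3, 5)]
    (by decide +kernel) (by decide) (by decide +kernel)

theorem covB : Cov2 XB :=
  cov_of [(0, 1, 2), (0, 1, 3), (0, 1, 4), (0, 2, 4), (0, 2, 5), (0, 3, 4), (0, 3, 5), (0, 4, 5), (1, 2, 3), (1, 2, 5), (1, 3, 5), (1, 4, 5), (2, 3, 4)]
    (by decide +kernel) (by decide) (by decide +kernel)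

theorem covC : Cov2 XC :=
  cov_of [(0, 1, 4), (0, 1, 5), (0, 2, 3), (0, 2, 4), (0, 2, 5), (0, 3, 4), (0, 3, 5), (0, 4, 5), (1, 2, 3), (1, 2, 4), (1, 2, 5), (1, 3, 4), (1, 3, 5)]
    (by decide +kernel) (by decide) (by decide +kernel)

theorem covD : Cov2 XD :=
  cov_of [(0, 1, 2), (0, 1, 3), (0, 1, 4), (0, 1, 5), (0, 2, 3), (0, 4, 5), (1, 2, 4), (1, 2, 5), (1, 3, 4), (1, 3, 5), (2, 3, 4), (2, 3, 5)]
    (by decide +kernel) (by decide) (by decide +kernel)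

theorem covE : Cov2 XE :=
  cov_of [(0, 1, 3), (0, 1, 4), (0, 2, 3), (0, 2, 4), (0, 3, 4), (0, 3, 5), (0, 4, 5), (1, 2, 3), (1, 2, 4), (1, 2, 5)]
    (by decide +kernel) (by decide) (by decide +kernel)

theorem covF : Cov2 XF :=
  cov_of [(0, 1, 5), (0, 2, 3), (0, 2, 4), (0, 2, 5), (0, 3, 4), (0, 3, 5), (0, 4, 5), (1, 2, 3), (1, 2, 4), (1, 3, 4)]
    (by decide +kernel) (by decide) (by decide +kernel)

theorem covG : Cov2 XG :=
  cov_of [(0, 1, 2), (0, 1, 3), (0, 2, 3), (0, 2, 5), (0, 3, 5), (0, 4, 5), (1, 2, 4), (1, 2, 5), (1, 3, 4), (1, 3, 5), (2, 3, 4)]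
    (by decide +kernel) (by decide) (by decide +kernel)

theorem covH : Cov2 XH :=
  cov_of [(0, 1, 2), (0, 1, 3), (0, 2, 3), (0, 4, 5), (1, 2, 4), (1, 2, 5), (1, 3, 4), (1, 3, 5), (2, 3, 4), (2, 3, 5)]
    (by decide +kernel) (by decide) (by decide +kernel)

theorem covI : Cov2 XI :=
  cov_of [(0, 1, 2), (0, 1, 3), (0, 1, 4), (0, 2, 3), (0, 4, 5), (1, 2, 4), (1, 2, 5), (1, 3, 4), (1, 3, 5), (2, 3, 4), (2, 3, 5)]
    (by decide +kernel) (by decide) (by decide +kernel)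

theorem fam_cov (i : Fin 5) : ∀ F ∈ fam i, Cov2 F := by
  intro F hF
  fin_cases i <;> simp only [fam, List.mem_cons, List.not_mem_nil, or_false] at hF
  · rcases hF with rfl | rfl
    exacts [covA, covB]
  · rcases hF with rfl | rfl
    exacts [covA, covC]
  · rcases hF with rfl | rfl
    exacts [covD, covB]
  · rcases hF with rfl | rfl
    exacts [covE, covA]
  · rcases hF with rfl | rfl | rfl | rfl
    exacts [covF, covG, covH, covI]

end Pool.Agent.R573.CL
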