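import Pool.Agent.R573.CL.Lnk
import Pool.Agent.TH773.CL.Fin
import Pool.Agent.R573.CL.Fam

/-! Induced copies of six-vertex 3-graphs through vertices and pairs, and copies of vertices. -/

set_option autoImplicit false
set_option linter.unusedVariables false
set_option linter.unusedSectionVars false
set_option maxRecDepth 100000

open Finset
open scoped Classical

namespace Pool.Agent.R573.CL
open Pool.Agent.Y439.Loc hiding sum_nonneg'
open Pool.Agent.TH773
open Pool.Agent.TH773.Turan34 (K43Free turan Induces copies fam)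
open Pool.Agent.Y439
open Pool.Agent.Y903.TX
open Pool.Agent.R105.TP

section
variable {n : ℕ} {H : Finset (Finset (Fin n))}

/-- the sets through `x` and `y` which induce a member of the list -/
noncomputable def pcop (Fs : List (Finset (Finset (Fin 6)))) (H : Finset (Finset (Fin n)))
    (x y : Fin n) : ℕ :=
  ((univ : Finset (Finset (Fin n))).filter fun S =>
    (x ∈ S ∧ y ∈ S) ∧ ∃ F ∈ Fs, Induces F H S).card

/-- the sets through `x` which induce a member of the list -/
noncomputable def vcop (Fs : List (Finset (Finset (Fin 6)))) (H : Finset (Finset (Fin n)))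
    (x : Fin n) : ℕ :=
  ((univ : Finset (Finset (Fin n))).filter fun S => x ∈ S ∧ ∃ F ∈ Fs, Induces F H S).card

theorem ind_card {F : Finset (Finset (Fin 6))} {S : Finset (Fin n)} (h : Induces F H S) :
    S.card = 6 := by
  obtain ⟨f, hf, rfl, -⟩ := h
  rw [card_image_of_injective _ hf]
  simp

theorem vcop_le (Fs : List (Finset (Finset (Fin 6)))) {B : ℕ} (x : Fin n)
    (h : ∀ y, x ≠ y → pcop Fs H x y ≤ B) : vcop Fs H x ≤ n * B := by
  have h1 : ((univ : Finset (Finset (Fin n))).filter fun S => x ∈ S ∧ ∃ F ∈ Fs, Induces F H S) ⊆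
      ((univ : Finset (Fin n)).filter fun y => x ≠ y).biUnion fun y =>
        (univ : Finset (Finset (Fin n))).filter fun S =>
          (x ∈ S ∧ y ∈ S) ∧ ∃ F ∈ Fs, Induces F H S := by
    intro S hS
    obtain ⟨-, hx, F, hF, hI⟩ := mem_filter.1 hS
    have hc := ind_card hI
    obtain ⟨y, hy, hxy⟩ : ∃ y ∈ S, y ≠ x := by
      by_contra hcon
      push Not at hcon
      have : S ⊆ {x} := fun y hy => mem_singleton.2 (hcon y hy)
      have := card_le_card this
      rw [card_singleton] at this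
      omega
    exact mem_biUnion.2 ⟨y, mem_filter.2 ⟨mem_univ _, hxy.symm⟩,
      mem_filter.2 ⟨mem_univ _, ⟨hx, hy⟩, F, hF, hI⟩⟩
  unfold vcop
  refine (card_le_card h1).trans (card_biUnion_le.trans ?_)
  calc ∑ y ∈ (univ : Finset (Fin n)).filter (fun y => x ≠ y), pcop Fs H x y ≤
        ∑ y ∈ (univ : Finset (Fin n)).filter (fun y => x ≠ y), B :=
          sum_le_sum fun y hy => h y (mem_filter.1 hy).2
    _ ≤ ∑ _y : Fin n, B := sum_le_sum_of_subset (subset_univ _)
    _ = n * B := by simp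

theorem copies_le (Fs : List (Finset (Finset (Fin 6)))) {B : ℕ}
    (h : ∀ x, vcop Fs H x ≤ B) : copies Fs H ≤ n * B := by
  have h1 : ((univ : Finset (Finset (Fin n))).filter fun S => ∃ F ∈ Fs, Induces F H S) ⊆
      (univ : Finset (Fin n)).biUnion fun x =>
        (univ : Finset (Finset (Fin n))).filter fun S => x ∈ S ∧ ∃ F ∈ Fs, Induces F H S := by
    intro S hS
    obtain ⟨-, F, hF, hI⟩ := mem_filter.1 hS
    have hc := ind_card hI
    obtain ⟨x, hx⟩ : S.Nonempty := by
      rw [← card_pos]; omega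
    exact mem_biUnion.2 ⟨x, mem_univ _, mem_filter.2 ⟨mem_univ _, hx, F, hF, hI⟩⟩
  unfold copies
  refine (card_le_card h1).trans (card_biUnion_le.trans ?_)
  calc ∑ x : Fin n, vcop Fs H x ≤ ∑ _x : Fin n, B := sum_le_sum fun x _ => h x
    _ = n * B := by simp

theorem pr_split (v : Fin n) (m : ℕ) (x : Fin (n + m)) :
    x = Fin.castAdd m (pr v m x) ∨ ∃ j, x = Fin.natAdd n j :=
  Fin.addCases (motive := fun x => x = Fin.castAdd m (pr v m x) ∨ ∃ j, x = Fin.natAdd n j)
    (fun a => Or.inl (by rw [pr_l])) (fun j => Or.inr ⟨j, rfl⟩) x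

theorem cln_copy (hH : ∀ e ∈ H, e.card = 3) {F : Finset (Finset (Fin 6))} (hF : Cov2 F)
    (v : Fin n) (m : ℕ) {S : Finset (Fin (n + m))} (h : Induces F (cln v m H) S) :
    (∃ T, Induces F H T ∧ S = T.map (Fin.castAddEmb m)) ∨
      ∃ j T, v ∈ T ∧ Induces F H T ∧
        S = insert (Fin.natAdd n j) ((T.erase v).map (Fin.castAddEmb m)) := by
  obtain ⟨f, hf, hS, hfe⟩ := h
  have hpi : Function.Injective (fun p => pr v m (f p)) := by
    intro p q hpq
    by_contra hne
    obtain ⟨t, ht, h3, hp, hq⟩ := hF p q hne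
    have h4 := (hfe t h3).2 ht
    obtain ⟨-, h5, h6⟩ := mem_filter.1 h4
    have h7 := hH _ h6
    have h8 : Set.InjOn (pr v m) (t.image f : Finset (Fin (n + m))) :=
      card_image_iff.1 (by rw [h7, h5])
    exact hne (hf (h8 (mem_coe.2 (mem_image_of_mem f hp)) (mem_coe.2 (mem_image_of_mem f hq)) hpq))
  have hI : Induces F H (univ.image fun p => pr v m (f p)) := by
    refine ⟨_, hpi, rfl, fun t ht => ?_⟩
    rw [← hfe t ht]
    unfold cln
    rw [mem_filter, image_image]
    constructor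
    · intro h
      exact ⟨mem_univ _, by rw [card_image_of_injective _ hf, ht], h⟩
    · intro h
      exact h.2.2
  by_cases hj : ∃ p j, f p = Fin.natAdd n j
  · right
    obtain ⟨p, j, hp⟩ := hj
    have hv : pr v m (f p) = v := by rw [hp, pr_r]
    refine ⟨j, _, mem_image.2 ⟨p, mem_univ _, hv⟩, hI, ?_⟩
    ext y
    rw [← hS, mem_insert, mem_map]
    simp only [mem_image, mem_univ, true_and, mem_erase, Fin.castAddEmb_apply]
    constructor
    · rintro ⟨q, rfl⟩
      by_cases hq : q = p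
      · left; rw [hq, hp]
      · right
        refine ⟨pr v m (f q), ⟨fun e => hq (hpi (by simp only []; rw [e, hv])), q, rfl⟩, ?_⟩
        rcases pr_split v m (f q) with h | ⟨j', h⟩
        · exact h.symm
        · exfalso
          exact hq (hpi (by simp only []; rw [h, pr_r, hv]))
    · rintro (rfl | ⟨a, ⟨ha, q, rfl⟩, rfl⟩)
      · exact ⟨p, hp⟩
      · refine ⟨q, ?_⟩
        rcases pr_split v m (f q) with h | ⟨j', h⟩
        · exact h
        · exfalso
          exact ha (by rw [h, pr_r])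
  · left
    refine ⟨_, hI, ?_⟩
    rw [← hS]
    ext y
    simp only [mem_image, mem_univ, true_and, mem_map, Fin.castAddEmb_apply]
    constructor
    · rintro ⟨q, rfl⟩
      refine ⟨pr v m (f q), ⟨q, rfl⟩, ?_⟩
      rcases pr_split v m (f q) with h | ⟨j', h⟩
      · exact h.symm
      · exact absurd ⟨q, j', h⟩ hj
    · rintro ⟨a, ⟨q, rfl⟩, rfl⟩
      refine ⟨q, ?_⟩
      rcases pr_split v m (f q) with h | ⟨j', h⟩
      · exact h
      · exact absurd ⟨q, j', h⟩ hj

theorem copies_cln (hH : ∀ e ∈ H, e.card = 3) {Fs : List (Finset (Finset (Fin 6)))}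
    (hF : ∀ F ∈ Fs, Cov2 F) (v : Fin n) (m : ℕ) :
    copies Fs (cln v m H) ≤ copies Fs H + m * vcop Fs H v := by
  have h1 : ((univ : Finset (Finset (Fin (n + m)))).filter fun S =>
      ∃ F ∈ Fs, Induces F (cln v m H) S) ⊆
      (((univ : Finset (Finset (Fin n))).filter fun S => ∃ F ∈ Fs, Induces F H S).image
        fun T => T.map (Fin.castAddEmb m)) ∪
      (univ : Finset (Fin m)).biUnion fun j =>
        ((univ : Finset (Finset (Fin n))).filter fun S => v ∈ S ∧ ∃ F ∈ Fs, Induces F H S).image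
          fun T => insert (Fin.natAdd n j) ((T.erase v).map (Fin.castAddEmb m)) := by
    intro S hS
    obtain ⟨-, F, hFs, hI⟩ := mem_filter.1 hS
    rcases cln_copy hH (hF F hFs) v m hI with ⟨T, hT, rfl⟩ | ⟨j, T, hv, hT, rfl⟩
    · exact mem_union_left _ (mem_image_of_mem _ (mem_filter.2 ⟨mem_univ _, F, hFs, hT⟩))
    · exact mem_union_right _ (mem_biUnion.2 ⟨j, mem_univ _, mem_image.2
        ⟨T, mem_filter.2 ⟨mem_univ _, hv, F, hFs, hT⟩, rfl⟩⟩)
  unfold copies
  refine (card_le_card h1).trans ((card_union_le _ _).trans (add_le_add card_image_le ?_))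
  refine card_biUnion_le.trans ?_
  calc ∑ j : Fin m, _ ≤ ∑ _j : Fin m, vcop Fs H v := sum_le_sum fun j _ => card_image_le
    _ = m * vcop Fs H v := by simp

/-- deletion of a vertex -/
theorem ind_del {m : ℕ} {v : Fin (m + 1)} {K : Finset (Finset (Fin (m + 1)))}
    {F : Finset (Finset (Fin 6))} {S : Finset (Fin m)} (h : Induces F (del v K) S) :
    Induces F K (S.map v.succAboveEmb) := by
  obtain ⟨f, hf, rfl, hfe⟩ := h
  refine ⟨fun p => v.succAbove (f p), fun p q hpq => hf (Fin.succAbove_right_injective hpq), ?_,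
    fun t ht => ?_⟩
  · ext y
    simp only [mem_image, mem_univ, true_and, mem_map, Fin.coe_succAboveEmb]
    constructor
    · rintro ⟨q, rfl⟩
      exact ⟨_, ⟨q, rfl⟩, rfl⟩
    · rintro ⟨a, ⟨q, rfl⟩, rfl⟩
      exact ⟨q, rfl⟩
  · rw [← hfe t ht, mem_del]
    have : t.image (fun p => v.succAbove (f p)) = (t.image f).map v.succAboveEmb := by
      rw [map_eq_image, image_image]; rfl
    rw [this]

theorem pcop_del {m : ℕ} (v : Fin (m + 1)) (K : Finset (Finset (Fin (m + 1))))
    (Fs : List (Finset (Finset (Fin 6)))) (x y : Fin m) :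
    pcop Fs (del v K) x y ≤ pcop Fs K (v.succAbove x) (v.succAbove y) := by
  unfold pcop
  refine card_le_card_of_injOn (fun S => S.map v.succAboveEmb) ?_ ?_
  · intro S hS
    obtain ⟨-, ⟨hx, hy⟩, F, hF, hI⟩ := mem_filter.1 (mem_coe.1 hS)
    exact mem_coe.2 (mem_filter.2 ⟨mem_univ _, ⟨mem_map.2 ⟨x, hx, rfl⟩, mem_map.2 ⟨y, hy, rfl⟩⟩,
      F, hF, ind_del hI⟩)
  · intro S _ T _ h
    exact Finset.map_injective _ h

end

end Pool.Agent.R573.CL
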