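import Pool.Agent.R573.CL.Mor
import Pool.Agent.TH773.ST.CoMain

/-! The covering form of the exact result. -/

set_option autoImplicit false
set_option linter.unusedVariables false
set_option linter.unusedSectionVars false
set_option maxRecDepth 100000

open Finset
open scoped Classical

namespace Pool.Agent.R573.CL.Co
open Pool.Agent.TH773
open Pool.Agent.TH773.ST
open Pool.Agent.Y439.Loc (tnum)
open Pool.Agent.Y878.EX (Compl ind_compl)
open Pool.Agent.TH773.Cov (CoversQuadruples turanC Balanced f compl_turanC card_compl compl_inj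
  compl_free covers_turanC f_eq balanced_iff turanC_card card_turanC)

theorem F6_tnum (n : ℕ) : F6 ((n + 2) / 3) ((n + 1) / 3) (n / 3) = 6 * tnum n := by
  have key : ∀ a b c : ℕ, (F6 a b c : ℝ) =
      6 * ((a : ℝ) * b * c) + 3 * ((a : ℝ) * a * b + b * b * c + c * c * a) -
      3 * ((a : ℝ) * b + b * c + c * a) := by
    intro a b c
    have := F6_cast a b c
    exact_mod_cast this
  have h : (F6 ((n + 2) / 3) ((n + 1) / 3) (n / 3) : ℝ) = 6 * (tnum n : ℝ) := by
    obtain ⟨q, rfl | rfl | rfl⟩ := Pool.Agent.R105.TP.three_cases n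
    · have e0 : 3 * q / 3 = q := by omega
      have e1 : (3 * q + 1) / 3 = q := by omega
      have e2 : (3 * q + 2) / 3 = q := by omega
      rw [e0, e1, e2, key, Pool.Agent.R105.TP.tn0]
      ring
    · have e0 : (3 * q + 1) / 3 = q := by omega
      have e1 : (3 * q + 1 + 1) / 3 = q := by omega
      have e2 : (3 * q + 1 + 2) / 3 = q + 1 := by omega
      rw [e0, e1, e2, key, Pool.Agent.R105.TP.tn1]
      push_cast
      ring
    · have e0 : (3 * q + 2) / 3 = q := by omega
      have e1 : (3 * q + 2 + 1) / 3 = q + 1 := by omega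
      have e2 : (3 * q + 2 + 2) / 3 = q + 1 := by omega
      rw [e0, e1, e2, key, Pool.Agent.R105.TP.tn2]
      push_cast
      ring
  exact_mod_cast h

section
variable {n : ℕ}

/-- the six-sets through `x` and `y` which induce a member of the list -/
noncomputable def pairCopies (Fs : List (Finset (Finset (Fin 6)))) (G : Finset (Finset (Fin n)))
    (x y : Fin n) : ℕ :=
  ((univ : Finset (Finset (Fin n))).filter fun S =>
    (x ∈ S ∧ y ∈ S) ∧ ∃ F ∈ Fs, Cov.Induces F G S).card

theorem pair_compl {X Y : List (Finset (Finset (Fin 6)))} (hXY : Compl X Y)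
    (G : Finset (Finset (Fin n))) (x y : Fin n) :
    pairCopies Y G x y = pcop X ((univ : Finset (Fin n)).powersetCard 3 \ G) x y := by
  have key : ∀ S : Finset (Fin n), (∃ F ∈ Y, Cov.Induces F G S) ↔
      ∃ F ∈ X, Turan34.Induces F ((univ : Finset (Fin n)).powersetCard 3 \ G) S := by
    intro S
    constructor
    · rintro ⟨F', hF', hS⟩
      obtain ⟨F, hF, hc⟩ := hXY.yx F' hF'
      exact ⟨F, hF, (ind_compl hc S).mpr hS⟩
    · rintro ⟨F, hF, hS⟩
      obtain ⟨F', hF', hc⟩ := hXY.xy F hF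
      exact ⟨F', hF', (ind_compl hc S).mp hS⟩
  unfold pairCopies pcop
  congr 1
  exact filter_congr fun S _ => and_congr_right fun _ => key S

theorem no_turanC {X Y : List (Finset (Finset (Fin 6)))} (hXY : Compl X Y) (D : Lst X)
    (g : Fin n → Fin 3) {F : Finset (Finset (Fin 6))} (hF : F ∈ Y) (S : Finset (Fin n)) :
    ¬ Cov.Induces F (turanC g) S := by
  have h : Cov.Avoids Y (turanC g) := by
    rw [Pool.Agent.Y878.EX.avoids_iff hXY, compl_turanC]
    exact D.tur n _
  exact h F hF S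

end

/-- the covering form for one list -/
def Good (Y : List (Finset (Finset (Fin 6)))) (n : ℕ) : Prop :=
  ∀ G : Finset (Finset (Fin n)), (∀ e ∈ G, e.card = 3) → CoversQuadruples G →
    (∀ x y, x ≠ y → (pairCopies Y G x y : ℝ) ≤ c0 * (n : ℝ) ^ 4) →
      f n ≤ G.card ∧ (G.card = f n → ∃ g : Fin n → Fin 3, Balanced g ∧ G = turanC g)

theorem exact_one {X Y : List (Finset (Finset (Fin 6)))} (hXY : Compl X Y) (D : Lst X) :
    ∃ n0 : ℕ, ∀ n, n0 ≤ n → Good Y n := by
  obtain ⟨N, hN⟩ := exact_pairs D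
  refine ⟨max 16 N, fun n hn G hG hc hP => ?_⟩
  have h16 : 16 ≤ n := (le_max_left _ _).trans hn
  have hi : N ≤ n := (le_max_right _ _).trans hn
  have hH : ∀ e ∈ (univ : Finset (Fin n)).powersetCard 3 \ G, e.card = 3 :=
    fun e he => (mem_powersetCard.mp (mem_sdiff.mp he).1).2
  have h1 := hN n hi _ hH (compl_free hG hc) (fun x y hxy => by
    rw [← pair_compl hXY]; exact hP x y hxy)
  have h2 := card_compl hG
  have h3 := f_eq n (by omega)
  rw [F6_tnum] at h3
  refine ⟨by omega, fun heq => ?_⟩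
  obtain ⟨g, hg⟩ := h1.2 (by omega)
  refine ⟨fun v => -g v, ?_, ?_⟩
  · rw [balanced_iff]
    simp only [neg_neg]
    have hsz := Pt_add g
    rw [Fintype.card_fin] at hsz
    refine ((F6_le hsz h16).2).mp ?_
    have h4 := turan_card6 g
    rw [← hg] at h4
    rw [F6_tnum]
    omega
  · refine compl_inj hG (fun e he => turanC_card he) ?_
    rw [hg, compl_turanC]
    simp only [neg_neg]

theorem unif {α : Type} (P : α → ℕ → Prop) (L : List α)
    (h : ∀ a ∈ L, ∃ n0 : ℕ, ∀ n, n0 ≤ n → P a n) : ∃ n0 : ℕ, ∀ n, n0 ≤ n → ∀ a ∈ L, P a n := by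
  induction L with
  | nil => exact ⟨0, fun n _ a ha => absurd ha List.not_mem_nil⟩
  | cons b L ih =>
    obtain ⟨n1, h1⟩ := h b List.mem_cons_self
    obtain ⟨n2, h2⟩ := ih fun a ha => h a (List.mem_cons_of_mem _ ha)
    refine ⟨max n1 n2, fun n hn a ha => ?_⟩
    rcases List.mem_cons.mp ha with rfl | ha
    · exact h1 n ((le_max_left _ _).trans hn)
    · exact h2 n ((le_max_right _ _).trans hn) a ha

/-- the result for several lists -/
theorem exact_cov (Ls : List (List (Finset (Finset (Fin 6)))))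
    (h : ∀ Y ∈ Ls, ∃ X, Compl X Y ∧ Lst X) : ∃ c : ℝ, 0 < c ∧ ∃ n0 : ℕ, 16 ≤ n0 ∧
      ∀ n, n0 ≤ n → ∀ Y ∈ Ls, ∀ G : Finset (Finset (Fin n)), (∀ e ∈ G, e.card = 3) →
        CoversQuadruples G →
        (∀ x y, x ≠ y → (pairCopies Y G x y : ℝ) ≤ c * (n : ℝ) ^ 4) →
          f n ≤ G.card ∧ (G.card = f n → ∃ g : Fin n → Fin 3, Balanced g ∧ G = turanC g) := by
  obtain ⟨N, hN⟩ := unif Good Ls fun Y hY => by
    obtain ⟨X, hXY, D⟩ := h Y hY
    exact exact_one hXY D
  exact ⟨c0, c0_pos, max 16 N, le_max_left _ _, fun n hn Y hY =>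
    hN n ((le_max_right _ _).trans hn) Y hY⟩

end Pool.Agent.R573.CL.Co
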