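import Pool.Agent.R573.CL.Pat

/-! The configurations for the lists; small inner codegrees and uniqueness. -/

set_option autoImplicit false
set_option linter.unusedVariables false
set_option linter.unusedSectionVars false
set_option maxRecDepth 100000

open Finset
open scoped Classical

namespace Pool.Agent.R573.CL
open Pool.Agent.Y439.Loc hiding sum_nonneg'
open Pool.Agent.TH773
open Pool.Agent.TH773.Turan34 (K43Free turan Induces copies fam XA XB XC XD XE XF XG XH XI)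
open Pool.Agent.Y439
open Pool.Agent.Y903.TX
open Pool.Agent.R105.TP

theorem fA : Fit XA 0 ![0, 1, 1, 2] ![true, false, false, false] ![4, 5, 0, 2, 3, 1] :=
  ⟨by decide, by decide +kernel⟩
theorem fD : Fit XD 0 ![0, 1, 2, 2] ![true, false, false, false] ![4, 5, 0, 1, 2, 3] :=
  ⟨by decide, by decide +kernel⟩
theorem fH : Fit XH 0 ![0, 2, 2, 2] ![true, false, false, false] ![0, 4, 5, 1, 2, 3] :=
  ⟨by decide, by decide +kernel⟩
theorem fB : Fit XB 1 ![0, 1, 2, 2] ![true, true, false, false] ![4, 5, 1, 0, 2, 3] :=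
  ⟨by decide, by decide +kernel⟩
theorem fC : Fit XC 1 ![0, 0, 1, 2] ![true, true, true, false] ![4, 1, 2, 3, 0, 5] :=
  ⟨by decide, by decide +kernel⟩
theorem fE : Fit XE 1 ![0, 0, 2, 2] ![true, true, false, false] ![5, 0, 3, 4, 1, 2] :=
  ⟨by decide, by decide +kernel⟩
theorem fF : Fit XF 1 ![0, 2, 2, 2] ![true, false, false, false] ![1, 5, 0, 2, 3, 4] :=
  ⟨by decide, by decide +kernel⟩

/-- a list of 3-graphs on six vertices with the data for the exact result -/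
structure Lst (Fs : List (Finset (Finset (Fin 6)))) : Prop where
  cov : ∀ F ∈ Fs, Cov2 F
  stab : ∀ (n : ℕ) (H : Finset (Finset (Fin n))), (∀ e ∈ H, e.card = 3) → K43Free H →
    ∃ g : Fin n → Fin 3, n ^ 3 * (symmDiff H (turan g)).card + 1161216000 * (n ^ 3 * H.card) ≤
      107520000 * n ^ 6 + 83684966400 * copies Fs H
  tur : ∀ (n : ℕ) (g : Fin n → Fin 3), copies Fs (turan g) = 0
  inn : ∃ F ∈ Fs, ∃ (k : Fin 4 → Fin 3) (b : Fin 4 → Bool) (e : Fin 6 → Fin 6),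
    Fit F 0 k b e ∧ (k 2 ≠ 0 ∧ k 3 ≠ 0) ∧
      ∀ j : Fin 4, (k j = 0 ∧ b j = true) ∨ (k j = 1 ∧ b j = false) ∨ (k j = 2 ∧ b j = false)
  rev : ∃ F ∈ Fs, ∃ (k : Fin 4 → Fin 3) (b : Fin 4 → Bool) (e : Fin 6 → Fin 6),
    Fit F 1 k b e ∧
      ∀ j : Fin 4, (k j = 0 ∧ b j = true) ∨ (k j = 1 ∧ b j = true) ∨ (k j = 2 ∧ b j = false)

section
variable {n : ℕ} {H : Finset (Finset (Fin n))} {c : Fin n → Fin 3}

theorem big_pcop (A : Vx c (Loc.Rel H) (n : ℝ) sig0) {Fs : List (Finset (Finset (Fin 6)))}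
    {F : Finset (Finset (Fin 6))} (hF : F ∈ Fs)
    {d : Fin 3} {k : Fin 4 → Fin 3} {b : Fin 4 → Bool} {e : Fin 6 → Fin 6} (he : Fit F d k b e)
    {x y : Fin n} (hxy : x ≠ y) (hd : c y = c x + d)
    (hk : ∀ i, b i = true ∨ (k i ≠ 0 ∧ k i ≠ d))
    (h0 : (n : ℝ) / 3000 ≤ NN c (Loc.Rel H) x y (k 0) (b 0))
    (g1 : (n : ℝ) / 3000 ≤ NN c (Loc.Rel H) x y (k 1) (b 1))
    (g2 : (n : ℝ) / 5 ≤ NN c (Loc.Rel H) x y (k 2) (b 2))
    (g3 : (n : ℝ) / 5 ≤ NN c (Loc.Rel H) x y (k 3) (b 3)) :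
    (n : ℝ) ^ 4 / 10 ^ 12 ≤ (pcop Fs H x y : ℝ) := by
  have hp : (0 : ℝ) < n := A.pos
  have s := cfg_sum A hxy hd hk
  have p1 : (n : ℝ) / 3000 * (n / 3000) ≤
      NN c (Loc.Rel H) x y (k 0) (b 0) * NN c (Loc.Rel H) x y (k 1) (b 1) :=
    mul_le_mul h0 g1 (by positivity) (NN_nonneg _ _ _ _)
  have p2 := mul_le_mul p1 g2 (by positivity) (mul_nonneg (NN_nonneg _ _ _ _) (NN_nonneg _ _ _ _))
  have p3 := mul_le_mul p2 g3 (by positivity)
    (mul_nonneg (mul_nonneg (NN_nonneg _ _ _ _) (NN_nonneg _ _ _ _)) (NN_nonneg _ _ _ _))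
  have e1 : (n : ℝ) / 3000 * (n / 3000) * (n / 5) * (n / 5) = 1 / 225000000 * (n : ℝ) ^ 4 := by
    ring
  rw [e1] at p3
  have l := LL_le (H := H) hF he x y
  have hs : 22 * sig0 ^ 2 ≤ 1 / 10 ^ 10 := by unfold sig0; norm_num
  have hs' : 22 * sig0 ^ 2 * (n : ℝ) ^ 4 ≤ 1 / 10 ^ 10 * (n : ℝ) ^ 4 :=
    mul_le_mul_of_nonneg_right hs (by positivity)
  have hn4 : (0 : ℝ) < (n : ℝ) ^ 4 := by positivity
  have e2 : (n : ℝ) ^ 4 / 10 ^ 12 = 1 / 10 ^ 12 * (n : ℝ) ^ 4 := by ring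
  rw [e2]
  norm_num at hs' ⊢
  linarith

/-- two vertices of a class with a large inner codegree lie in many copies -/
theorem innerB (A : Vx c (Loc.Rel H) (n : ℝ) sig0) {Fs : List (Finset (Finset (Fin 6)))}
    (D : Lst Fs) {x y : Fin n} (hxy : x ≠ y) (hcon : (n : ℝ) / 3000 < io c (Loc.Rel H) x y) :
    (n : ℝ) ^ 4 / 10 ^ 12 ≤ (pcop Fs H x y : ℝ) := by
  have hp : (0 : ℝ) < n := A.pos
  have hcy : c y = c x := by
    by_contra hcy
    have : io c (Loc.Rel H) x y = 0 := sum_eq_zero fun z _ => ind_f fun h => hcy h.1.1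
    rw [this] at hcon
    have : 0 ≤ (n : ℝ) / 3000 := by positivity
    linarith
  obtain ⟨F, hF, k, b, e, he, ⟨hk2, hk3⟩, hj⟩ := D.inn
  -- few vertices of the next class
  have hP : ∑ w, ind (c w = c x + 1 ∧ Loc.Rel H x y w) ≤ (n : ℝ) / 100 := by
    have h1 : io c (Loc.Rel H) x y * ∑ w, ind (c w = c x + 1 ∧ Loc.Rel H x y w) ≤
        wr c (Loc.Rel H) x + wr c (Loc.Rel H) y := by
      unfold io wr
      rw [sum_mul_sum, ← sum_add_distrib]
      refine sum_le_sum fun u _ => ?_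
      rw [← sum_add_distrib]
      refine sum_le_sum fun w _ => ?_
      rw [ind_mul]
      refine ind_or ?_
      rintro ⟨⟨⟨-, hu⟩, hxyu⟩, hw, hxyw⟩
      by_contra hcon
      push Not at hcon
      obtain ⟨g1, g2⟩ := hcon
      have k1 := g1.2 (tu_two hu hw (A.S.ne13 hxyu))
      have k2 := g2.2 (tu_two (by rw [hu, hcy]) (by rw [hw, hcy]) (A.S.ne23 hxyu))
      exact A.S.k4 x y u w hxyu hxyw k1 k2
    have h2 := A.hw x
    have h3 := A.hw y
    have h4 : 0 ≤ ∑ w, ind (c w = c x + 1 ∧ Loc.Rel H x y w) := sum_nonneg' fun _ => ind_nonneg _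
    have h5 : (n : ℝ) / 3000 * ∑ w, ind (c w = c x + 1 ∧ Loc.Rel H x y w) ≤
        n / 3000 * (n / 100) := by
      have e1 := mul_le_mul_of_nonneg_right hcon.le h4
      have e2 : 2 * sig0 ^ 2 * (n : ℝ) ^ 2 ≤ 1 / 300000 * (n : ℝ) ^ 2 :=
        mul_le_mul_of_nonneg_right (by unfold sig0; norm_num) (by positivity)
      have e3 : (n : ℝ) / 3000 * (n / 100) = 1 / 300000 * (n : ℝ) ^ 2 := by ring
      rw [e3]
      linarith
    exact le_of_mul_le_mul_left h5 (by positivity)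
  have hQ : ∑ w, ind (c w = c x + 2 ∧ Loc.Rel H x y w) ≤ (n : ℝ) / 100 := by
    have h1 := Mp_le A sig0_pos x y hcy
    have h5 : 2 * sig0 * (n : ℝ) ≤ 1 / 100 * n :=
      mul_le_mul_of_nonneg_right (by unfold sig0; norm_num) hp.le
    unfold Mp at h1
    linarith
  have hN : ∀ q : Fin 3, ∑ w, ind (c w = c x + q ∧ Loc.Rel H x y w) ≤ (n : ℝ) / 100 →
      (n : ℝ) / 5 ≤ NN c (Loc.Rel H) x y q false := by
    intro q hq
    have h1 := size_prev A (show sig0 ≤ 1 / 100 by unfold sig0; norm_num) (c x + q)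
    have h2 : sz c (c x + q) ≤ NN c (Loc.Rel H) x y q false +
        ∑ w, ind (c w = c x + q ∧ Loc.Rel H x y w) := by
      unfold sz NN
      rw [← sum_add_distrib]
      refine sum_le_sum fun w _ => ind_or fun hw => ?_
      by_cases h : Loc.Rel H x y w
      · exact Or.inr ⟨hw, h⟩
      · exact Or.inl ⟨hw, iff_of_false h (by decide)⟩
    linarith
  have hU : (n : ℝ) / 3000 ≤ NN c (Loc.Rel H) x y 0 true := by
    refine hcon.le.trans (sum_le_sum fun w _ => ind_mono fun h => ⟨by rw [h.1.2, add_zero], ?_⟩)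
    exact iff_of_true h.2 rfl
  have hall : ∀ j, (n : ℝ) / 3000 ≤ NN c (Loc.Rel H) x y (k j) (b j) := by
    intro j
    have h5 : (n : ℝ) / 3000 ≤ n / 5 := by linarith
    rcases hj j with ⟨g1, g2⟩ | ⟨g1, g2⟩ | ⟨g1, g2⟩ <;> rw [g1, g2]
    exacts [hU, h5.trans (hN 1 hP), h5.trans (hN 2 hQ)]
  have hout : ∀ j, k j ≠ 0 → (n : ℝ) / 5 ≤ NN c (Loc.Rel H) x y (k j) (b j) := by
    intro j hj0
    rcases hj j with ⟨g1, g2⟩ | ⟨g1, g2⟩ | ⟨g1, g2⟩
    · exact absurd g1 hj0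
    · rw [g1, g2]; exact hN 1 hP
    · rw [g1, g2]; exact hN 2 hQ
  refine big_pcop A hF he hxy (by rw [hcy, add_zero]) (fun j => ?_) (hall 0) (hall 1)
    (hout 2 hk2) (hout 3 hk3)
  rcases hj j with ⟨g1, g2⟩ | ⟨g1, g2⟩ | ⟨g1, g2⟩
  · exact Or.inl g2
  · right; rw [g1]; decide
  · right; rw [g1]; decide

/-- small inner codegrees -/
theorem innerF (A : Vx c (Loc.Rel H) (n : ℝ) sig0) {Fs : List (Finset (Finset (Fin 6)))}
    (D : Lst Fs)
    (hc : ∀ x y, x ≠ y → (pcop Fs H x y : ℝ) < (n : ℝ) ^ 4 / 10 ^ 12) (x y : Fin n) :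
    io c (Loc.Rel H) x y ≤ (n : ℝ) / 3000 := by
  have hp : (0 : ℝ) < n := A.pos
  by_cases hxy : x = y
  · rw [← hxy, io_self A.S]; positivity
  by_contra hcon
  push Not at hcon
  exact absurd (hc x y hxy) (not_lt.2 (innerB A D hxy hcon))

/-- no reversed arcs -/
theorem uniqF (A : Vx c (Loc.Rel H) (n : ℝ) sig0) {Fs : List (Finset (Finset (Fin 6)))}
    (D : Lst Fs)
    (hc : ∀ x y, x ≠ y → (pcop Fs H x y : ℝ) < (n : ℝ) ^ 4 / 10 ^ 12)
    {rev : Fin n → Fin n → Bool} (hF : ∀ x y z, Loc.Rel H x y z ↔ FD c rev x y z)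
    (x y z : Fin n) : Loc.Rel H x y z ↔ Tu c x y z := by
  have hp : (0 : ℝ) < n := A.pos
  refine uniq2 A hF (fun x y hxy h0 h1 h2 => ?_) x y z
  obtain ⟨F, hFm, k, b, e, he, hj⟩ := D.rev
  have hne : x ≠ y := fun e => fin3_ne1 (c x) (by rw [← hxy, ← e])
  have hN : ∀ j : Fin 4, (n : ℝ) / 5 ≤ NN c (Loc.Rel H) x y (k j) (b j) := by
    intro j
    rcases hj j with ⟨g1, g2⟩ | ⟨g1, g2⟩ | ⟨g1, g2⟩
    · rw [g1, g2]
      refine h1.trans (sum_le_sum fun w _ => ind_mono fun h => ⟨by rw [h.1, add_zero], ?_⟩)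
      exact iff_of_true h.2 rfl
    · rw [g1, g2]
      refine h2.trans (sum_le_sum fun w _ => ind_mono fun h => ⟨by rw [h.1, hxy], ?_⟩)
      exact iff_of_true h.2 rfl
    · rw [g1, g2]
      refine h0.trans (sum_le_sum fun w _ => ind_mono fun h => ⟨h.1, ?_⟩)
      exact iff_of_false h.2 (by decide)
  have h5 : (n : ℝ) / 3000 ≤ n / 5 := by linarith
  have h := big_pcop A hFm he hne hxy (fun j => ?_) (h5.trans (hN 0)) (h5.trans (hN 1))
    (hN 2) (hN 3)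
  · exact absurd (hc x y hne) (not_lt.2 h)
  · rcases hj j with ⟨g1, g2⟩ | ⟨g1, g2⟩ | ⟨g1, g2⟩
    · exact Or.inl g2
    · exact Or.inl g2
    · right; rw [g1]; decide

end

end Pool.Agent.R573.CL
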