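import Pool.Agent.R573.CL.Dat

/-! Exact Turán numbers for 3-graphs in which every pair of vertices lies in few copies. (The deletion
of vertices is that of `Pool.Agent.R105.TP.Del2`, for conditions that depend on the number of vertices
at the start.) -/

set_option autoImplicit false
set_option linter.unusedVariables false
set_option linter.unusedSectionVars false
set_option maxRecDepth 100000

open Finset
open scoped Classical

namespace Pool.Agent.R573.CL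
open Pool.Agent.Y439.Loc hiding sum_nonneg'
open Pool.Agent.TH773
open Pool.Agent.TH773.Turan34 (K43Free turan Induces copies fam)
open Pool.Agent.Y439
open Pool.Agent.Y903.TX
open Pool.Agent.R105.TP

/-- a hereditary class of 3-graphs, depending on the number `N` of vertices at the start, for which
stability and the bound for large minimum degree hold -/
structure ClsB (P : ℕ → ∀ n, Finset (Finset (Fin n)) → Prop) (K : ℝ)
    (Q : ∀ n, Finset (Finset (Fin n)) → Prop) : Prop where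
  K0 : 0 ≤ K
  her : ∀ (N m : ℕ) (v : Fin (m + 1)) (H : Finset (Finset (Fin (m + 1)))), P N (m + 1) H →
    P N m (del v H)
  stab : ∀ N n : ℕ, 0 < n → N ≤ 2 * n →
    ∀ H : Finset (Finset (Fin n)), (∀ e ∈ H, e.card = 3) → K43Free H → P N n H →
      (H.card : ℝ) ≤ (5 / 54 + eps0 ^ 2 / 72) * (n : ℝ) ^ 3 ∧
      ∃ g : Fin n → Fin 3, ((symmDiff H (turan g)).card : ℝ) ≤
        K * (5 / 54 * (n : ℝ) ^ 3 - H.card) + eps0 ^ 2 / 72 * (n : ℝ) ^ 3
  core : ∀ N n : ℕ, 0 < n → N ≤ 2 * n → ∀ (H : Finset (Finset (Fin n))) (g : Fin n → Fin 3),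
    (∀ e ∈ H, e.card = 3) → K43Free H → P N n H → 1 ≤ eps0 * n →
    ((symmDiff H (turan g)).card : ℝ) ≤ (eps0 / 6) ^ 2 * (n : ℝ) ^ 3 →
    (5 / 54 - (eps0 / 6) ^ 2) * (n : ℝ) ^ 3 ≤ (H.card : ℝ) →
    (∀ v, (5 / 18 - eps0 / 2) * (n : ℝ) ^ 2 ≤ ((H.filter fun e => v ∈ e).card : ℝ)) →
    H.card ≤ tnum n ∧ (H.card = tnum n → Q n H)

theorem exact_of_clsB {P : ℕ → ∀ n, Finset (Finset (Fin n)) → Prop} {K : ℝ}
    {Q : ∀ n, Finset (Finset (Fin n)) → Prop} (C : ClsB P K Q) : ∃ n0 : ℕ, ∀ n, n0 ≤ n →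
      ∀ H : Finset (Finset (Fin n)), (∀ e ∈ H, e.card = 3) → K43Free H → P n n H →
        tnum n ≤ H.card → H.card = tnum n ∧ Q n H := by
  have he0 := eps0_pos
  have he1 : eps0 ≤ 1 := eps_small.trans (by norm_num)
  have hK0 := C.K0
  obtain ⟨γ, hγ⟩ : ∃ γ : ℝ, γ = eps0 / 16 := ⟨_, rfl⟩
  obtain ⟨δ, hδ⟩ : ∃ δ : ℝ, δ = eps0 / 6 := ⟨_, rfl⟩
  have hγ0 : 0 < γ := by rw [hγ]; positivity
  have hδ0 : 0 < δ := by rw [hδ]; positivity
  obtain ⟨ε, hε⟩ : ∃ ε : ℝ, ε = eps0 ^ 2 / 72 := ⟨_, rfl⟩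
  have hε0 : 0 < ε := by rw [hε]; positivity
  have hε1 : ε ≤ δ ^ 2 / 2 := by rw [hε, hδ]; exact le_of_eq (by ring)
  have hε2 : ε ≤ γ / 8 := by
    rw [hε, hγ]
    have := mul_le_mul_of_nonneg_left eps_small he0.le
    linarith
  obtain ⟨n1, hn1⟩ := exists_nat_ge (16 / eps0 + 4 / δ ^ 2 * (K + 1) + 16 / γ + 16)
  refine ⟨max n1 2, fun n hn H hH hK hP hcard => ?_⟩
  have hnN : 2 ≤ n := (le_max_right _ _).trans hn
  have hst := fun m (hm : 0 < m) (hm2 : n ≤ 2 * m) => C.stab n m hm hm2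
  rw [← hε] at hst
  have hn1' : 16 / eps0 + 4 / δ ^ 2 * (K + 1) + 16 / γ + 16 ≤ (n : ℝ) :=
    hn1.trans (by exact_mod_cast (le_max_left _ _).trans hn)
  have hb1 : 16 ≤ eps0 * n := by
    have h1 : 16 / eps0 ≤ (n : ℝ) := by
      have : 0 ≤ 4 / δ ^ 2 * (K + 1) + 16 / γ + 16 := by positivity
      linarith
    rw [div_le_iff₀ he0] at h1
    linarith
  have hb2 : 4 * (K + 1) ≤ δ ^ 2 * n := by
    have h1 : 4 / δ ^ 2 * (K + 1) ≤ (n : ℝ) := by
      have : 0 ≤ 16 / eps0 + 16 / γ + 16 := by positivity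
      linarith
    have h2 := mul_le_mul_of_nonneg_left h1 (show (0 : ℝ) ≤ δ ^ 2 by positivity)
    have h3 : δ ^ 2 * (4 / δ ^ 2 * (K + 1)) = 4 * (K + 1) := by field_simp
    linarith
  have hb3 : 16 ≤ γ * n := by
    have h1 : 16 / γ ≤ (n : ℝ) := by
      have : 0 ≤ 16 / eps0 + 4 / δ ^ 2 * (K + 1) + 16 := by positivity
      linarith
    rw [div_le_iff₀ hγ0] at h1
    linarith
  have hn16 : (16 : ℝ) ≤ n := by
    have : 0 ≤ 16 / eps0 + 4 / δ ^ 2 * (K + 1) + 16 / γ := by positivity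
    linarith
  have hn0 : (0 : ℝ) < n := by linarith
  -- either all is well or there is a vertex of small degree
  have step : ∀ m : ℕ, n ≤ 2 * m → m ≤ n → ∀ H' : Finset (Finset (Fin m)),
      (∀ e ∈ H', e.card = 3) → K43Free H' → P n m H' →
      tnum m ≤ H'.card → (H'.card = tnum m ∧ Q m H') ∨
        ∃ v, ((H'.filter fun e => v ∈ e).card : ℝ) < (5 / 18 - eps0 / 2) * (m : ℝ) ^ 2 := by
    intro m hm hmn H' hH' hK' hP' hc'
    by_cases hlow : ∃ v, ((H'.filter fun e => v ∈ e).card : ℝ) < (5 / 18 - eps0 / 2) * (m : ℝ) ^ 2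
    · exact Or.inr hlow
    left
    push Not at hlow
    have hm' : (n : ℝ) ≤ 2 * m := by exact_mod_cast hm
    obtain ⟨-, g, hg⟩ := hst m (by omega) hm H' hH' hK' hP'
    have hc2 : (tnum m : ℝ) ≤ (H'.card : ℝ) := by exact_mod_cast hc'
    have hl := tnum_low m
    have hm0 : (0 : ℝ) ≤ m := Nat.cast_nonneg m
    have hd1 : 2 * (K + 1) ≤ δ ^ 2 * m := by
      have := mul_le_mul_of_nonneg_left hm' (show (0 : ℝ) ≤ δ ^ 2 by positivity)
      linarith
    have hd2 : 2 * (K + 1) * (m : ℝ) ^ 2 ≤ δ ^ 2 * (m : ℝ) ^ 3 := by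
      have := mul_le_mul_of_nonneg_right hd1 (show (0 : ℝ) ≤ (m : ℝ) ^ 2 by positivity)
      calc 2 * (K + 1) * (m : ℝ) ^ 2 ≤ δ ^ 2 * m * (m : ℝ) ^ 2 := this
        _ = δ ^ 2 * (m : ℝ) ^ 3 := by ring
    have hgap : 5 / 54 * (m : ℝ) ^ 3 - H'.card ≤ (m : ℝ) ^ 2 := by linarith
    have k1 : K * (5 / 54 * (m : ℝ) ^ 3 - H'.card) ≤ K * (m : ℝ) ^ 2 :=
      mul_le_mul_of_nonneg_left hgap hK0
    have k2 : ε * (m : ℝ) ^ 3 ≤ δ ^ 2 / 2 * (m : ℝ) ^ 3 :=
      mul_le_mul_of_nonneg_right hε1 (by positivity)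
    have k3 : 0 ≤ (m : ℝ) ^ 2 := by positivity
    have k4 : 0 ≤ K * (m : ℝ) ^ 2 := by positivity
    have he' : 1 ≤ eps0 * m := by
      have := mul_le_mul_of_nonneg_left hm' he0.le
      linarith
    have h := C.core n m (by omega) hm H' g hH' hK' hP' he' (by rw [← hδ]; linarith) (by rw [← hδ]; linarith)
      hlow
    have heq : H'.card = tnum m := le_antisymm h.1 hc'
    exact ⟨heq, h.2 heq⟩
  -- deletion
  have next : ∀ m : ℕ, n ≤ 2 * (m + 1) → ∀ (H' : Finset (Finset (Fin (m + 1)))) (v : Fin (m + 1))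
      (a : ℝ), ((H'.filter fun e => v ∈ e).card : ℝ) <
        (5 / 18 - eps0 / 2) * ((m + 1 : ℕ) : ℝ) ^ 2 →
      (tnum (m + 1) : ℝ) + a ≤ (H'.card : ℝ) →
      (tnum m : ℝ) + (a + γ * (n : ℝ) ^ 2) ≤ ((del v H').card : ℝ) := by
    intro m hm H' v a hv ha
    have hm' : (n : ℝ) ≤ 2 * ((m : ℝ) + 1) := by exact_mod_cast hm
    have h1 : ((del v H').card : ℝ) + ((H'.filter fun e => v ∈ e).card : ℝ) = (H'.card : ℝ) := by
      exact_mod_cast del_card v H'
    have h2 := tnum_step m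
    push_cast at hv
    have h3 : eps0 / 8 * n ≤ eps0 / 2 * ((m : ℝ) + 1) - 2 := by
      have := mul_le_mul_of_nonneg_left hm' he0.le
      linarith
    have h4 : eps0 / 16 * (n : ℝ) ^ 2 ≤ ((m : ℝ) + 1) * (eps0 / 2 * ((m : ℝ) + 1) - 2) := by
      have e1 : (n : ℝ) / 2 ≤ (m : ℝ) + 1 := by linarith
      have e2 := mul_le_mul e1 h3 (by positivity) (by linarith)
      calc eps0 / 16 * (n : ℝ) ^ 2 = (n : ℝ) / 2 * (eps0 / 8 * n) := by ring
        _ ≤ _ := e2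
    rw [hγ]
    have hm0 : (0 : ℝ) ≤ m := Nat.cast_nonneg m
    linarith
  -- no 3-graph with too many edges
  have no : ∀ m : ℕ, n ≤ 2 * m → m < n → ∀ H' : Finset (Finset (Fin m)),
      (∀ e ∈ H', e.card = 3) → K43Free H' → P n m H' →
      ¬ ((tnum m : ℝ) + γ * ((n : ℝ) - m) * (n : ℝ) ^ 2 ≤ (H'.card : ℝ)) := by
    intro m
    induction m with
    | zero =>
      intro h1 h2
      omega
    | succ m ih =>
      intro h1 h2 H' hH' hK' hP' hcon
      have hmn : ((m + 1 : ℕ) : ℝ) + 1 ≤ n := by exact_mod_cast h2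
      have hpos : 0 < γ * ((n : ℝ) - ((m + 1 : ℕ) : ℝ)) * (n : ℝ) ^ 2 := by
        have : 0 < (n : ℝ) - ((m + 1 : ℕ) : ℝ) := by linarith
        positivity
      by_cases hm : n ≤ 2 * m
      · have hle : tnum (m + 1) ≤ H'.card := by
          have : (tnum (m + 1) : ℝ) ≤ (H'.card : ℝ) := by linarith
          exact_mod_cast this
        rcases step (m + 1) h1 h2.le H' hH' hK' hP' hle with h | ⟨v, hv⟩
        · have : (H'.card : ℝ) = (tnum (m + 1) : ℝ) := by exact_mod_cast h.1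
          linarith
        · have h3 := next m h1 H' v _ hv hcon
          refine ih hm (by omega) (del v H') (del_unif hH') (del_free hK')
            (C.her n m v H' hP') (le_trans (le_of_eq ?_) h3)
          push_cast
          ring
      · obtain ⟨h3, -⟩ := hst (m + 1) (by omega) h1 H' hH' hK' hP'
        have h4 := tnum_low (m + 1)
        have h5 : 2 * m + 1 ≤ n := by omega
        have h6 : 2 * (m : ℝ) + 1 ≤ n := by exact_mod_cast h5
        have hM : ((m + 1 : ℕ) : ℝ) ≤ n := by linarith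
        have hM0 : (0 : ℝ) ≤ ((m + 1 : ℕ) : ℝ) := Nat.cast_nonneg _
        have h7 : (n : ℝ) / 4 ≤ (n : ℝ) - ((m + 1 : ℕ) : ℝ) := by push_cast; linarith
        have h8 : γ * ((n : ℝ) / 4) * (n : ℝ) ^ 2 ≤
            γ * ((n : ℝ) - ((m + 1 : ℕ) : ℝ)) * (n : ℝ) ^ 2 :=
          mul_le_mul_of_nonneg_right (mul_le_mul_of_nonneg_left h7 hγ0.le) (by positivity)
        have h9 : ε * ((m + 1 : ℕ) : ℝ) ^ 3 ≤ γ / 8 * (n : ℝ) ^ 3 :=
          mul_le_mul hε2 (pow_le_pow_left₀ hM0 hM 3) (by positivity) (by positivity)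
        have h10 : ((m + 1 : ℕ) : ℝ) ^ 2 ≤ (n : ℝ) ^ 2 := pow_le_pow_left₀ hM0 hM 2
        have h12 : 16 * (n : ℝ) ^ 2 ≤ γ * n * (n : ℝ) ^ 2 :=
          mul_le_mul_of_nonneg_right hb3 (by positivity)
        have h13 : 0 < (n : ℝ) ^ 2 := by positivity
        linarith
  -- the conclusion
  rcases step n (by omega) le_rfl H hH hK hP hcard with h | ⟨v, hv⟩
  · exact h
  · exfalso
    obtain ⟨m, rfl⟩ : ∃ m, n = m + 1 := ⟨n - 1, by omega⟩
    have hcard' : ((tnum (m + 1) : ℕ) : ℝ) + 0 ≤ (H.card : ℝ) := by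
      rw [add_zero]; exact_mod_cast hcard
    have h3 := next m (by omega) H v 0 hv hcard'
    refine no m (by omega) (by omega) (del v H) (del_unif hH) (del_free hK)
      (C.her _ m v H hP) (le_trans (le_of_eq ?_) h3)
    push_cast
    ring


section
variable {n : ℕ} {H : Finset (Finset (Fin n))}

/-- the constant -/
noncomputable def c0 : ℝ := eps0 ^ 2 / 10 ^ 15

theorem c0_pos : 0 < c0 := by
  have := eps0_pos
  unfold c0; positivity

theorem eps_sq : eps0 ^ 2 ≤ eps0 := by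
  have h1 : eps0 ≤ 1 := eps_small.trans (by norm_num)
  have := mul_le_mul_of_nonneg_left h1 eps0_pos.le
  linarith [sq eps0]

theorem copies_B {Fs : List (Finset (Finset (Fin 6)))} {N : ℕ} (hN : N ≤ 2 * n)
    (hP : ∀ x y, x ≠ y → (pcop Fs H x y : ℝ) ≤ c0 * (N : ℝ) ^ 4) :
    ∃ B : ℕ, (B : ℝ) ≤ 16 * c0 * (n : ℝ) ^ 4 ∧ (∀ x, vcop Fs H x ≤ n * B) ∧
      copies Fs H ≤ n * (n * B) := by
  have hc := c0_pos
  refine ⟨⌊c0 * (N : ℝ) ^ 4⌋₊, ?_, ?_⟩
  · refine (Nat.floor_le (by positivity)).trans ?_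
    have h1 : (N : ℝ) ≤ 2 * n := by exact_mod_cast hN
    have h2 : (N : ℝ) ^ 4 ≤ (2 * n) ^ 4 := pow_le_pow_left₀ (Nat.cast_nonneg _) h1 4
    calc c0 * (N : ℝ) ^ 4 ≤ c0 * (2 * n) ^ 4 := mul_le_mul_of_nonneg_left h2 hc.le
      _ = 16 * c0 * (n : ℝ) ^ 4 := by ring
  · have h1 : ∀ x, vcop Fs H x ≤ n * ⌊c0 * (N : ℝ) ^ 4⌋₊ := fun x =>
      vcop_le Fs x fun y hxy => Nat.le_floor (hP x y hxy)
    exact ⟨h1, copies_le Fs h1⟩

theorem stab_real {Fs : List (Finset (Finset (Fin 6)))} (D : Lst Fs)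
    (h3 : ∀ e ∈ H, e.card = 3) (hK : K43Free H) (hn : 0 < n) {a : ℝ}
    (ha : 83684966400 * (copies Fs H : ℝ) ≤ a * (n : ℝ) ^ 6) :
    ∃ g : Fin n → Fin 3, ((symmDiff H (turan g)).card : ℝ) ≤
      KK * (5 / 54 * (n : ℝ) ^ 3 - H.card) + a * (n : ℝ) ^ 3 := by
  obtain ⟨g, hg⟩ := D.stab n H h3 hK
  refine ⟨g, ?_⟩
  have h1 : (n : ℝ) ^ 3 * ((symmDiff H (turan g)).card : ℝ) +
      1161216000 * ((n : ℝ) ^ 3 * (H.card : ℝ)) ≤
      107520000 * (n : ℝ) ^ 6 + 83684966400 * (copies Fs H : ℝ) := by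
    exact_mod_cast hg
  have hn' : (0 : ℝ) < n := by exact_mod_cast hn
  have h2 : (n : ℝ) ^ 3 * ((symmDiff H (turan g)).card : ℝ) ≤
      (n : ℝ) ^ 3 * (KK * (5 / 54 * (n : ℝ) ^ 3 - H.card) + a * (n : ℝ) ^ 3) := by
    have e1 : (n : ℝ) ^ 3 * (KK * (5 / 54 * (n : ℝ) ^ 3 - H.card) + a * (n : ℝ) ^ 3) =
        107520000 * (n : ℝ) ^ 6 + a * (n : ℝ) ^ 6 - 1161216000 * ((n : ℝ) ^ 3 * (H.card : ℝ)) := by
      unfold KK
      ring
    rw [e1]
    linarith
  exact le_of_mul_le_mul_left h2 (by positivity)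

theorem c0_le : 83684966400 * (16 * c0) ≤ eps0 ^ 2 / 72 := by
  have h1 : 0 ≤ eps0 ^ 2 := by positivity
  have e1 : 83684966400 * (16 * c0) = 83684966400 * 16 / 10 ^ 15 * eps0 ^ 2 := by
    unfold c0; ring
  rw [e1]
  have h2 : (83684966400 : ℝ) * 16 / 10 ^ 15 ≤ 1 / 72 := by norm_num
  have := mul_le_mul_of_nonneg_right h2 h1
  linarith

theorem cls_B {Fs : List (Finset (Finset (Fin 6)))} (D : Lst Fs) :
    ClsB (fun N n H => ∀ x y, x ≠ y → (pcop Fs H x y : ℝ) ≤ c0 * (N : ℝ) ^ 4) KK TurG where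
  K0 := by unfold KK; norm_num
  her N m v H hP x y hxy := by
    have h1 := hP (v.succAbove x) (v.succAbove y)
      (fun e => hxy (Fin.succAbove_right_injective e))
    have h2 : (pcop Fs (del v H) x y : ℝ) ≤
        (pcop Fs H (v.succAbove x) (v.succAbove y) : ℝ) := by
      exact_mod_cast pcop_del v H Fs x y
    exact h2.trans h1
  stab N n hn hN H hH hK hP := by
    obtain ⟨B, hB, -, hc⟩ := copies_B hN hP
    have hn' : (0 : ℝ) < n := by exact_mod_cast hn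
    have h1 : (copies Fs H : ℝ) ≤ n * (n * B) := by exact_mod_cast hc
    have h2 : (copies Fs H : ℝ) ≤ 16 * c0 * (n : ℝ) ^ 6 := by
      refine h1.trans ?_
      calc (n : ℝ) * (n * B) = n ^ 2 * B := by ring
        _ ≤ n ^ 2 * (16 * c0 * (n : ℝ) ^ 4) := mul_le_mul_of_nonneg_left hB (by positivity)
        _ = _ := by ring
    have h3 : 83684966400 * (copies Fs H : ℝ) ≤ eps0 ^ 2 / 72 * (n : ℝ) ^ 6 := by
      have e1 := mul_le_mul_of_nonneg_right c0_le (show (0 : ℝ) ≤ (n : ℝ) ^ 6 by positivity)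
      linarith
    obtain ⟨g, hg⟩ := stab_real D hH hK hn h3
    refine ⟨?_, g, hg⟩
    have h4 : (0 : ℝ) ≤ ((symmDiff H (turan g)).card : ℝ) := Nat.cast_nonneg _
    have h5 : 0 ≤ eps0 ^ 2 / 72 * (n : ℝ) ^ 3 := by positivity
    have h6 : KK = 1161216000 := rfl
    rw [h6] at hg
    linarith
  core N n hn hN H g hH hK hP hn1 h1 h2 hdeg := by
    obtain ⟨B, hB, hv, hc⟩ := copies_B hN hP
    have hn' : (0 : ℝ) < n := by exact_mod_cast hn
    have hc0 := c0_pos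
    have hst : ClnStab H := by
      intro v m hm
      refine stab_real D (cln_unif v m) (cln_free hH hK v m) (by omega) ?_
      have k1 := copies_cln hH D.cov v m
      have k2 : copies Fs (cln v m H) ≤ n * (n * B) + m * (n * B) :=
        k1.trans (add_le_add hc (Nat.mul_le_mul_left _ (hv v)))
      have k3 : (copies Fs (cln v m H) : ℝ) ≤ n * (n * B) + m * (n * B) := by
        exact_mod_cast k2
      have hnm : (n : ℝ) ≤ ((n + m : ℕ) : ℝ) := by push_cast; linarith [Nat.cast_nonneg (α := ℝ) m]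
      have k4 : (copies Fs (cln v m H) : ℝ) ≤ 16 * c0 * ((n + m : ℕ) : ℝ) ^ 6 := by
        refine k3.trans ?_
        have a1 : (n : ℝ) ^ 5 ≤ ((n + m : ℕ) : ℝ) ^ 5 := pow_le_pow_left₀ hn'.le hnm 5
        calc (n : ℝ) * (n * B) + m * (n * B) = ((n + m : ℕ) : ℝ) * n * B := by push_cast; ring
          _ ≤ ((n + m : ℕ) : ℝ) * n * (16 * c0 * (n : ℝ) ^ 4) :=
            mul_le_mul_of_nonneg_left hB (by positivity)
          _ = 16 * c0 * ((n + m : ℕ) : ℝ) * (n : ℝ) ^ 5 := by ring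
          _ ≤ 16 * c0 * ((n + m : ℕ) : ℝ) * ((n + m : ℕ) : ℝ) ^ 5 :=
            mul_le_mul_of_nonneg_left a1 (by positivity)
          _ = _ := by ring
      have k5 : eps0 ^ 2 / 72 ≤ th0 ^ 2 := by
        have e1 : eps0 ≤ th0 ^ 2 := eps_le.trans (by unfold th0; norm_num)
        have e2 := eps_sq
        have e3 : 0 ≤ eps0 ^ 2 := by positivity
        linarith
      have k6 := mul_le_mul_of_nonneg_right (c0_le.trans k5)
        (show (0 : ℝ) ≤ ((n + m : ℕ) : ℝ) ^ 6 by positivity)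
      linarith
    obtain ⟨c, A⟩ := vx_cln hst hH hK hn1 g h1 h2 hdeg
    have hc' : ∀ x y, x ≠ y → (pcop Fs H x y : ℝ) < (n : ℝ) ^ 4 / 10 ^ 12 := by
      intro x y hxy
      have a1 : (N : ℝ) ≤ 2 * n := by exact_mod_cast hN
      have a2 : (N : ℝ) ^ 4 ≤ (2 * n) ^ 4 := pow_le_pow_left₀ (Nat.cast_nonneg _) a1 4
      have a3 := mul_le_mul_of_nonneg_left a2 hc0.le
      have a4 := hP x y hxy
      have a5 : (0 : ℝ) < (n : ℝ) ^ 4 := by positivity
      have a6 : c0 ≤ 1 / 10 ^ 15 := by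
        have e1 : eps0 ≤ 1 := eps_small.trans (by norm_num)
        have e2 := eps_sq
        unfold c0
        exact div_le_div_of_nonneg_right (by linarith) (by positivity)
      have a7 : c0 * (2 * (n : ℝ)) ^ 4 ≤ 1 / 10 ^ 15 * (2 * (n : ℝ)) ^ 4 :=
        mul_le_mul_of_nonneg_right a6 (by positivity)
      have a8 : (1 : ℝ) / 10 ^ 15 * (2 * (n : ℝ)) ^ 4 = 16 / 10 ^ 15 * (n : ℝ) ^ 4 := by ring
      have a9 : (16 : ℝ) / 10 ^ 15 * (n : ℝ) ^ 4 < (n : ℝ) ^ 4 / 10 ^ 12 := by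
        have : (n : ℝ) ^ 4 / 10 ^ 12 = 1 / 10 ^ 12 * (n : ℝ) ^ 4 := by ring
        rw [this]
        exact mul_lt_mul_of_pos_right (by norm_num) a5
      linarith
    have h := near_apply A (n / 3) (n % 3) (n_div n) (by omega) (innerF A D hc')
    rw [total_count H hH, ← tnum_TT n] at h
    refine ⟨?_, fun heq => ?_⟩
    · have h1 : (H.card : ℝ) ≤ (tnum n : ℝ) := by linarith [h.1]
      exact_mod_cast h1
    · have h1 : 6 * (H.card : ℝ) = 6 * (tnum n : ℝ) := by rw [heq]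
      obtain ⟨rev, hrel⟩ := h.2 h1
      have hT := uniqF A D hc' hrel
      refine ⟨c, ?_⟩
      ext e
      constructor
      · intro he
        obtain ⟨x, y, z, n1, n2, n3, rfl⟩ := card_eq_three.1 (hH e he)
        exact ((rel_tgraph c x y z).2 ((hT x y z).1 ⟨n1, n3, n2, he⟩)).2.2.2
      · intro he
        have h3 : e.card = 3 := by
          unfold tgraph at he
          exact (mem_filter.mp he).2.1
        obtain ⟨x, y, z, n1, n2, n3, rfl⟩ := card_eq_three.1 h3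
        exact ((hT x y z).2 ((rel_tgraph c x y z).1 ⟨n1, n3, n2, he⟩)).2.2.2

end

/-- **The exact numbers.** -/
theorem exact_pairs {Fs : List (Finset (Finset (Fin 6)))} (D : Lst Fs) :
    ∃ n0 : ℕ, ∀ n, n0 ≤ n → ∀ H : Finset (Finset (Fin n)), (∀ e ∈ H, e.card = 3) → K43Free H →
      (∀ x y, x ≠ y → (pcop Fs H x y : ℝ) ≤ c0 * (n : ℝ) ^ 4) →
        H.card ≤ tnum n ∧ (H.card = tnum n → ∃ g : Fin n → Fin 3, H = turan g) := by
  obtain ⟨n0, h⟩ := exact_of_clsB (cls_B D)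
  refine ⟨n0, fun n hn H h3 hK hP => ?_⟩
  by_cases hc : tnum n ≤ H.card
  · obtain ⟨h1, g, hg⟩ := h n hn H h3 hK hP hc
    exact ⟨h1.le, fun _ => ⟨g, by rw [turan_tgraph]; exact hg⟩⟩
  · have h1 := not_le.1 hc
    exact ⟨h1.le, fun h => absurd h h1.ne⟩

end Pool.Agent.R573.CL
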