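import Pool.Agent.R573.CL.Cln

/-! The link of a vertex of large degree is near a link of Turán's construction. -/

set_option autoImplicit false
set_option linter.unusedVariables false
set_option linter.unusedSectionVars false
set_option maxRecDepth 100000

open Finset
open scoped Classical

namespace Pool.Agent.R573.CL
open Pool.Agent.Y439.Loc hiding sum_nonneg'
open Pool.Agent.TH773
open Pool.Agent.Y439
open Pool.Agent.Y903.TX
open Pool.Agent.R105.TP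

/-- the proportion of the copies -/
noncomputable def th0 : ℝ := 1 / 10 ^ 100

theorem th0_pos : 0 < th0 := by unfold th0; positivity

theorem eps_le : eps0 ≤ 1 / 10 ^ 202 := by
  unfold eps0
  exact one_div_le_one_div_of_le (by positivity) (pow_le_pow_right₀ (by norm_num) (by norm_num))

/-- stability for the 3-graphs with copies of a vertex -/
def ClnStab {n : ℕ} (H : Finset (Finset (Fin n))) : Prop :=
  ∀ (v : Fin n) (m : ℕ), (m : ℝ) ≤ 2 * (th0 * n) → ∃ g' : Fin (n + m) → Fin 3,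
    ((symmDiff (cln v m H) (Turan34.turan g')).card : ℝ) ≤
      KK * (5 / 54 * ((n + m : ℕ) : ℝ) ^ 3 - (cln v m H).card) + th0 ^ 2 * ((n + m : ℕ) : ℝ) ^ 3

theorem link_cln {n : ℕ} {H : Finset (Finset (Fin n))} (hst : ClnStab H)
    (hH : ∀ e ∈ H, e.card = 3)
    (hK : Turan34.K43Free H) (hn : 1 ≤ eps0 * (n : ℝ))
    {g : Fin n → Fin 3} (A : Near g (Loc.Rel H) (n : ℝ) eps0)
    (hc : (5 / 54 - (eps0 / 6) ^ 2) * (n : ℝ) ^ 3 ≤ (H.card : ℝ)) (v : Fin n)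
    (hdeg : (5 / 9 - eps0) * (n : ℝ) ^ 2 ≤ deg (Loc.Rel H) v) :
    ∃ k, wr (Function.update g v k) (Loc.Rel H) v ≤ 180 * tau0 * (n : ℝ) ^ 2 := by
  have hp : (0 : ℝ) < n := A.pos
  have ht := th0_pos
  have he := eps0_pos
  have het : eps0 ≤ th0 ^ 2 / 100 := eps_le.trans (by unfold th0; norm_num)
  have ht1 : th0 ≤ 1 / 100 := by unfold th0; norm_num
  have het' : eps0 ≤ th0 := by nlinarith
  obtain ⟨m, hm⟩ : ∃ m : ℕ, m = ⌈th0 * (n : ℝ)⌉₊ := ⟨_, rfl⟩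
  have hm1 : th0 * (n : ℝ) ≤ (m : ℝ) := by rw [hm]; exact Nat.le_ceil _
  have h1t : 1 ≤ th0 * (n : ℝ) := hn.trans (mul_le_mul_of_nonneg_right het' hp.le)
  have hm2 : (m : ℝ) ≤ 2 * (th0 * n) := by
    have := Nat.ceil_lt_add_one (show 0 ≤ th0 * (n : ℝ) by positivity)
    rw [← hm] at this
    linarith
  have hm0 : 0 < m := by
    have : (0 : ℝ) < (m : ℝ) := by linarith
    exact_mod_cast this
  obtain ⟨g', hg'⟩ := hst v m hm2
  -- the number of edges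
  have hcard : 6 * (H.card : ℝ) + 3 * (m * ((5 / 9 - eps0) * (n : ℝ) ^ 2)) ≤
      6 * ((cln v m H).card : ℝ) := by
    have h1 := tot_cln hH hK v m
    rw [total_count H hH, total_count _ (cln_unif v m)] at h1
    have h2 : (m : ℝ) * ((5 / 9 - eps0) * (n : ℝ) ^ 2) ≤ m * deg (Loc.Rel H) v :=
      mul_le_mul_of_nonneg_left hdeg (Nat.cast_nonneg m)
    linarith
  have hM0 : (0 : ℝ) ≤ (m : ℝ) := Nat.cast_nonneg m
  have hM2 : (m : ℝ) ^ 2 ≤ (2 * (th0 * n)) ^ 2 := pow_le_pow_left₀ hM0 hm2 2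
  have hM3 : (m : ℝ) ^ 3 ≤ (2 * (th0 * n)) ^ 3 := pow_le_pow_left₀ hM0 hm2 3
  have hn3 : (0 : ℝ) < (n : ℝ) ^ 3 := by positivity
  have hgap : 5 / 54 * ((n + m : ℕ) : ℝ) ^ 3 - ((cln v m H).card : ℝ) ≤
      2 * th0 ^ 2 * (n : ℝ) ^ 3 := by
    push_cast
    have a1 : (n : ℝ) * (m : ℝ) ^ 2 ≤ 4 * th0 ^ 2 * (n : ℝ) ^ 3 := by
      calc (n : ℝ) * (m : ℝ) ^ 2 ≤ n * (2 * (th0 * n)) ^ 2 := mul_le_mul_of_nonneg_left hM2 hp.le
        _ = 4 * th0 ^ 2 * (n : ℝ) ^ 3 := by ring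
    have a2 : (m : ℝ) ^ 3 ≤ 8 * th0 ^ 3 * (n : ℝ) ^ 3 := by
      calc (m : ℝ) ^ 3 ≤ (2 * (th0 * n)) ^ 3 := hM3
        _ = 8 * th0 ^ 3 * (n : ℝ) ^ 3 := by ring
    have a3 : th0 ^ 3 ≤ 1 / 100 * th0 ^ 2 := by
      calc th0 ^ 3 = th0 * th0 ^ 2 := by ring
        _ ≤ 1 / 100 * th0 ^ 2 := mul_le_mul_of_nonneg_right ht1 (by positivity)
    have a4 : th0 ^ 3 * (n : ℝ) ^ 3 ≤ 1 / 100 * th0 ^ 2 * (n : ℝ) ^ 3 :=
      mul_le_mul_of_nonneg_right a3 hn3.le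
    have a5 : (eps0 / 6) ^ 2 ≤ th0 ^ 2 / 100 := by
      have : (eps0 / 6) ^ 2 ≤ eps0 := by
        have := eps_small
        nlinarith
      linarith
    have a6 : (eps0 / 6) ^ 2 * (n : ℝ) ^ 3 ≤ th0 ^ 2 / 100 * (n : ℝ) ^ 3 :=
      mul_le_mul_of_nonneg_right a5 hn3.le
    have a7 : eps0 * ((m : ℝ) * (n : ℝ) ^ 2) ≤ th0 ^ 2 / 100 * (n : ℝ) ^ 3 := by
      have b1 : (m : ℝ) * (n : ℝ) ^ 2 ≤ n * (n : ℝ) ^ 2 := by
        refine mul_le_mul_of_nonneg_right ?_ (by positivity)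
        have : 2 * (th0 * n) ≤ 1 * (n : ℝ) := by
          rw [← mul_assoc]
          exact mul_le_mul_of_nonneg_right (by linarith) hp.le
        linarith
      calc eps0 * ((m : ℝ) * (n : ℝ) ^ 2) ≤ th0 ^ 2 / 100 * (n * (n : ℝ) ^ 2) :=
            mul_le_mul het b1 (by positivity) (by positivity)
        _ = th0 ^ 2 / 100 * (n : ℝ) ^ 3 := by ring
    have a8 : 0 < th0 ^ 2 * (n : ℝ) ^ 3 := by positivity
    nlinarith
  have hD : ((symmDiff (cln v m H) (Turan34.turan g')).card : ℝ) ≤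
      10 ^ 10 * th0 ^ 2 * (n : ℝ) ^ 3 := by
    have b1 : KK * (5 / 54 * ((n + m : ℕ) : ℝ) ^ 3 - ((cln v m H).card : ℝ)) ≤
        KK * (2 * th0 ^ 2 * (n : ℝ) ^ 3) :=
      mul_le_mul_of_nonneg_left hgap (by unfold KK; norm_num)
    have b2 : ((n + m : ℕ) : ℝ) ^ 3 ≤ (2 * n) ^ 3 := by
      refine pow_le_pow_left₀ (Nat.cast_nonneg _) ?_ 3
      push_cast
      have : 2 * (th0 * n) ≤ 1 * (n : ℝ) := by
        rw [← mul_assoc]
        exact mul_le_mul_of_nonneg_right (by linarith) hp.le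
      linarith
    have b3 : th0 ^ 2 * ((n + m : ℕ) : ℝ) ^ 3 ≤ th0 ^ 2 * (2 * n) ^ 3 :=
      mul_le_mul_of_nonneg_left b2 (by positivity)
    have b4 : KK = 1161216000 := rfl
    rw [b4] at b1 hg'
    have a8 : 0 < th0 ^ 2 * (n : ℝ) ^ 3 := by positivity
    have b5 : th0 ^ 2 * (2 * (n : ℝ)) ^ 3 = 8 * (th0 ^ 2 * (n : ℝ) ^ 3) := by ring
    have b6 : (1161216000 : ℝ) * (2 * th0 ^ 2 * (n : ℝ) ^ 3) =
        2322432000 * (th0 ^ 2 * (n : ℝ) ^ 3) := by ring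
    have b7 : (10 : ℝ) ^ 10 * th0 ^ 2 * (n : ℝ) ^ 3 = 10000000000 * (th0 ^ 2 * (n : ℝ) ^ 3) := by
      ring
    rw [b7]
    rw [b5] at b3
    rw [b6] at b1
    linarith
  have hWD : WD g' (Loc.Rel (cln v m H)) ≤ 6 * 10 ^ 10 * th0 ^ 2 * (n : ℝ) ^ 3 := by
    rw [WD_card (cln_unif v m)]
    linarith
  -- a copy with few wrong pairs
  obtain ⟨j, hj⟩ : ∃ j : Fin m, wr g' (Loc.Rel (cln v m H)) (Fin.natAdd n j) ≤
      6 * 10 ^ 10 * th0 * (n : ℝ) ^ 2 := by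
    by_contra hcon
    push Not at hcon
    have h1 : (m : ℝ) * (6 * 10 ^ 10 * th0 * (n : ℝ) ^ 2) <
        ∑ j : Fin m, wr g' (Loc.Rel (cln v m H)) (Fin.natAdd n j) := by
      calc (m : ℝ) * (6 * 10 ^ 10 * th0 * (n : ℝ) ^ 2) =
            ∑ _j : Fin m, 6 * 10 ^ 10 * th0 * (n : ℝ) ^ 2 := by
              rw [sum_const, card_univ, Fintype.card_fin, nsmul_eq_mul]
        _ < _ := Finset.sum_lt_sum_of_nonempty ⟨⟨0, hm0⟩, mem_univ _⟩ fun j _ => hcon j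
    have h2 : ∑ j : Fin m, wr g' (Loc.Rel (cln v m H)) (Fin.natAdd n j) ≤
        WD g' (Loc.Rel (cln v m H)) := by
      rw [WD_wr]
      exact sum_r fun x => Finset.sum_nonneg fun _ _ => Finset.sum_nonneg fun _ _ => ind_nonneg _
    have h3 : th0 * (n : ℝ) * (6 * 10 ^ 10 * th0 * (n : ℝ) ^ 2) ≤
        (m : ℝ) * (6 * 10 ^ 10 * th0 * (n : ℝ) ^ 2) :=
      mul_le_mul_of_nonneg_right hm1 (by positivity)
    have h4 : th0 * (n : ℝ) * (6 * 10 ^ 10 * th0 * (n : ℝ) ^ 2) =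
        6 * 10 ^ 10 * th0 ^ 2 * (n : ℝ) ^ 3 := by ring
    linarith
  -- the two divisions
  have hcmp : ∃ s : Fin 3, ∑ x, ind (g' (Fin.castAdd m x) ≠ g x + s) ≤ 6 * (1 / 10 ^ 60) * n := by
    refine cmp (κ := 1 / 10 ^ 60) A.hn hp (by positivity) (by norm_num) (fun k => ?_) ?_
    · have h1 := A.lo k
      have h2 : eps0 ≤ 1 / 12 := eps_small.trans (by norm_num)
      have h3 : eps0 * n ≤ 1 / 12 * (n : ℝ) := mul_le_mul_of_nonneg_right h2 hp.le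
      linarith
    · have h1 := TD_cln hH v m g g'
      have h2 := A.hD
      have h3 : (n : ℝ) * n ≤ eps0 * (n : ℝ) ^ 3 := by
        have := mul_le_mul_of_nonneg_right hn (show (0 : ℝ) ≤ (n : ℝ) * n by positivity)
        calc (n : ℝ) * n = 1 * ((n : ℝ) * n) := by ring
          _ ≤ eps0 * n * ((n : ℝ) * n) := this
          _ = eps0 * (n : ℝ) ^ 3 := by ring
      have h4 : (2 * eps0 + 6 * 10 ^ 10 * th0 ^ 2) * (n : ℝ) ^ 3 ≤
          (1 / 10 ^ 60) ^ 3 * (n : ℝ) ^ 3 := by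
        refine mul_le_mul_of_nonneg_right ?_ hn3.le
        have h5 : (2 : ℝ) * (1 / 10 ^ 202) + 6 * 10 ^ 10 * th0 ^ 2 ≤ (1 / 10 ^ 60) ^ 3 := by
          unfold th0
          norm_num
        have h6 := eps_le
        linarith
      linarith
  obtain ⟨s, hs⟩ := hcmp
  refine ⟨g' (Fin.natAdd n j) - s, ?_⟩
  have h1 := wr_cln hH hK v m g g' j s
  have h2 : (n : ℝ) * ∑ x, ind (g' (Fin.castAdd m x) ≠ g x + s) ≤ n * (6 * (1 / 10 ^ 60) * n) :=
    mul_le_mul_of_nonneg_left hs hp.le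
  have h3 : (6 * 10 ^ 10 * th0 + 12 * (1 / 10 ^ 60)) * (n : ℝ) ^ 2 ≤
      180 * tau0 * (n : ℝ) ^ 2 := by
    refine mul_le_mul_of_nonneg_right ?_ (by positivity)
    unfold th0 tau0
    norm_num
  nlinarith

/-- the new classes -/
theorem vx_cln {n : ℕ} {H : Finset (Finset (Fin n))} (hst : ClnStab H)
    (hH : ∀ e ∈ H, e.card = 3) (hK : Turan34.K43Free H) (hn : 1 ≤ eps0 * (n : ℝ))
    (g : Fin n → Fin 3)
    (h1 : ((symmDiff H (Turan34.turan g)).card : ℝ) ≤ (eps0 / 6) ^ 2 * (n : ℝ) ^ 3)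
    (h2 : (5 / 54 - (eps0 / 6) ^ 2) * (n : ℝ) ^ 3 ≤ (H.card : ℝ))
    (hdeg : ∀ v, (5 / 18 - eps0 / 2) * (n : ℝ) ^ 2 ≤ ((H.filter fun e => v ∈ e).card : ℝ)) :
    ∃ c', Vx c' (Loc.Rel H) (n : ℝ) sig0 := by
  have hnpos : 0 < n := by
    rcases Nat.eq_zero_or_pos n with h | h
    · rw [h] at hn; norm_num at hn
    · exact h
  have he := eps_small
  have he0 := eps0_pos
  have A := near_of hH hK g hnpos (by positivity) le_rfl h1 h2
  refine exists_vx A (he.trans (by norm_num)) hn sig0_pos (by unfold sig0; norm_num)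
    (τ := tau0) ?_ tau0_pos fun v => by
      obtain ⟨k, hk⟩ := link_cln hst hH hK hn A h2 v
        (by rw [deg_card hH v]; linarith [hdeg v])
      refine ⟨k, le_trans (le_of_eq ?_) hk⟩
      congr 1
      funext x
      unfold Function.update
      split_ifs <;> rfl
  unfold tau0 sig0
  norm_num at he ⊢
  linarith

end Pool.Agent.R573.CL
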