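import Pool.Agent.R573.CL.Ex
import Pool.Agent.Y878.EX.Inst
import Pool.Agent.Y878.EX.Co

/-! The sixteen lists: five of `Pool.Agent.TH773`, eleven pairs of `Pool.Agent.Y878`. -/

set_option autoImplicit false
set_option linter.unusedVariables false
set_option linter.unusedSectionVars false
set_option maxRecDepth 100000
set_option maxHeartbeats 4000000

open Finset
open scoped Classical

namespace Pool.Agent.R573.CL.Mor
open Pool.Agent.TH773 Pool.Agent.TH773.ST Pool.Agent.H122R2.N6 Pool.Agent.H37R3.Pen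
  Pool.Agent.H37R3.Cop Pool.Agent.H37R3.CopL Pool.Agent.Y878
open Pool.Agent.Y878.EX (X96747 X120663 X77054 X119623 X97788 X228027 X78078 X77292 X122742 X77147
  m96747 m120663 m77054 m119623 m97788 m228027 m78078 m77292 m122742 m77147)

/-- the inequality with a term for the listed structures -/
theorem cert_of {V : Type} {E : V → V → V → ℕ} [Fintype V] (hE : Sy E) (hK : NoK4 E)
    {K K2 C P s : ℕ} {B O T' : ℤ} {q4 : ℕ → ℕ → ℕ → ℕ} {q2 : ℕ → ℕ → ℕ}
    {W : ℕ → ℕ → ℕ} {l : ℕ → ℕ → ℕ → ℕ} {W2 : ℕ → ℕ} {l2 : ℕ → ℕ → ℕ}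
    {LT LN MN : List ℕ} {TbT TbN : List (ℕ × ℕ × ℕ)} (hs : s ≤ C) (hs0 : 0 < s)
    (hq4 : ∀ c i j, c < 16 → i < 64 → j < 64 → (q4 c i j : ℤ) =
      ∑ k ∈ range K, (W c k : ℤ) * ((l c i k : ℤ) - B) * ((l c j k : ℤ) - B) + O)
    (hq2 : ∀ i j, i < 16 → j < 16 → (q2 i j : ℤ) =
      ∑ k ∈ range K2, (W2 k : ℤ) * ((l2 i k : ℤ) - B) * ((l2 j k : ℤ) - B)
        + (O + T' * ((kk i j : ℕ) : ℤ)))
    (hT : T' = ((10 * s : ℕ) : ℤ))
    (cs4 : sym4 q4 = true) (cs2 : sym2 q2 = true)
    (hc : ∀ b012 b013 b023 b123 b014 b024 b124 b034 b134 b234 : ℕ, Bt b012 → Bt b013 → Bt b023 →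
      Bt b123 → Bt b014 → Bt b024 → Bt b124 → Bt b034 → Bt b134 → Bt b234 →
      tg b012 b013 b023 b123 b014 b024 b124 b034 b134 b234 = 4 →
      chkS q4 q2 C P s LT LN b012 b013 b023 b123 b014 b024 b124 b034 b134 b234 = true)
    (iT : isoM LT TbT MT = true) (iN : isoM LN TbN MN = true)
    (hC : (C : ℤ) = ((1000 * s : ℕ) : ℤ) + 60 * O) (hP : P ≤ s * 1081) :
    1800 * Fintype.card V ^ 3 * (∑ a, ∑ b, ∑ c, E a b c) + NT E ≤
      1000 * Fintype.card V ^ 6 + 1081 * ∑ x : Fin 6 → V, XL E MN x := by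
  have h := EX.slack_off hE hK hs hq4 hq2 hT cs4 cs2 hc iT iN hC
  have h1 := Nat.mul_le_mul_right (∑ x : Fin 6 → V, XL E MN x) hP
  refine Nat.le_of_mul_le_mul_left ?_ hs0
  calc s * (1800 * Fintype.card V ^ 3 * (∑ a, ∑ b, ∑ c, E a b c) + NT E) =
        180 * (10 * s) * Fintype.card V ^ 3 * (∑ a, ∑ b, ∑ c, E a b c) + s * NT E := by ring
    _ ≤ 1000 * s * Fintype.card V ^ 6 + P * ∑ x : Fin 6 → V, XL E MN x := h
    _ ≤ 1000 * s * Fintype.card V ^ 6 + s * 1081 * ∑ x : Fin 6 → V, XL E MN x :=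
        Nat.add_le_add_left h1 _
    _ = s * (1000 * Fintype.card V ^ 6 + 1081 * ∑ x : Fin 6 → V, XL E MN x) := by ring

/-- the certificate for the masks `M` -/
def Cert (M : List ℕ) : Prop :=
  ∀ {V : Type} [Fintype V] {E : V → V → V → ℕ}, Sy E → NoK4 E →
    1800 * Fintype.card V ^ 3 * (∑ a, ∑ b, ∑ c, E a b c) + NT E ≤
      1000 * Fintype.card V ^ 6 + 1081 * ∑ x : Fin 6 → V, XL E M x

section
open Pool.Agent.Y878.EX.P01 in
theorem cert01 : Cert EX.P01.MS := by
  intro V _ E hE hK
  exact cert_of hE hK (K := 79) (K2 := 10) (C := CST) (P := PEN) (s := 180000000000) (B := 16384) (O := 140737488355328)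
    (T' := 1800000000000) (W := fun c k => w4 (rho c) k) (l := fun c i k => l4 (rho c) (pc c i) k)
    (by decide) (by decide) hq4 hq2 (by decide) cs4 cs2 hc isoT iso (by decide) (by decide)
end

section
open Pool.Agent.Y878.EX.P02 in
theorem cert02 : Cert EX.P02.MS := by
  intro V _ E hE hK
  exact cert_of hE hK (K := 79) (K2 := 10) (C := CST) (P := PEN) (s := 90000000000) (B := 65536) (O := 281474976710656)
    (T' := 900000000000) (W := fun c k => w4 (rho c) k) (l := fun c i k => l4 (rho c) (pc c i) k)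
    (by decide) (by decide) hq4 hq2 (by decide) cs4 cs2 hc isoT iso (by decide) (by decide)
end

section
open Pool.Agent.Y878.EX.P03 in
theorem cert03 : Cert EX.P03.MS := by
  intro V _ E hE hK
  exact cert_of hE hK (K := 79) (K2 := 10) (C := CST) (P := PEN) (s := 90000000000) (B := 65536) (O := 70368744177664)
    (T' := 900000000000) (W := fun c k => w4 (rho c) k) (l := fun c i k => l4 (rho c) (pc c i) k)
    (by decide) (by decide) hq4 hq2 (by decide) cs4 cs2 hc isoT iso (by decide) (by decide)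
end

section
open Pool.Agent.Y878.EX.P04 in
theorem cert04 : Cert EX.P04.MS := by
  intro V _ E hE hK
  exact cert_of hE hK (K := 79) (K2 := 10) (C := CST) (P := PEN) (s := 90000000000) (B := 16384) (O := 70368744177664)
    (T' := 900000000000) (W := fun c k => w4 (rho c) k) (l := fun c i k => l4 (rho c) (pc c i) k)
    (by decide) (by decide) hq4 hq2 (by decide) cs4 cs2 hc isoT iso (by decide) (by decide)
end

section
open Pool.Agent.Y878.EX.P05 in
theorem cert05 : Cert EX.P05.MS := by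
  intro V _ E hE hK
  exact cert_of hE hK (K := 79) (K2 := 10) (C := CST) (P := PEN) (s := 180000000000) (B := 65536) (O := 281474976710656)
    (T' := 1800000000000) (W := fun c k => w4 (rho c) k) (l := fun c i k => l4 (rho c) (pc c i) k)
    (by decide) (by decide) hq4 hq2 (by decide) cs4 cs2 hc isoT iso (by decide) (by decide)
end

section
open Pool.Agent.Y878.EX.P06 in
theorem cert06 : Cert EX.P06.MS := by
  intro V _ E hE hK
  exact cert_of hE hK (K := 79) (K2 := 10) (C := CST) (P := PEN) (s := 90000000000) (B := 32768) (O := 140737488355328)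
    (T' := 900000000000) (W := fun c k => w4 (rho c) k) (l := fun c i k => l4 (rho c) (pc c i) k)
    (by decide) (by decide) hq4 hq2 (by decide) cs4 cs2 hc isoT iso (by decide) (by decide)
end

section
open Pool.Agent.Y878.EX.P07 in
theorem cert07 : Cert EX.P07.MS := by
  intro V _ E hE hK
  exact cert_of hE hK (K := 79) (K2 := 10) (C := CST) (P := PEN) (s := 90000000000) (B := 32768) (O := 140737488355328)
    (T' := 900000000000) (W := fun c k => w4 (rho c) k) (l := fun c i k => l4 (rho c) (pc c i) k)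
    (by decide) (by decide) hq4 hq2 (by decide) cs4 cs2 hc isoT iso (by decide) (by decide)
end

section
open Pool.Agent.Y878.EX.P08 in
theorem cert08 : Cert EX.P08.MS := by
  intro V _ E hE hK
  exact cert_of hE hK (K := 79) (K2 := 10) (C := CST) (P := PEN) (s := 900000000000) (B := 262144) (O := 1125899906842624)
    (T' := 9000000000000) (W := fun c k => w4 (rho c) k) (l := fun c i k => l4 (rho c) (pc c i) k)
    (by decide) (by decide) hq4 hq2 (by decide) cs4 cs2 hc isoT iso (by decide) (by decide)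
end

section
open Pool.Agent.Y878.EX.P09 in
theorem cert09 : Cert EX.P09.MS := by
  intro V _ E hE hK
  exact cert_of hE hK (K := 79) (K2 := 10) (C := CST) (P := PEN) (s := 900000000000) (B := 131072) (O := 1125899906842624)
    (T' := 9000000000000) (W := fun c k => w4 (rho c) k) (l := fun c i k => l4 (rho c) (pc c i) k)
    (by decide) (by decide) hq4 hq2 (by decide) cs4 cs2 hc isoT iso (by decide) (by decide)
end

section
open Pool.Agent.Y878.EX.P10 in
theorem cert10 : Cert EX.P10.MS := by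
  intro V _ E hE hK
  exact cert_of hE hK (K := 79) (K2 := 10) (C := CST) (P := PEN) (s := 90000000000) (B := 32768) (O := 70368744177664)
    (T' := 900000000000) (W := fun c k => w4 (rho c) k) (l := fun c i k => l4 (rho c) (pc c i) k)
    (by decide) (by decide) hq4 hq2 (by decide) cs4 cs2 hc isoT iso (by decide) (by decide)
end

section
open Pool.Agent.Y878.EX.P11 in
theorem cert11 : Cert EX.P11.MS := by
  intro V _ E hE hK
  exact cert_of hE hK (K := 79) (K2 := 10) (C := CST) (P := PEN) (s := 90000000000) (B := 32768) (O := 70368744177664)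
    (T' := 900000000000) (W := fun c k => w4 (rho c) k) (l := fun c i k => l4 (rho c) (pc c i) k)
    (by decide) (by decide) hq4 hq2 (by decide) cs4 cs2 hc isoT iso (by decide) (by decide)
end

/-- the inequality of the stability theorem -/
theorem stab_of {M : List ℕ} {Fs : List (Finset (Finset (Fin 6)))} (hc : Cert M)
    (hM : ∀ m ∈ M, ∃ F ∈ Fs, Mask m F) (n : ℕ) (H : Finset (Finset (Fin n)))
    (h3 : ∀ e ∈ H, e.card = 3) (hK : Turan34.K43Free H) :
    ∃ g : Fin n → Fin 3, n ^ 3 * (symmDiff H (Turan34.turan g)).card +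
      1161216000 * (n ^ 3 * H.card) ≤
        107520000 * n ^ 6 + 83684966400 * Turan34.copies Fs H := by
  have hE := tri_sy H
  have hK' := tri_noK4 h3 hK
  obtain ⟨g, hg⟩ := ST.stab hE hK' (hc hE hK')
  refine ⟨g, ?_⟩
  have h1 := EX.six_symm_le h3 g
  have h2 := six_card_le h3
  have h4 := sum_XL_le h3 hM
  rw [EX.copies_six] at h4
  rw [Fintype.card_fin] at hg
  have h5 := Nat.mul_le_mul_left (n ^ 3) h1
  have h6 := Nat.mul_le_mul_left (n ^ 3) h2
  have e5 : n ^ 3 * (6 * (symmDiff H (Turan34.turan g)).card) =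
    6 * (n ^ 3 * (symmDiff H (Turan34.turan g)).card) := by ring
  have e6 : n ^ 3 * (6 * H.card) = 6 * (n ^ 3 * H.card) := by ring
  rw [e5] at h5
  rw [e6] at h6
  omega

theorem mask_two {m m' : ℕ} {F F' : Finset (Finset (Fin 6))} (hm : Mask m F) (hm' : Mask m' F')
    {M : List ℕ} (hM : ∀ x ∈ M, x = m ∨ x = m') : ∀ x ∈ M, ∃ G ∈ [F, F'], Mask x G := by
  intro x hx
  rcases hM x hx with rfl | rfl
  · exact ⟨F, List.mem_cons_self, hm⟩
  · exact ⟨F', List.mem_cons_of_mem _ (List.mem_singleton.mpr rfl), hm'⟩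

/-- the configuration at two vertices of a class -/
def InF (F : Finset (Finset (Fin 6))) : Prop :=
  ∃ (k : Fin 4 → Fin 3) (b : Fin 4 → Bool) (e : Fin 6 → Fin 6),
    Fit F 0 k b e ∧ (k 2 ≠ 0 ∧ k 3 ≠ 0) ∧
      ∀ j : Fin 4, (k j = 0 ∧ b j = true) ∨ (k j = 1 ∧ b j = false) ∨ (k j = 2 ∧ b j = false)

/-- the configuration at two vertices of consecutive classes -/
def ReF (F : Finset (Finset (Fin 6))) : Prop :=
  ∃ (k : Fin 4 → Fin 3) (b : Fin 4 → Bool) (e : Fin 6 → Fin 6),
    Fit F 1 k b e ∧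
      ∀ j : Fin 4, (k j = 0 ∧ b j = true) ∨ (k j = 1 ∧ b j = true) ∨ (k j = 2 ∧ b j = false)

theorem lst_two {M : List ℕ} {F F' : Finset (Finset (Fin 6))} (hc : Cert M)
    (hM : ∀ m ∈ M, ∃ G ∈ [F, F'], Mask m G) (h1 : Cov2 F) (h2 : Cov2 F')
    (ht : ∀ (n : ℕ) (g : Fin n → Fin 3), Turan34.copies [F, F'] (Turan34.turan g) = 0)
    (hi : InF F) (hr : ReF F') : Lst [F, F'] where
  cov G hG := by
    rcases List.mem_cons.mp hG with rfl | hG
    · exact h1
    · rw [List.mem_singleton] at hG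
      subst hG
      exact h2
  stab := stab_of hc hM
  tur := ht
  inn := ⟨F, List.mem_cons_self, hi⟩
  rev := ⟨F', List.mem_cons_of_mem _ (List.mem_singleton.mpr rfl), hr⟩

theorem cov96747 : Cov2 X96747 :=
  cov_of [(0, 1, 2), (0, 1, 3), (1, 2, 3), (0, 2, 4), (1, 2, 4), (0, 3, 4), (1, 3, 4), (0, 2, 5), (1, 2, 5), (0, 3, 5), (1, 3, 5), (0, 4, 5)]
    (by decide +kernel) (by decide) (by decide +kernel)

theorem cov120663 : Cov2 X120663 :=
  cov_of [(0, 1, 2), (0, 1, 3), (0, 2, 3), (0, 1, 4), (1, 2, 4), (1, 3, 4), (2, 3, 4), (0, 1, 5), (1, 2, 5), (1, 3, 5), (2, 3, 5), (0, 4, 5)]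
    (by decide +kernel) (by decide) (by decide +kernel)

theorem cov77054 : Cov2 X77054 :=
  cov_of [(0, 1, 3), (0, 2, 3), (1, 2, 3), (0, 1, 4), (0, 2, 4), (1, 2, 4), (0, 3, 4), (0, 1, 5), (0, 2, 5), (0, 3, 5), (0, 4, 5)]
    (by decide +kernel) (by decide) (by decide +kernel)

theorem cov119623 : Cov2 X119623 :=
  cov_of [(0, 1, 2), (0, 1, 3), (0, 2, 3), (1, 2, 4), (1, 3, 4), (2, 3, 4), (1, 2, 5), (1, 3, 5), (2, 3, 5), (0, 4, 5)]
    (by decide +kernel) (by decide) (by decide +kernel)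

theorem cov97788 : Cov2 X97788 :=
  cov_of [(0, 2, 3), (1, 2, 3), (0, 1, 4), (0, 2, 4), (1, 2, 4), (0, 3, 4), (1, 3, 4), (0, 1, 5), (0, 2, 5), (1, 2, 5), (0, 3, 5), (1, 3, 5), (0, 4, 5)]
    (by decide +kernel) (by decide) (by decide +kernel)

theorem cov228027 : Cov2 X228027 :=
  cov_of [(0, 1, 2), (0, 1, 3), (1, 2, 3), (0, 1, 4), (0, 2, 4), (0, 3, 4), (2, 3, 4), (0, 2, 5), (1, 2, 5), (0, 3, 5), (1, 3, 5), (0, 4, 5), (1, 4, 5)]
    (by decide +kernel) (by decide) (by decide +kernel)

theorem cov78078 : Cov2 X78078 :=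
  cov_of [(0, 1, 3), (0, 2, 3), (1, 2, 3), (0, 1, 4), (0, 2, 4), (1, 2, 4), (0, 3, 4), (1, 2, 5), (0, 3, 5), (0, 4, 5)]
    (by decide +kernel) (by decide) (by decide +kernel)

theorem cov77292 : Cov2 X77292 :=
  cov_of [(0, 2, 3), (1, 2, 3), (0, 2, 4), (1, 2, 4), (0, 3, 4), (1, 3, 4), (0, 1, 5), (0, 2, 5), (0, 3, 5), (0, 4, 5)]
    (by decide +kernel) (by decide) (by decide +kernel)

theorem cov122742 : Cov2 X122742 :=
  cov_of [(0, 1, 3), (0, 2, 3), (0, 1, 4), (0, 2, 4), (1, 2, 4), (1, 3, 4), (2, 3, 4), (0, 1, 5), (0, 2, 5), (1, 2, 5), (1, 3, 5), (2, 3, 5), (0, 4, 5)]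
    (by decide +kernel) (by decide) (by decide +kernel)

theorem cov77147 : Cov2 X77147 :=
  cov_of [(0, 1, 2), (0, 1, 3), (1, 2, 3), (0, 1, 4), (1, 2, 4), (1, 3, 4), (0, 1, 5), (0, 2, 5), (0, 3, 5), (0, 4, 5)]
    (by decide +kernel) (by decide) (by decide +kernel)

theorem in96747 : InF X96747 :=
  ⟨![0, 1, 1, 2], ![true, false, false, false], ![4, 5, 0, 2, 3, 1], ⟨by decide, by decide +kernel⟩, by decide, by decide⟩

theorem in120663 : InF X120663 :=
  ⟨![0, 1, 2, 2], ![true, false, false, false], ![4, 5, 0, 1, 2, 3], ⟨by decide, by decide +kernel⟩, by decide, by decide⟩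

theorem in77054 : InF X77054 :=
  ⟨![0, 0, 1, 2], ![true, true, false, false], ![1, 2, 3, 4, 0, 5], ⟨by decide, by decide +kernel⟩, by decide, by decide⟩

theorem in119623 : InF X119623 :=
  ⟨![0, 2, 2, 2], ![true, false, false, false], ![0, 4, 5, 1, 2, 3], ⟨by decide, by decide +kernel⟩, by decide, by decide⟩

theorem re97788 : ReF X97788 :=
  ⟨![0, 0, 1, 2], ![true, true, true, false], ![4, 1, 2, 3, 0, 5], ⟨by decide, by decide +kernel⟩, by decide⟩

theorem re228027 : ReF X228027 :=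
  ⟨![0, 1, 2, 2], ![true, true, false, false], ![4, 5, 1, 0, 2, 3], ⟨by decide, by decide +kernel⟩, by decide⟩

theorem re78078 : ReF X78078 :=
  ⟨![0, 0, 2, 2], ![true, true, false, false], ![5, 0, 3, 4, 1, 2], ⟨by decide, by decide +kernel⟩, by decide⟩

theorem re77292 : ReF X77292 :=
  ⟨![0, 2, 2, 2], ![true, false, false, false], ![1, 5, 0, 2, 3, 4], ⟨by decide, by decide +kernel⟩, by decide⟩

theorem re122742 : ReF X122742 :=
  ⟨![1, 1, 2, 2], ![true, true, false, false], ![0, 3, 1, 2, 4, 5], ⟨by decide, by decide +kernel⟩, by decide⟩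

theorem re77147 : ReF X77147 :=
  ⟨![1, 2, 2, 2], ![true, false, false, false], ![1, 5, 0, 2, 3, 4], ⟨by decide, by decide +kernel⟩, by decide⟩

theorem lst01 : Lst [X120663, X97788] :=
  lst_two cert01 (mask_two m120663 m97788 (by unfold EX.P01.MS; decide)) cov120663 cov97788
    (fun _ g => EX.turan_copies EX.F01 g) in120663 re97788

theorem lst02 : Lst [X120663, X78078] :=
  lst_two cert02 (mask_two m120663 m78078 (by unfold EX.P02.MS; decide)) cov120663 cov78078
    (fun _ g => EX.turan_copies EX.F02 g) in120663 re78078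

theorem lst03 : Lst [X77054, X97788] :=
  lst_two cert03 (mask_two m77054 m97788 (by unfold EX.P03.MS; decide)) cov77054 cov97788
    (fun _ g => EX.turan_copies EX.F03 g) in77054 re97788

theorem lst04 : Lst [X77054, X228027] :=
  lst_two cert04 (mask_two m77054 m228027 (by unfold EX.P04.MS; decide)) cov77054 cov228027
    (fun _ g => EX.turan_copies EX.F04 g) in77054 re228027

theorem lst05 : Lst [X77054, X78078] :=
  lst_two cert05 (mask_two m77054 m78078 (by unfold EX.P05.MS; decide)) cov77054 cov78078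
    (fun _ g => EX.turan_copies EX.F05 g) in77054 re78078

theorem lst06 : Lst [X96747, X77292] :=
  lst_two cert06 (mask_two m96747 m77292 (by unfold EX.P06.MS; decide)) cov96747 cov77292
    (fun _ g => EX.turan_copies EX.F06 g) in96747 re77292

theorem lst07 : Lst [X96747, X122742] :=
  lst_two cert07 (mask_two m96747 m122742 (by unfold EX.P07.MS; decide)) cov96747 cov122742
    (fun _ g => EX.turan_copies EX.F07 g) in96747 re122742

theorem lst08 : Lst [X120663, X122742] :=
  lst_two cert08 (mask_two m120663 m122742 (by unfold EX.P08.MS; decide)) cov120663 cov122742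
    (fun _ g => EX.turan_copies EX.F08 g) in120663 re122742

theorem lst09 : Lst [X96747, X77147] :=
  lst_two cert09 (mask_two m96747 m77147 (by unfold EX.P09.MS; decide)) cov96747 cov77147
    (fun _ g => EX.turan_copies EX.F09 g) in96747 re77147

theorem lst10 : Lst [X119623, X97788] :=
  lst_two cert10 (mask_two m119623 m97788 (by unfold EX.P10.MS; decide)) cov119623 cov97788
    (fun _ g => EX.turan_copies EX.F10 g) in119623 re97788

theorem lst11 : Lst [X119623, X228027] :=
  lst_two cert11 (mask_two m119623 m228027 (by unfold EX.P11.MS; decide)) cov119623 cov228027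
    (fun _ g => EX.turan_copies EX.F11 g) in119623 re228027

open Pool.Agent.TH773.Turan34 (XA XB XC XD XE XF XG XH XI fam) in
/-- the five lists -/
theorem lst_fam (i : Fin 5) : Lst (fam i) where
  cov := fam_cov i
  stab := Pool.Agent.TH773.CL.stab_copies i
  tur _ g := ST.turan_copies i g
  inn := by
    fin_cases i
    · exact ⟨XA, List.mem_cons_self, _, _, _, fA, by decide, by decide⟩
    · exact ⟨XA, List.mem_cons_self, _, _, _, fA, by decide, by decide⟩
    · exact ⟨XD, List.mem_cons_self, _, _, _, fD, by decide, by decide⟩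
    · exact ⟨XA, List.mem_cons_of_mem _ List.mem_cons_self, _, _, _, fA, by decide, by decide⟩
    · exact ⟨XH, List.mem_cons_of_mem _ (List.mem_cons_of_mem _ List.mem_cons_self), _, _, _, fH,
        by decide, by decide⟩
  rev := by
    fin_cases i
    · exact ⟨XB, List.mem_cons_of_mem _ List.mem_cons_self, _, _, _, fB, by decide⟩
    · exact ⟨XC, List.mem_cons_of_mem _ List.mem_cons_self, _, _, _, fC, by decide⟩
    · exact ⟨XB, List.mem_cons_of_mem _ List.mem_cons_self, _, _, _, fB, by decide⟩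
    · exact ⟨XE, List.mem_cons_self, _, _, _, fE, by decide⟩
    · exact ⟨XF, List.mem_cons_self, _, _, _, fF, by decide⟩

end Pool.Agent.R573.CL.Mor
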