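import Pool.Agent.R573.CL.Cnf

/-! From labelled copies through a pair to sets, and the data for the five lists. -/

set_option autoImplicit false
set_option linter.unusedVariables false
set_option linter.unusedSectionVars false
set_option maxRecDepth 100000

open Finset
open scoped Classical

namespace Pool.Agent.R573.CL
open Pool.Agent.Y439.Loc hiding sum_nonneg'
open Pool.Agent.TH773
open Pool.Agent.TH773.Turan34 (K43Free turan Induces copies fam)
open Pool.Agent.Y439
open Pool.Agent.Y903.TX
open Pool.Agent.R105.TP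

/-- `e` identifies the 3-graph `F` with the expected edges -/
def Fit (F : Finset (Finset (Fin 6))) (d : Fin 3) (k : Fin 4 → Fin 3) (b : Fin 4 → Bool)
    (e : Fin 6 → Fin 6) : Prop :=
  Function.Injective e ∧ ∀ i j l : Fin 6, i < j → j < l →
    (G6 d k b i j l = true ↔ ({e i, e j, e l} : Finset (Fin 6)) ∈ F)

theorem sorted3 (t : Finset (Fin 6)) (ht : t.card = 3) :
    ∃ i j l : Fin 6, i < j ∧ j < l ∧ t = {i, j, l} := by
  obtain ⟨a, b, d, n1, n2, n3, rfl⟩ := card_eq_three.1 ht
  rcases lt_or_gt_of_ne n1 with h1 | h1 <;> rcases lt_or_gt_of_ne n2 with h2 | h2 <;>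
    rcases lt_or_gt_of_ne n3 with h3 | h3
  · exact ⟨a, b, d, h1, h3, rfl⟩
  · exact ⟨a, d, b, h2, h3, by ext x; simp only [mem_insert, mem_singleton]; tauto⟩
  · exact absurd (h1.trans h3) (not_lt.2 h2.le)
  · exact ⟨d, a, b, h2, h1, by ext x; simp only [mem_insert, mem_singleton]; tauto⟩
  · exact ⟨b, a, d, h1, h2, by ext x; simp only [mem_insert, mem_singleton]; tauto⟩
  · exact absurd (h2.trans h3) (not_lt.2 h1.le)
  · exact ⟨b, d, a, h3, h2, by ext x; simp only [mem_insert, mem_singleton]; tauto⟩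
  · exact ⟨d, b, a, h3, h1, by ext x; simp only [mem_insert, mem_singleton]; tauto⟩

section
variable {n : ℕ} {H : Finset (Finset (Fin n))}

theorem gd_ind {F : Finset (Finset (Fin 6))} {d : Fin 3} {k : Fin 4 → Fin 3} {b : Fin 4 → Bool}
    {e : Fin 6 → Fin 6} (he : Fit F d k b e) {w : Fin 6 → Fin n}
    (hw : Gd (Loc.Rel H) d k b w) : Induces F H (univ.image w) := by
  have hb : Function.Bijective e := Finite.injective_iff_bijective.1 he.1
  obtain ⟨f, hf1, hf2⟩ := Function.bijective_iff_has_inverse.1 hb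
  have hfi : Function.Injective f := hf2.injective
  refine ⟨fun p => w (f p), fun p q h => hfi (hw.1 h), ?_, fun t ht => ?_⟩
  · ext y
    simp only [mem_image, mem_univ, true_and]
    constructor
    · rintro ⟨p, rfl⟩; exact ⟨f p, rfl⟩
    · rintro ⟨p, rfl⟩; exact ⟨e p, by rw [hf1]⟩
  · have hc : (t.image f).card = 3 := by rw [card_image_of_injective _ hfi, ht]
    obtain ⟨i, j, l, hij, hjl, h⟩ := sorted3 _ hc
    have h1 : t = {e i, e j, e l} := by
      have : (t.image f).image e = t := by
        ext y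
        simp only [mem_image]
        constructor
        · rintro ⟨_, ⟨x, hx, rfl⟩, rfl⟩
          rw [hf2 x]; exact hx
        · intro hy
          exact ⟨f y, ⟨y, hy, rfl⟩, hf2 y⟩
      rw [← this, h, image_insert, image_insert, image_singleton]
    have h2 : t.image (fun p => w (f p)) = {w i, w j, w l} := by
      have : t.image (fun p => w (f p)) = (t.image f).image w := by rw [image_image]; rfl
      rw [this, h, image_insert, image_insert, image_singleton]
    rw [h2]
    have h3 := hw.2 i j l hij hjl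
    have h4 := he.2 i j l hij hjl
    rw [← h1] at h4
    rw [← h4, ← h3]
    have n1 : w i ≠ w j := fun e => hij.ne (hw.1 e)
    have n2 : w j ≠ w l := fun e => hjl.ne (hw.1 e)
    have n3 : w i ≠ w l := fun e => (hij.trans hjl).ne (hw.1 e)
    exact ⟨fun h => ⟨n1, n2, n3, h⟩, fun h => h.2.2.2⟩

theorem LL_le {Fs : List (Finset (Finset (Fin 6)))} {F : Finset (Finset (Fin 6))} (hF : F ∈ Fs)
    {d : Fin 3} {k : Fin 4 → Fin 3} {b : Fin 4 → Bool} {e : Fin 6 → Fin 6} (he : Fit F d k b e)
    (x y : Fin n) : LL (Loc.Rel H) d k b x y ≤ 1296 * (pcop Fs H x y : ℝ) := by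
  have h1 : LL (Loc.Rel H) d k b x y = ((univ.filter fun p : Fin n × Fin n × Fin n × Fin n =>
      Gd (Loc.Rel H) d k b ![x, y, p.1, p.2.1, p.2.2.1, p.2.2.2]).card : ℝ) := by
    rw [← ind_sum_card]
    unfold LL
    simp only [Fintype.sum_prod_type]
  rw [h1]
  have h2 : (univ.filter fun p : Fin n × Fin n × Fin n × Fin n =>
      Gd (Loc.Rel H) d k b ![x, y, p.1, p.2.1, p.2.2.1, p.2.2.2]).card ≤
      1296 * pcop Fs H x y := by
    have h3 := card_le_mul_card_image_of_maps_to
      (s := univ.filter fun p : Fin n × Fin n × Fin n × Fin n =>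
        Gd (Loc.Rel H) d k b ![x, y, p.1, p.2.1, p.2.2.1, p.2.2.2])
      (t := (univ : Finset (Finset (Fin n))).filter fun S =>
        (x ∈ S ∧ y ∈ S) ∧ ∃ F ∈ Fs, Induces F H S)
      (f := fun p => univ.image ![x, y, p.1, p.2.1, p.2.2.1, p.2.2.2]) ?_ 1296 ?_
    · exact h3
    · intro p hp
      have hg := (mem_filter.1 hp).2
      refine mem_filter.2 ⟨mem_univ _, ⟨?_, ?_⟩, F, hF, gd_ind he hg⟩
      · exact mem_image.2 ⟨0, mem_univ _, rfl⟩
      · exact mem_image.2 ⟨1, mem_univ _, rfl⟩
    · intro S hS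
      obtain ⟨-, -, F', hF', hI⟩ := mem_filter.1 hS
      have hc := ind_card hI
      have h4 : ((univ.filter fun p : Fin n × Fin n × Fin n × Fin n =>
          Gd (Loc.Rel H) d k b ![x, y, p.1, p.2.1, p.2.2.1, p.2.2.2]).filter fun p =>
            univ.image ![x, y, p.1, p.2.1, p.2.2.1, p.2.2.2] = S) ⊆ S ×ˢ S ×ˢ S ×ˢ S := by
        intro p hp
        have hp' := (mem_filter.1 hp).2
        simp only [mem_product]
        rw [← hp']
        exact ⟨mem_image.2 ⟨2, mem_univ _, rfl⟩, mem_image.2 ⟨3, mem_univ _, rfl⟩,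
          mem_image.2 ⟨4, mem_univ _, rfl⟩, mem_image.2 ⟨5, mem_univ _, rfl⟩⟩
      refine (card_le_card h4).trans ?_
      rw [card_product, card_product, card_product, hc]
  exact_mod_cast h2

end

end Pool.Agent.R573.CL
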