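import Pool.Agent.R573.CL.Cov

/-! Two copies of the complete 3-graph on four vertices. -/

set_option autoImplicit false
set_option linter.unusedVariables false
set_option linter.unusedSectionVars false
set_option maxRecDepth 100000

open Finset
open scoped Classical

namespace Pool.Agent.R573.CL
open Pool.Agent.TH773
open Pool.Agent.TH773.ST
open Pool.Agent.TH773.Turan34 (K43Free turan Induces copies)
open Pool.Agent.Y439.Loc (tnum)

section
variable {n : ℕ} {H : Finset (Finset (Fin n))}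

/-- the six-sets that contain a triple -/
theorem six_over {e : Finset (Fin n)} (he : e.card = 3) :
    ((univ : Finset (Finset (Fin n))).filter fun S => e ⊆ S ∧ S.card = 6).card ≤ n ^ 3 := by
  have h1 : ((univ : Finset (Finset (Fin n))).filter fun S => e ⊆ S ∧ S.card = 6).card ≤
      ((univ : Finset (Fin n)).powersetCard 3).card := by
    refine card_le_card_of_injOn (fun S => S \ e) ?_ ?_
    · intro S hS
      obtain ⟨-, h2, h3⟩ := mem_filter.1 (mem_coe.1 hS)
      refine mem_coe.2 (mem_powersetCard.2 ⟨subset_univ _, ?_⟩)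
      rw [card_sdiff_of_subset h2]
      omega
    · intro S hS T hT h
      obtain ⟨-, h2, -⟩ := mem_filter.1 (mem_coe.1 hS)
      obtain ⟨-, h3, -⟩ := mem_filter.1 (mem_coe.1 hT)
      simp only at h
      rw [← sdiff_union_of_subset h2, ← sdiff_union_of_subset h3, h]
  rw [card_powersetCard, card_univ, Fintype.card_fin] at h1
  exact h1.trans (Nat.choose_le_pow n 3)

theorem pcop_erase {Fs : List (Finset (Finset (Fin 6)))} {e : Finset (Fin n)} (he : e.card = 3)
    (x y : Fin n) : pcop Fs (H.erase e) x y ≤ pcop Fs H x y + n ^ 3 := by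
  unfold pcop
  refine le_trans ?_ (Nat.add_le_add_left (six_over he) _)
  refine (card_le_card fun S hS => ?_).trans (card_union_le _ _)
  obtain ⟨-, hxy, F, hF, hI⟩ := mem_filter.1 hS
  by_cases hes : e ⊆ S
  · exact mem_union_right _ (mem_filter.2 ⟨mem_univ _, hes, ind_card hI⟩)
  · refine mem_union_left _ (mem_filter.2 ⟨mem_univ _, hxy, F, hF, ?_⟩)
    obtain ⟨f, hf, hS, hfe⟩ := hI
    refine ⟨f, hf, hS, fun t ht => ?_⟩
    rw [← hfe t ht, mem_erase]
    refine ⟨fun h => ⟨fun h1 => hes ?_, h⟩, fun h => h.2⟩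
    rw [← h1, ← hS]
    exact image_subset_image (subset_univ _)

/-- `S` spans a complete 3-graph -/
def Cl (H : Finset (Finset (Fin n))) (S : Finset (Fin n)) : Prop :=
  S.card = 4 ∧ ∀ s ⊆ S, s.card = 3 → s ∈ H

theorem free_iff : K43Free H ↔ ∀ S, ¬ Cl H S := by
  constructor
  · rintro h S ⟨h1, h2⟩
    obtain ⟨s, hs, hs3, hsn⟩ := h S h1
    exact hsn (h2 s hs hs3)
  · intro h S hS
    by_contra hcon
    push Not at hcon
    exact h S ⟨hS, hcon⟩

theorem classes_two {g : Fin n → Fin 3} (hg : (turan g).card = tnum n) (hn : 16 ≤ n) (k : Fin 3) :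
    ∃ z z', z ≠ z' ∧ g z = k ∧ g z' = k := by
  have hsz := Pt_add g
  rw [Fintype.card_fin] at hsz
  have h4 := turan_card6 g
  rw [hg] at h4
  have h5 := ((F6_le hsz hn).2).mp (by rw [Co.F6_tnum]; omega)
  unfold near at h5
  have h6 : 1 < (Pt g k).card := by
    fin_cases k
    · show 1 < (Pt g 0).card
      omega
    · show 1 < (Pt g 1).card
      omega
    · show 1 < (Pt g 2).card
      omega
  obtain ⟨z, hz, z', hz', hne⟩ := one_lt_card.1 h6
  unfold Pt at hz hz'
  exact ⟨z, z', hne, (mem_filter.1 hz).2, (mem_filter.1 hz').2⟩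

theorem third : ∀ p q r : Fin 3, Rf p q r ≠ 1 →
    ∃ k, k ≠ p ∧ k ≠ q ∧ k ≠ r ∧ Rf p q k = 1 ∧ Rf p r k = 1 ∧ Rf q r k = 1 := by
  decide

theorem erase_b {a b c z : Fin n} (h1 : a ≠ b) (h2 : b ≠ c) (h3 : b ≠ z) :
    ({a, b, c, z} : Finset (Fin n)).erase b = {a, c, z} := by
  ext x
  simp only [mem_erase, mem_insert, mem_singleton]
  constructor
  · rintro ⟨h, h4 | h4 | h4 | h4⟩
    exacts [Or.inl h4, absurd h4 h, Or.inr (Or.inl h4), Or.inr (Or.inr h4)]
  · rintro (h | h | h)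
    · exact ⟨by rw [h]; exact h1, Or.inl h⟩
    · exact ⟨by rw [h]; exact h2.symm, Or.inr (Or.inr (Or.inl h))⟩
    · exact ⟨by rw [h]; exact h3.symm, Or.inr (Or.inr (Or.inr h))⟩

theorem cl_add {g : Fin n → Fin 3} {a b c z : Fin n} (hab : a ≠ b) (hac : a ≠ c) (hbc : b ≠ c)
    (haz : a ≠ z) (hbz : b ≠ z) (hcz : c ≠ z) (h1 : Rf (g a) (g b) (g z) = 1)
    (h2 : Rf (g a) (g c) (g z) = 1) (h3 : Rf (g b) (g c) (g z) = 1) :
    Cl (insert {a, b, c} (turan g)) {a, b, c, z} := by
  have h4 : ({a, b, c, z} : Finset (Fin n)).card = 4 := by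
    rw [card_insert_of_notMem (by simp [hab, hac, haz]), card_insert_of_notMem (by simp [hbc, hbz]),
      card_pair hcz]
  refine ⟨h4, fun s hs hs3 => ?_⟩
  obtain ⟨w, hw⟩ : ∃ w, ({a, b, c, z} : Finset (Fin n)) \ s = {w} := by
    rw [← card_eq_one, card_sdiff_of_subset hs]
    omega
  have hwS : w ∈ ({a, b, c, z} : Finset (Fin n)) := by
    have : w ∈ ({a, b, c, z} : Finset (Fin n)) \ s := by rw [hw]; exact mem_singleton_self w
    exact (mem_sdiff.1 this).1
  have hse : s = ({a, b, c, z} : Finset (Fin n)).erase w := by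
    rw [erase_eq, ← hw, sdiff_sdiff_right_self]
    exact (inter_eq_right.2 hs).symm
  simp only [mem_insert, mem_singleton] at hwS
  rw [hse]
  rcases hwS with rfl | rfl | rfl | rfl
  · rw [erase_insert (by simp [hab, hac, haz])]
    exact mem_insert_of_mem ((mem_turan hbc hbz hcz).2 h3)
  · rw [erase_b hab hbc hbz]
    exact mem_insert_of_mem ((mem_turan hac haz hcz).2 h2)
  · rw [insert_comm b w, erase_b hac hbc.symm hcz]
    exact mem_insert_of_mem ((mem_turan hab haz hbz).2 h1)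
  · have : ({a, b, c, w} : Finset (Fin n)).erase w = {a, b, c} := by
      ext x
      simp only [mem_erase, mem_insert, mem_singleton]
      constructor
      · rintro ⟨h, h4 | h4 | h4 | h4⟩
        exacts [Or.inl h4, Or.inr (Or.inl h4), Or.inr (Or.inr h4), absurd h4 h]
      · rintro (h | h | h)
        · exact ⟨by rw [h]; exact haz, Or.inl h⟩
        · exact ⟨by rw [h]; exact hbz, Or.inr (Or.inl h)⟩
        · exact ⟨by rw [h]; exact hcz, Or.inr (Or.inr (Or.inl h))⟩
    rw [this]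
    exact mem_insert_self _ _

/-- Turán's construction with one more triple -/
theorem two_add {g : Fin n → Fin 3} (hg : (turan g).card = tnum n) (hn : 16 ≤ n)
    {e : Finset (Fin n)} (he : e.card = 3) (heT : e ∉ turan g) :
    ∃ S S', S ≠ S' ∧ Cl (insert e (turan g)) S ∧ Cl (insert e (turan g)) S' := by
  obtain ⟨a, b, c, hab, hac, hbc, rfl⟩ := card_eq_three.1 he
  obtain ⟨k, k1, k2, k3, h1, h2, h3⟩ := third (g a) (g b) (g c)
    (fun h => heT ((mem_turan hab hac hbc).2 h))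
  obtain ⟨z, z', hzz, hz, hz'⟩ := classes_two hg hn k
  have ne : ∀ w, g w = k → a ≠ w ∧ b ≠ w ∧ c ≠ w := fun w hw =>
    ⟨fun h => k1 (by rw [← hw, h]), fun h => k2 (by rw [← hw, h]), fun h => k3 (by rw [← hw, h])⟩
  obtain ⟨m1, m2, m3⟩ := ne z hz
  obtain ⟨p1, p2, p3⟩ := ne z' hz'
  refine ⟨{a, b, c, z}, {a, b, c, z'}, fun h => ?_,
    cl_add hab hac hbc m1 m2 m3 (by rw [hz]; exact h1) (by rw [hz]; exact h2) (by rw [hz]; exact h3),
    cl_add hab hac hbc p1 p2 p3 (by rw [hz']; exact h1) (by rw [hz']; exact h2)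
      (by rw [hz']; exact h3)⟩
  have : z ∈ ({a, b, c, z'} : Finset (Fin n)) := by rw [← h]; simp
  simp only [mem_insert, mem_singleton] at this
  rcases this with h | h | h | h
  exacts [m1 h.symm, m2 h.symm, m3 h.symm, hzz h]

/-- the number of copies of the complete 3-graph on four vertices -/
noncomputable def ncl (H : Finset (Finset (Fin n))) : ℕ :=
  ((univ : Finset (Finset (Fin n))).filter fun S => Cl H S).card

end

/-- **No triple is in all copies.** -/
theorem not_all {Fs : List (Finset (Finset (Fin 6)))} (D : Lst Fs) : ∃ n0 : ℕ, ∀ n, n0 ≤ n →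
    ∀ H : Finset (Finset (Fin n)), (∀ e ∈ H, e.card = 3) →
      (∀ x y, x ≠ y → (pcop Fs H x y : ℝ) ≤ c0 / 2 * (n : ℝ) ^ 4) → tnum n < H.card →
      2 ≤ ncl H ∧ ∀ e ∈ H, (∀ S, Cl H S → e ⊆ S) →
        ∃ g : Fin n → Fin 3, (turan g).card = tnum n ∧ e ∉ turan g ∧ H = insert e (turan g) := by
  obtain ⟨N, hN⟩ := exact_pairs D
  have hc0 := c0_pos
  obtain ⟨N1, hN1⟩ := exists_nat_ge (2 / c0)
  refine ⟨max 16 (max N N1), fun n hn H hH hP hcard => ?_⟩
  have h16 : 16 ≤ n := (le_max_left _ _).trans hn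
  have hnN : N ≤ n := ((le_max_left _ _).trans (le_max_right _ _)).trans hn
  have hnN1 : N1 ≤ n := ((le_max_right _ _).trans (le_max_right _ _)).trans hn
  have hn2 : 2 / c0 ≤ (n : ℝ) := hN1.trans (by exact_mod_cast hnN1)
  rw [div_le_iff₀ hc0] at hn2
  have key : ∀ e ∈ H, (∀ S, Cl H S → e ⊆ S) →
      ∃ g : Fin n → Fin 3, (turan g).card = tnum n ∧ e ∉ turan g ∧ H = insert e (turan g) := by
    intro e he hall
    have hK : K43Free (H.erase e) := by
      rw [free_iff]
      rintro S ⟨h1, h2⟩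
      have hS : Cl H S := ⟨h1, fun s hs hs3 => mem_of_mem_erase (h2 s hs hs3)⟩
      exact (mem_erase.1 (h2 e (hall S hS) (hH e he))).1 rfl
    have hP' : ∀ x y, x ≠ y → (pcop Fs (H.erase e) x y : ℝ) ≤ c0 * (n : ℝ) ^ 4 := by
      intro x y hxy
      have h1 : (pcop Fs (H.erase e) x y : ℝ) ≤ pcop Fs H x y + (n : ℝ) ^ 3 := by
        exact_mod_cast pcop_erase (hH e he) x y
      have h2 := hP x y hxy
      have h3 : 2 * (n : ℝ) ^ 3 ≤ n * c0 * (n : ℝ) ^ 3 :=
        mul_le_mul_of_nonneg_right hn2 (by positivity)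
      have h4 : (n : ℝ) * c0 * (n : ℝ) ^ 3 = c0 * (n : ℝ) ^ 4 := by ring
      rw [h4] at h3
      linarith
    have h1 := hN n hnN (H.erase e) (fun t ht => hH t (mem_of_mem_erase ht)) hK hP'
    have h2 := card_erase_of_mem he
    obtain ⟨g, hg⟩ := h1.2 (by omega)
    refine ⟨g, by rw [← hg]; omega, by rw [← hg]; exact notMem_erase e H, ?_⟩
    rw [← hg, insert_erase he]
  refine ⟨?_, key⟩
  by_contra hcon
  have hle : ncl H ≤ 1 := by omega
  have hone : ∀ S S', Cl H S → Cl H S' → S = S' := by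
    intro S S' h1 h2
    exact card_le_one.1 hle S (mem_filter.2 ⟨mem_univ _, h1⟩) S' (mem_filter.2 ⟨mem_univ _, h2⟩)
  by_cases hK : K43Free H
  · have h1 := (hN n hnN H hH hK (fun x y hxy => (hP x y hxy).trans (by
      have : 0 ≤ c0 * (n : ℝ) ^ 4 := by positivity
      linarith))).1
    omega
  · rw [free_iff] at hK
    push Not at hK
    obtain ⟨S, hS⟩ := hK
    obtain ⟨e, heS, he3⟩ : ∃ e ⊆ S, e.card = 3 := exists_subset_card_eq (by rw [hS.1]; norm_num)
    obtain ⟨g, hg, heT, hHe⟩ := key e (hS.2 e heS he3) fun S' hS' => by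
      rw [← hone S S' hS hS']; exact heS
    obtain ⟨T, T', hne, hT, hT'⟩ := two_add hg h16 he3 heT
    rw [← hHe] at hT hT'
    exact hne (hone T T' hT hT')

section
variable {n : ℕ}

/-- nearly equal parts -/
def Bal (g : Fin n → Fin 3) : Prop :=
  ∀ p q : Fin 3, ((univ : Finset (Fin n)).filter fun i => g i = p).card ≤
    ((univ : Finset (Fin n)).filter fun i => g i = q).card + 1

theorem bal_iff (g : Fin n → Fin 3) : Bal g ↔
    near (Pt g 0).card (Pt g 1).card (Pt g 2).card := by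
  have e : ∀ k : Fin 3, (univ : Finset (Fin n)).filter (fun i => g i = k) = Pt g k := by
    intro k
    unfold Pt
    ext v
    simp only [mem_filter, mem_univ, true_and]
  unfold Bal near
  simp only [e]
  constructor
  · intro h
    exact ⟨h 0 1, h 1 0, h 1 2, h 2 1, h 0 2, h 2 0⟩
  · rintro ⟨h1, h2, h3, h4, h5, h6⟩ p q
    fin_cases p <;> fin_cases q
    exacts [Nat.le_succ _, h1, h5, h2, Nat.le_succ _, h3, h6, h4, Nat.le_succ _]

theorem bal_card (hn : 16 ≤ n) (g : Fin n → Fin 3) : (turan g).card = tnum n ↔ Bal g := by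
  have hsz := Pt_add g
  rw [Fintype.card_fin] at hsz
  have h4 := turan_card6 g
  have h5 := (F6_le hsz hn).2
  rw [bal_iff, ← h5, Co.F6_tnum]
  omega

end

/-- the result for several lists -/
theorem two_copies (Ls : List (List (Finset (Finset (Fin 6))))) (hLs : ∀ L ∈ Ls, Lst L) :
    ∃ c : ℝ, 0 < c ∧ ∃ n0 : ℕ, ∀ n, n0 ≤ n →
    (∀ L ∈ Ls, ∀ H : Finset (Finset (Fin n)), (∀ e ∈ H, e.card = 3) → tnum n < H.card →
      (∀ x y, x ≠ y → (pcop L H x y : ℝ) ≤ c * (n : ℝ) ^ 4) →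
        2 ≤ ncl H ∧ ∀ e ∈ H, (∀ S, Cl H S → e ⊆ S) →
          ∃ g : Fin n → Fin 3, Bal g ∧ e ∉ turan g ∧ H = insert e (turan g)) ∧
    (∀ g : Fin n → Fin 3, Bal g → (∀ e ∈ turan g, e.card = 3) ∧ (turan g).card = tnum n ∧
      ∀ S, ¬ Cl (turan g) S) := by
  have hc0 := c0_pos
  obtain ⟨N, hN⟩ := Co.unif (fun L n => ∀ H : Finset (Finset (Fin n)), (∀ e ∈ H, e.card = 3) →
      (∀ x y, x ≠ y → (pcop L H x y : ℝ) ≤ c0 / 2 * (n : ℝ) ^ 4) → tnum n < H.card →
      2 ≤ ncl H ∧ ∀ e ∈ H, (∀ S, Cl H S → e ⊆ S) →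
        ∃ g : Fin n → Fin 3, (turan g).card = tnum n ∧ e ∉ turan g ∧ H = insert e (turan g)) Ls
    fun L hL => not_all (hLs L hL)
  refine ⟨c0 / 2, by positivity, max 16 N, fun n hn => ?_⟩
  have h16 : 16 ≤ n := (le_max_left _ _).trans hn
  refine ⟨fun L hL H hH hcard hP => ?_, fun g hg => ?_⟩
  · obtain ⟨h1, h2⟩ := hN n ((le_max_right _ _).trans hn) L hL H hH hP hcard
    refine ⟨h1, fun e he hall => ?_⟩
    obtain ⟨g, hg, heT, hHe⟩ := h2 e he hall
    exact ⟨g, (bal_card h16 g).1 hg, heT, hHe⟩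
  · exact ⟨fun e he => turan_card he, (bal_card h16 g).2 hg, free_iff.1 (turan_free g)⟩

end Pool.Agent.R573.CL
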