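import Pool.Agent.R573.CL.Two

/-! More than `q` copies of the complete 3-graph on four vertices. -/

set_option autoImplicit false
set_option linter.unusedVariables false
set_option linter.unusedSectionVars false
set_option maxRecDepth 100000

open Finset
open scoped Classical

namespace Pool.Agent.R573.CL
open Pool.Agent.TH773
open Pool.Agent.TH773.ST
open Pool.Agent.TH773.Turan34 (K43Free turan Induces copies)
open Pool.Agent.Y439.Loc (tnum)

section
variable {n : ℕ} {H : Finset (Finset (Fin n))}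

theorem pcop_sdiff {Fs : List (Finset (Finset (Fin 6)))} (E : Finset (Finset (Fin n))) :
    (∀ e ∈ E, e.card = 3) → ∀ x y : Fin n,
      pcop Fs (H \ E) x y ≤ pcop Fs H x y + E.card * n ^ 3 := by
  induction E using Finset.induction_on with
  | empty => intro _ x y; simp
  | insert e E he ih =>
    intro hE x y
    have h1 : H \ insert e E = (H \ E).erase e := by
      rw [sdiff_insert]
    have h2 := pcop_erase (H := H \ E) (Fs := Fs) (hE e (mem_insert_self _ _)) x y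
    have h3 := ih (fun e' he' => hE e' (mem_insert_of_mem he')) x y
    rw [h1, card_insert_of_notMem he, add_mul, one_mul]
    omega

theorem cl_mono {H' : Finset (Finset (Fin n))} (h : H ⊆ H') {S : Finset (Fin n)} (hS : Cl H S) :
    Cl H' S := ⟨hS.1, fun s hs hs3 => h (hS.2 s hs hs3)⟩

theorem ncl_mono {H' : Finset (Finset (Fin n))} (h : H ⊆ H') : ncl H ≤ ncl H' :=
  card_le_card fun S hS => mem_filter.2 ⟨mem_univ _, cl_mono h (mem_filter.1 hS).2⟩

theorem class_big {g : Fin n → Fin 3} (hg : (turan g).card = tnum n) (hn : 16 ≤ n) (k : Fin 3) :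
    n / 3 ≤ (Pt g k).card := by
  have hsz := Pt_add g
  rw [Fintype.card_fin] at hsz
  have h4 := turan_card6 g
  rw [hg] at h4
  have h5 := ((F6_le hsz hn).2).mp (by rw [Co.F6_tnum]; omega)
  unfold near at h5
  fin_cases k
  · show n / 3 ≤ (Pt g 0).card
    omega
  · show n / 3 ≤ (Pt g 1).card
    omega
  · show n / 3 ≤ (Pt g 2).card
    omega

/-- Turán's construction with one more triple has many copies -/
theorem many_add {g : Fin n → Fin 3} (hg : (turan g).card = tnum n) (hn : 16 ≤ n)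
    {e : Finset (Fin n)} (he : e.card = 3) (heT : e ∉ turan g) :
    n / 3 ≤ ncl (insert e (turan g)) := by
  obtain ⟨a, b, c, hab, hac, hbc, rfl⟩ := card_eq_three.1 he
  obtain ⟨k, k1, k2, k3, h1, h2, h3⟩ := third (g a) (g b) (g c)
    (fun h => heT ((mem_turan hab hac hbc).2 h))
  refine (class_big hg hn k).trans ?_
  have ne : ∀ w ∈ Pt g k, g w = k ∧ a ≠ w ∧ b ≠ w ∧ c ≠ w := fun w hw => by
    unfold Pt at hw
    have hw' := (mem_filter.1 hw).2
    exact ⟨hw', fun h => k1 (by rw [← hw', h]), fun h => k2 (by rw [← hw', h]),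
      fun h => k3 (by rw [← hw', h])⟩
  unfold ncl
  refine card_le_card_of_injOn (fun z => ({a, b, c, z} : Finset (Fin n))) ?_ ?_
  · intro z hz
    obtain ⟨hk, m1, m2, m3⟩ := ne z (mem_coe.1 hz)
    refine mem_coe.2 (mem_filter.2 ⟨mem_univ _, ?_⟩)
    exact cl_add hab hac hbc m1 m2 m3 (by rw [hk]; exact h1) (by rw [hk]; exact h2)
      (by rw [hk]; exact h3)
  · intro z hz z' hz' h
    obtain ⟨hk, m1, m2, m3⟩ := ne z (mem_coe.1 hz)
    simp only at h
    have : z ∈ ({a, b, c, z'} : Finset (Fin n)) := by rw [← h]; simp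
    simp only [mem_insert, mem_singleton] at this
    rcases this with h | h | h | h
    exacts [absurd h.symm m1, absurd h.symm m2, absurd h.symm m3, h]

end

/-- **The sets of edges that meet all copies, and the number of copies.** -/
theorem many {Fs : List (Finset (Finset (Fin 6)))} (D : Lst Fs) : ∃ n0 : ℕ, ∀ n, n0 ≤ n →
    ∀ H : Finset (Finset (Fin n)), (∀ e ∈ H, e.card = 3) →
      (∀ x y, x ≠ y → (pcop Fs H x y : ℝ) ≤ c0 / 2 * (n : ℝ) ^ 4) →
      ∀ q : ℕ, 1 ≤ q → (q : ℝ) ≤ c0 / 2 * n → tnum n + q ≤ H.card →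
      q + 1 ≤ ncl H ∧ ∀ E ⊆ H, (∀ S, Cl H S → ∃ e ∈ E, e ⊆ S) →
        q ≤ E.card ∧ (E.card = q →
          ∃ g : Fin n → Fin 3, (turan g).card = tnum n ∧ H \ E = turan g) := by
  obtain ⟨N, hN⟩ := exact_pairs D
  have hc0 := c0_pos
  have hc1 : c0 ≤ 1 / 10 ^ 15 := by
    have e1 : Pool.Agent.Y903.TX.eps0 ≤ 1 :=
      Pool.Agent.Y903.TX.eps_small.trans (by norm_num)
    have e2 := eps_sq
    unfold c0
    exact div_le_div_of_nonneg_right (by linarith) (by positivity)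
  refine ⟨max 16 N, fun n hn H hH hP q hq1 hq hcard => ?_⟩
  have h16 : 16 ≤ n := (le_max_left _ _).trans hn
  have hnN : N ≤ n := (le_max_right _ _).trans hn
  have hn16 : (16 : ℝ) ≤ n := by exact_mod_cast h16
  have key : ∀ E ⊆ H, (∀ S, Cl H S → ∃ e ∈ E, e ⊆ S) → E.card ≤ q →
      E.card = q ∧ ∃ g : Fin n → Fin 3, (turan g).card = tnum n ∧ H \ E = turan g := by
    intro E hE hall hEq
    have hK : K43Free (H \ E) := by
      rw [free_iff]
      rintro S ⟨h1, h2⟩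
      obtain ⟨e, heE, heS⟩ := hall S ⟨h1, fun s hs hs3 => (mem_sdiff.1 (h2 s hs hs3)).1⟩
      exact (mem_sdiff.1 (h2 e heS (hH e (hE heE)))).2 heE
    have hP' : ∀ x y, x ≠ y → (pcop Fs (H \ E) x y : ℝ) ≤ c0 * (n : ℝ) ^ 4 := by
      intro x y hxy
      have h1 : (pcop Fs (H \ E) x y : ℝ) ≤ pcop Fs H x y + E.card * (n : ℝ) ^ 3 := by
        exact_mod_cast pcop_sdiff E (fun e he => hH e (hE he)) x y
      have h2 := hP x y hxy
      have h3 : (E.card : ℝ) ≤ c0 / 2 * n := le_trans (by exact_mod_cast hEq) hq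
      have h4 : (E.card : ℝ) * (n : ℝ) ^ 3 ≤ c0 / 2 * n * (n : ℝ) ^ 3 :=
        mul_le_mul_of_nonneg_right h3 (by positivity)
      have h5 : c0 / 2 * (n : ℝ) * (n : ℝ) ^ 3 = c0 / 2 * (n : ℝ) ^ 4 := by ring
      linarith
    have h1 := hN n hnN (H \ E) (fun t ht => hH t (mem_sdiff.1 ht).1) hK hP'
    have h2 := card_sdiff_add_card_eq_card hE
    obtain ⟨g, hg⟩ := h1.2 (by omega)
    exact ⟨by omega, g, by rw [← hg]; omega, hg⟩
  refine ⟨?_, fun E hE hall => ⟨?_, fun h => (key E hE hall h.le).2⟩⟩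
  swap
  · by_contra hcon
    have := (key E hE hall (by omega)).1
    omega
  by_contra hcon
  have hle : ncl H ≤ q := by omega
  have hex : ∀ S : Finset (Fin n), ∃ e, Cl H S → e ⊆ S ∧ e ∈ H := by
    intro S
    by_cases hS : Cl H S
    · obtain ⟨e, heS, he3⟩ : ∃ e ⊆ S, e.card = 3 := exists_subset_card_eq (by rw [hS.1]; norm_num)
      exact ⟨e, fun _ => ⟨heS, hS.2 e heS he3⟩⟩
    · exact ⟨∅, fun h => absurd h hS⟩
  choose f hf using hex
  obtain ⟨E, hEd⟩ : ∃ E, E = ((univ : Finset (Finset (Fin n))).filter fun S => Cl H S).image f :=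
    ⟨_, rfl⟩
  have hE : E ⊆ H := by
    intro e he
    rw [hEd] at he
    obtain ⟨S, hS, rfl⟩ := mem_image.1 he
    exact (hf S (mem_filter.1 hS).2).2
  have hEc : E.card ≤ q := by
    rw [hEd]
    exact card_image_le.trans hle
  have hall : ∀ S, Cl H S → ∃ e ∈ E, e ⊆ S := by
    intro S hS
    refine ⟨f S, ?_, (hf S hS).1⟩
    rw [hEd]
    exact mem_image_of_mem _ (mem_filter.2 ⟨mem_univ _, hS⟩)
  obtain ⟨hEq, g, hg, hHE⟩ := key E hE hall hEc
  obtain ⟨e, he⟩ : E.Nonempty := by rw [← card_pos]; omega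
  have heT : e ∉ turan g := by
    rw [← hHE]
    exact fun h => (mem_sdiff.1 h).2 he
  have hsub : insert e (turan g) ⊆ H := by
    rw [← hHE]
    exact insert_subset (hE he) sdiff_subset
  have h1 := (many_add hg h16 (hH e (hE he)) heT).trans ((ncl_mono hsub).trans hle)
  have h2 : ((n / 3 : ℕ) : ℝ) ≤ (q : ℝ) := by exact_mod_cast h1
  have h3 : (n : ℝ) ≤ 3 * ((n / 3 : ℕ) : ℝ) + 2 := by
    have : n ≤ 3 * (n / 3) + 2 := by omega
    exact_mod_cast this
  have h4 : c0 / 2 * (n : ℝ) ≤ 1 / 10 ^ 15 * n := by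
    refine mul_le_mul_of_nonneg_right ?_ (by linarith)
    linarith
  have h5 : (1 : ℝ) / 10 ^ 15 * n ≤ 1 / 10 * n :=
    mul_le_mul_of_nonneg_right (by norm_num) (by linarith)
  linarith

/-- the result for several lists -/
theorem many_copies (Ls : List (List (Finset (Finset (Fin 6))))) (hLs : ∀ L ∈ Ls, Lst L) :
    ∃ c : ℝ, 0 < c ∧ ∃ n0 : ℕ, ∀ n, n0 ≤ n →
    (∀ L ∈ Ls, ∀ H : Finset (Finset (Fin n)), (∀ e ∈ H, e.card = 3) →
      (∀ x y, x ≠ y → (pcop L H x y : ℝ) ≤ c * (n : ℝ) ^ 4) →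
      ∀ q : ℕ, 1 ≤ q → (q : ℝ) ≤ c * n → tnum n + q ≤ H.card →
        q + 1 ≤ ncl H ∧ ∀ E ⊆ H, (∀ S, Cl H S → ∃ e ∈ E, e ⊆ S) →
          q ≤ E.card ∧ (E.card = q → ∃ g : Fin n → Fin 3, Bal g ∧ H \ E = turan g)) ∧
    (∀ g : Fin n → Fin 3, Bal g → (∀ e ∈ turan g, e.card = 3) ∧ (turan g).card = tnum n ∧
      ∀ S, ¬ Cl (turan g) S) := by
  have hc0 := c0_pos
  obtain ⟨N, hN⟩ := Co.unif (fun L n => ∀ H : Finset (Finset (Fin n)), (∀ e ∈ H, e.card = 3) →
      (∀ x y, x ≠ y → (pcop L H x y : ℝ) ≤ c0 / 2 * (n : ℝ) ^ 4) →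
      ∀ q : ℕ, 1 ≤ q → (q : ℝ) ≤ c0 / 2 * n → tnum n + q ≤ H.card →
      q + 1 ≤ ncl H ∧ ∀ E ⊆ H, (∀ S, Cl H S → ∃ e ∈ E, e ⊆ S) →
        q ≤ E.card ∧ (E.card = q →
          ∃ g : Fin n → Fin 3, (turan g).card = tnum n ∧ H \ E = turan g)) Ls
    fun L hL => many (hLs L hL)
  refine ⟨c0 / 2, by positivity, max 16 N, fun n hn => ?_⟩
  have h16 : 16 ≤ n := (le_max_left _ _).trans hn
  refine ⟨fun L hL H hH hP q hq1 hq hcard => ?_, fun g hg => ?_⟩
  · obtain ⟨h1, h2⟩ := hN n ((le_max_right _ _).trans hn) L hL H hH hP q hq1 hq hcard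
    refine ⟨h1, fun E hE hall => ⟨(h2 E hE hall).1, fun h => ?_⟩⟩
    obtain ⟨g, hg, hHE⟩ := (h2 E hE hall).2 h
    exact ⟨g, (bal_card h16 g).1 hg, hHE⟩
  · exact ⟨fun e he => turan_card he, (bal_card h16 g).2 hg, free_iff.1 (turan_free g)⟩

end Pool.Agent.R573.CL
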